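import Pool.Agent.H692R2.USS.Iface

set_option autoImplicit false

namespace Pool.Agent.H692R2.USS

open Polynomial Finset

section
variable {R : Type*} [CommRing R]

@[simp] theorem E_apply (u : ℕ → R) (n : ℕ) : (E R) u n = u (n + 1) := rfl

@[simp] theorem E_pow_apply (i : ℕ) (u : ℕ → R) (n : ℕ) : ((E R) ^ i) u n = u (n + i) := by
  induction i generalizing n with
  | zero => simp
  | succ i ih =>
    rw [pow_succ', Module.End.mul_apply, E_apply, ih]
    congr 1; ring

theorem aeval_E_apply (g : R[X]) (u : ℕ → R) (n : ℕ) {N : ℕ} (h : g.natDegree < N) :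
    aeval (E R) g u n = ∑ i ∈ Finset.range N, g.coeff i * u (n + i) := by
  rw [aeval_eq_sum_range' h, LinearMap.sum_apply, Finset.sum_apply]
  refine Finset.sum_congr rfl fun i _ => ?_
  simp

theorem ann_iff {g : R[X]} {u : ℕ → R} {N : ℕ} (h : g.natDegree < N) :
    Ann g u ↔ ∀ n, ∑ i ∈ Finset.range N, g.coeff i * u (n + i) = 0 := by
  unfold Ann
  rw [funext_iff]
  refine forall_congr' fun n => ?_
  rw [aeval_E_apply g u n h]
  rfl

theorem Ann.mul_left {g u} (h : Ann (R := R) g u) (f : R[X]) : Ann (f * g) u := by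
  unfold Ann at *
  rw [map_mul, Module.End.mul_apply, h, map_zero]

theorem Ann.mul_right {g u} (h : Ann (R := R) g u) (f : R[X]) : Ann (g * f) u := by
  rw [mul_comm]; exact h.mul_left f

theorem Ann.of_dvd {g f : R[X]} {u : ℕ → R} (h : Ann g u) (hd : g ∣ f) : Ann f u := by
  obtain ⟨q, rfl⟩ := hd
  exact h.mul_right q

theorem Ann.add {g : R[X]} {u v : ℕ → R} (hu : Ann g u) (hv : Ann g v) : Ann g (u + v) := by
  unfold Ann at *
  rw [map_add, hu, hv, add_zero]

theorem Ann.sub {g : R[X]} {u v : ℕ → R} (hu : Ann g u) (hv : Ann g v) : Ann g (u - v) := by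
  unfold Ann at *
  rw [map_sub, hu, hv, sub_zero]

theorem Ann.smul {g : R[X]} {u : ℕ → R} (hu : Ann g u) (c : R) : Ann g (c • u) := by
  unfold Ann at *
  rw [map_smul, hu, smul_zero]

theorem Ann.sum {ι : Type*} {g : R[X]} (s : Finset ι) {u : ι → ℕ → R}
    (hu : ∀ i ∈ s, Ann g (u i)) : Ann g (∑ i ∈ s, u i) := by
  unfold Ann at *
  rw [map_sum]
  exact Finset.sum_eq_zero hu

theorem Ann.aeval {g : R[X]} {u : ℕ → R} (hu : Ann g u) (f : R[X]) :
    Ann g (Polynomial.aeval (E R) f u) := by
  unfold Ann at *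
  rw [← Module.End.mul_apply, ← map_mul, mul_comm, map_mul, Module.End.mul_apply, hu, map_zero]

/-- a recurrence sequence vanishing on an initial segment vanishes. -/
theorem Ann.eq_zero {g : R[X]} {u : ℕ → R} (hg : g.Monic) (hu : Ann g u)
    (h0 : ∀ n < g.natDegree, u n = 0) (n : ℕ) : u n = 0 := by
  induction n using Nat.strong_induction_on with
  | _ n ih =>
    by_cases hn : n < g.natDegree
    · exact h0 n hn
    · push Not at hn
      have h := (ann_iff (Nat.lt_succ_self _)).1 hu (n - g.natDegree)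
      rw [Finset.sum_range_succ, hg.coeff_natDegree, one_mul] at h
      rw [Finset.sum_eq_zero, zero_add] at h
      · rwa [Nat.sub_add_cancel hn] at h
      · intro i hi
        rw [Finset.mem_range] at hi
        rw [ih _ (by omega), mul_zero]

theorem Ann.ext {g : R[X]} {u v : ℕ → R} (hg : g.Monic) (hu : Ann g u) (hv : Ann g v)
    (h0 : ∀ n < g.natDegree, u n = v n) (n : ℕ) : u n = v n := by
  have := (hu.sub hv).eq_zero hg (fun n hn => by simp [h0 n hn]) n
  simpa [sub_eq_zero] using this

theorem Ann.map {S : Type*} [CommRing S] (φ : R →+* S) {g : R[X]} {u : ℕ → R} (hu : Ann g u) :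
    Ann (g.map φ) (fun n => φ (u n)) := by
  rw [ann_iff (N := g.natDegree + 1) (Nat.lt_succ_of_le natDegree_map_le)]
  intro n
  have h := (ann_iff (Nat.lt_succ_self _)).1 hu n
  have h2 := congrArg φ h
  rw [map_sum, map_zero] at h2
  simpa [coeff_map] using h2

end

end Pool.Agent.H692R2.USS
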