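import Pool.Agent.H692R2.USS.Iface

set_option autoImplicit false

namespace Pool.Agent.H692R2.USS

open Polynomial Finset
open scoped Classical

/-! ## Analytic side -/

-- T1
theorem bt : BT := sorry

-- T2
theorem invTot : InvTot := sorry

-- T3
theorem gcdSum (h1 : BT) (h2 : InvTot) : GcdSum := sorry

-- T4
theorem second_moment (Q : Finset ℕ) (lo len : ℕ → ℕ) (w : ℕ → ℝ) (M : ℕ) (hM : 0 < M)
    (hQ : ∀ p ∈ Q, 2 ≤ p) (hlo : ∀ p ∈ Q, lo p + len p ≤ p - 1)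
    (hMp : ∀ p ∈ Q, (p - 1) ∣ M) (hw : ∀ p ∈ Q, 0 ≤ w p) :
    (((Finset.range M).filter (fun n => ∀ p ∈ Q,
      ¬ (lo p ≤ n % (p - 1) ∧ n % (p - 1) < lo p + len p))).card : ℝ) *
      (∑ p ∈ Q, w p * len p / ((p : ℝ) - 1)) ^ 2 ≤
    M * (∑ p ∈ Q, (w p) ^ 2 * len p / ((p : ℝ) - 1) +
      2 * ∑ p' ∈ Q, ∑ p ∈ Q.filter (fun p => p < p'), w p * w p' * len p *
        ((Nat.gcd (p - 1) (p' - 1) : ℕ) : ℝ) / (((p : ℝ) - 1) * ((p' : ℝ) - 1))) := sorry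

-- T5
theorem massK (h : BT) (K : Type) [Field K] [NumberField K] : MassK K := sorry

-- T6
theorem splitField (k : ℕ) : ∃ (K : Type) (_ : Field K) (_ : NumberField K),
    ∀ p : ℕ, p.Prime → HasDegOne K p → SplitAll k p := sorry

-- T7
theorem block (hG : GcdSum) (k : ℕ) (hk : 1 ≤ k) (hm : Mass k) : Block k := sorry

-- T8
theorem nonGen (k : ℕ) (hk : 1 ≤ k) : NonGen k := sorry

-- T9
theorem goodDensity (h1 : ∀ k, 1 ≤ k → Block k) (h2 : ∀ k, 1 ≤ k → NonGen k) : GoodDensity := sorry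

/-! ## Algebraic side -/

-- U1
theorem zero_bound {g : ℤ[X]} {v : ℕ → ℤ} (hv : Ann g v) {p T : ℕ} (hp : p.Prime) (hp3 : 3 ≤ p)
    {q w : ℤ[X]} (hT : X ^ T - 1 = g * q + C (p : ℤ) * w) (r : ℕ) (Z : Finset ℕ)
    (hZ : ∀ l ∈ Z, v (r + T * l) = 0) (l : ℕ) :
    (p : ℤ) ^ ((Z.card + 1) / 2) ∣ v (r + T * l) := sorry

-- U2
theorem exists_T {g : ℤ[X]} (hg : g.Monic) {p : ℕ} (hp : p.Prime)
    (h0 : ¬ (p : ℤ) ∣ g.coeff 0) :
    ∃ (T : ℕ) (q w : ℤ[X]), 1 ≤ T ∧ X ^ T - 1 = g * q + C (p : ℤ) * w := sorry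

-- U3
theorem period {g s t : ℤ[X]} {rr : ℤ} (hg : g.Monic) {p : ℕ} (hp : p.Prime)
    (hs : (g.map (Int.castRingHom (ZMod p))).Splits)
    (hst : s * g + t * derivative g = C rr) (hrr : ¬ (p : ℤ) ∣ rr)
    (h0 : ¬ (p : ℤ) ∣ g.coeff 0) {v : ℕ → ℤ} (hv : Ann g v) {n b : ℕ}
    (h : b ≡ n [MOD p - 1]) : (p : ℤ) ∣ v n - v b := sorry

-- U4
theorem decomp (f : ℤ[X]) (hf : f.Monic) (h0 : f.coeff 0 ≠ 0) (u : ℕ → ℤ) (hu : Ann f u) :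
    ∃ (g s t : ℤ[X]) (rr : ℤ) (m D : ℕ) (v : ℕ → ℕ → ℤ),
      g.Monic ∧ g.coeff 0 ≠ 0 ∧ s * g + t * derivative g = C rr ∧ rr ≠ 0 ∧ 1 ≤ m ∧ 1 ≤ D ∧
      (∀ j < m, Ann g (v j)) ∧
      ∀ n : ℕ, (D : ℤ) * u n = ∑ j ∈ Finset.range m, (n.choose j : ℤ) * v j n := sorry

-- U5
theorem cert_sound {u : ℕ → ℤ} {k : ℕ} (hc : Cert u k) {k' : ℕ} (hk : k ≤ k') {i n : ℕ}
    (hg : Good i k' n) (hu : u n = 0) :
    ∃ T, 1 ≤ T ∧ T ≤ k ∧ ∀ n', n' ≡ n [MOD T] → u n' = 0 := sorry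

-- U6
theorem cert_exists (f : ℤ[X]) (hf : f.Monic) (h0 : f.coeff 0 ≠ 0) (u : ℕ → ℤ) (hu : Ann f u) :
    ∃ k, Cert u k := sorry

/-! ## Computability side -/

-- W1
theorem good_computable : ComputablePred (fun x : ℕ × ℕ × ℕ => Good x.1 x.2.1 x.2.2) := sorry

-- W2
theorem NSeq_computable (h : GoodDensity) : Computable NSeq := sorry

theorem S_computable (h : GoodDensity) : ComputablePred (fun n => n ∈ S) := sorry

-- W3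
theorem S_density (h : GoodDensity) :
    Filter.Tendsto (fun N : ℕ => (((Finset.range N).filter (fun n => n ∈ S)).card : ℝ) / N)
      Filter.atTop (nhds 1) := sorry

end Pool.Agent.H692R2.USS
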