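import Pool.Agent.H692R2.USS.Code

set_option autoImplicit false

namespace Pool.Agent.H692R2.USS

open Polynomial Finset
open Pool.Agent.Helper446

section comp
variable {α : Type*} [Primcodable α]

@[fun_prop] theorem ccmod {f g : α → ℕ} (hf : Computable f) (hg : Computable g) :
    Computable (fun x => f x % g x) := Primrec.nat_mod.to_comp.comp hf hg
@[fun_prop] theorem ccdiv {f g : α → ℕ} (hf : Computable f) (hg : Computable g) :
    Computable (fun x => f x / g x) := Primrec.nat_div.to_comp.comp hf hg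

theorem pow_comp2 : Computable (fun x : ℕ × ℕ => x.1 ^ x.2) := by
  have h := Computable.nat_rec (f := fun x : ℕ × ℕ => x.2) (g := fun _ : ℕ × ℕ => 1)
    (h := fun (a : ℕ × ℕ) (y : ℕ × ℕ) => y.2 * a.1) (by fun_prop) (by fun_prop) ?_
  · refine h.of_eq fun a => ?_
    rcases a with ⟨a, n⟩
    induction n with
    | zero => rfl
    | succ n ih =>
      simp only [pow_succ] at ih ⊢
      rw [← ih]
  · show Computable fun x : (ℕ × ℕ) × (ℕ × ℕ) => x.2.2 * x.1.1
    fun_prop

@[fun_prop] theorem ccpow {f g : α → ℕ} (hf : Computable f) (hg : Computable g) :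
    Computable (fun x => f x ^ g x) :=
  pow_comp2.comp (f := fun x : ℕ × ℕ => x.1 ^ x.2) (g := fun x => (f x, g x)) (by fun_prop)

theorem fact_comp : Computable (fun n : ℕ => n.factorial) := by
  have h := Computable.nat_rec (f := fun x : ℕ => x) (g := fun _ : ℕ => 1)
    (h := fun (_ : ℕ) (y : ℕ × ℕ) => (y.1 + 1) * y.2) (by fun_prop) (by fun_prop) ?_
  · refine h.of_eq fun n => ?_
    induction n with
    | zero => rfl
    | succ n ih =>
      simp only [Nat.factorial_succ] at ih ⊢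
      rw [← ih]
  · show Computable fun x : ℕ × (ℕ × ℕ) => (x.2.1 + 1) * x.2.2
    fun_prop

@[fun_prop] theorem cfact {f : α → ℕ} (hf : Computable f) :
    Computable (fun x => (f x).factorial) := fact_comp.comp hf

theorem desc_comp : Computable (fun x : ℕ × ℕ => x.1.descFactorial x.2) := by
  have h := Computable.nat_rec (f := fun x : ℕ × ℕ => x.2) (g := fun _ : ℕ × ℕ => 1)
    (h := fun (a : ℕ × ℕ) (y : ℕ × ℕ) => (a.1 - y.1) * y.2) (by fun_prop) (by fun_prop) ?_
  · refine h.of_eq fun a => ?_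
    rcases a with ⟨a, n⟩
    induction n with
    | zero => rfl
    | succ n ih =>
      simp only [Nat.descFactorial_succ] at ih ⊢
      rw [← ih]
  · show Computable fun x : (ℕ × ℕ) × (ℕ × ℕ) => (x.1.1 - x.2.1) * x.2.2
    fun_prop

@[fun_prop] theorem cchoose {f g : α → ℕ} (hf : Computable f) (hg : Computable g) :
    Computable (fun x => (f x).choose (g x)) := by
  have h1 : Computable (fun x => (f x).descFactorial (g x) / (g x).factorial) := by
    have := desc_comp.comp (f := fun x : ℕ × ℕ => x.1.descFactorial x.2)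
      (g := fun x => (f x, g x)) (by fun_prop)
    fun_prop
  exact h1.of_eq fun x => (Nat.choose_eq_descFactorial_div_factorial _ _).symm

end comp

/-- equality of coded integers -/
def zeq (x y : ℕ × ℕ) : Prop := x.1 + y.2 = y.1 + x.2
/-- `|z| < N` -/
def zlt (z : ℕ × ℕ) (N : ℕ) : Prop := z.1 < N + z.2 ∧ z.2 < N + z.1

theorem zeq_iff {x y : ℕ × ℕ} : zeq x y ↔ iv x = iv y := by unfold zeq iv; omega
theorem zlt_iff {z : ℕ × ℕ} {N : ℕ} : zlt z N ↔ |iv z| < N := by
  unfold zlt iv; rw [abs_lt]; omega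

section re
variable {α : Type*} [Primcodable α]

theorem re_zeq {x y : α → ℕ × ℕ} (hx : Computable x) (hy : Computable y) :
    REPred fun a => zeq (x a) (y a) := by unfold zeq; exact RE.eq (by fun_prop) (by fun_prop)

theorem re_not_zeq {x y : α → ℕ × ℕ} (hx : Computable x) (hy : Computable y) :
    REPred fun a => ¬ zeq (x a) (y a) := by unfold zeq; exact RE.ne (by fun_prop) (by fun_prop)

theorem re_zlt {x : α → ℕ × ℕ} {N : α → ℕ} (hx : Computable x) (hN : Computable N) :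
    REPred fun a => zlt (x a) (N a) := by
  unfold zlt
  exact RE.and (RE.lt (by fun_prop) (by fun_prop)) (RE.lt (by fun_prop) (by fun_prop))

end re

/-- list access -/
abbrev at0 (L : List (ℕ × ℕ)) (i : ℕ) : ℕ × ℕ := L.getD i (0, 0)

/-- coefficients of `PG G` -/
def gx (G : List (ℕ × ℕ)) (i : ℕ) : ℕ × ℕ := at0 (G ++ [(1, 0)]) i

/-- coefficient of a product -/
def conv (x y : ℕ → ℕ × ℕ) (n : ℕ) : ℕ × ℕ := zsum (fun i => zm (x i) (y (n - i))) (n + 1)

abbrev CT := (List (ℕ × ℕ) × List (ℕ × ℕ) × List (ℕ × ℕ) × List (ℕ × ℕ) × List (ℕ × ℕ)) ×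
  ((ℕ × ℕ) × ℕ × ℕ × ℕ × ℕ) × List (List (ℕ × ℕ))

def K1 (k : ℕ) (G : List (ℕ × ℕ)) : Prop :=
  (1 ≤ G.length ∧ G.length ≤ k) ∧ (∀ i < G.length, zlt (at0 G i) (k + 1)) ∧
    ¬ zeq (at0 G 0) (0, 0)

def K2 (G s t : List (ℕ × ℕ)) (rr : ℕ × ℕ) : Prop :=
  ∀ n < s.length + t.length + G.length + 2,
    zeq (za (conv (at0 s) (gx G) n) (conv (at0 t) (fun i => zm (i + 1, 0) (gx G (i + 1))) n))
      (zm rr (1 - n, 0))

def K3 (k : ℕ) (rr : ℕ × ℕ) (m D : ℕ) (G : List (ℕ × ℕ)) (V : List (List (ℕ × ℕ))) : Prop :=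
  (¬ zeq rr (0, 0) ∧ zlt rr (k + 1)) ∧ (1 ≤ m ∧ m ≤ k) ∧ 1 ≤ D ∧
    ∀ j < m, (V.getD j []).length = G.length

def K4 (F a G : List (ℕ × ℕ)) (m D : ℕ) (V : List (List (ℕ × ℕ))) : Prop :=
  ∀ n < F.length + m * G.length, zeq (zm (D, 0) (run F a n))
    (zsum (fun j => zm (n.choose j, 0) (run G (V.getD j []) n)) m)

def K5 (k m : ℕ) (G : List (ℕ × ℕ)) (V : List (List (ℕ × ℕ))) : Prop :=
  (∀ j < m, ∀ i < G.length, zlt (zm (m * m.factorial, 0) (at0 (V.getD j []) i)) (2 ^ k)) ∧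
    1 + (zsum (fun i => ((at0 G i).1 + (at0 G i).2, 0)) G.length).1 ≤ 2 ^ k

def K6 (k p0 T : ℕ) (G q w : List (ℕ × ℕ)) : Prop :=
  (3 ≤ p0 ∧ ∀ i < p0, i < 2 ∨ p0 % i ≠ 0) ∧ (1 ≤ T ∧ T ≤ k) ∧
    ∀ n < T + G.length + q.length + w.length + 2,
      zeq (za (conv (gx G) (at0 q) n) (zm (p0, 0) (at0 w n)))
        ((1 - (n - T)) * (1 - (T - n)), 1 - n)

def K7 (k m T : ℕ) (G : List (ℕ × ℕ)) (V : List (List (ℕ × ℕ))) : Prop :=
  ∀ r < T, (∀ j < m, ∀ l < G.length, zeq (run G (V.getD j []) (r + T * l)) (0, 0)) ∨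
    ∃ j l, j < m ∧ ¬ zeq (run G (V.getD j []) (r + T * l)) (0, 0) ∧
      zlt (run G (V.getD j []) (r + T * l)) (3 ^ (k / 2))

/-- the coded certificate -/
def CC (F a : List (ℕ × ℕ)) (k : ℕ) (c : CT) : Prop :=
  K1 k c.1.1 ∧ K2 c.1.1 c.1.2.1 c.1.2.2.1 c.2.1.1 ∧
  K3 k c.2.1.1 c.2.1.2.1 c.2.1.2.2.1 c.1.1 c.2.2 ∧
  K4 F a c.1.1 c.2.1.2.1 c.2.1.2.2.1 c.2.2 ∧ K5 k c.2.1.2.1 c.1.1 c.2.2 ∧
  K6 k c.2.1.2.2.2.1 c.2.1.2.2.2.2 c.1.1 c.1.2.2.2.1 c.1.2.2.2.2 ∧
  K7 k c.2.1.2.1 c.2.1.2.2.2.2 c.1.1 c.2.2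

section re
variable {α : Type*} [Primcodable α]

@[fun_prop] theorem cgx {G : α → List (ℕ × ℕ)} {i : α → ℕ} (hG : Computable G) (hi : Computable i) :
    Computable fun x => gx (G x) (i x) := by unfold gx at0; fun_prop

theorem cconv {x y : α → ℕ → ℕ × ℕ} {n : α → ℕ} (hx : Computable fun p : α × ℕ => x p.1 p.2)
    (hy : Computable fun p : α × ℕ => y p.1 p.2) (hn : Computable n) :
    Computable fun a => conv (x a) (y a) (n a) := by
  unfold conv
  refine czsum (q := fun a i => zm (x a i) (y a (n a - i))) ?_ (by fun_prop)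
  have h1 : Computable fun p : α × ℕ => y p.1 (n p.1 - p.2) :=
    hy.comp (f := fun p : α × ℕ => y p.1 p.2) (g := fun p : α × ℕ => (p.1, n p.1 - p.2))
      (by fun_prop)
  fun_prop

theorem re_K1 {k : α → ℕ} {G : α → List (ℕ × ℕ)} (hk : Computable k) (hG : Computable G) :
    REPred fun x => K1 (k x) (G x) := by
  unfold K1
  refine RE.and (RE.and (RE.le (by fun_prop) (by fun_prop)) (RE.le (by fun_prop) (by fun_prop)))
    (RE.and ?_ (re_not_zeq (by unfold at0; fun_prop) (by fun_prop)))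
  refine RE.all_lt (p := fun x i => zlt (at0 (G x) i) (k x + 1)) ?_ (by fun_prop)
  exact re_zlt (by unfold at0; fun_prop) (by fun_prop)

theorem re_K2 {G s t : α → List (ℕ × ℕ)} {rr : α → ℕ × ℕ} (hG : Computable G)
    (hs : Computable s) (ht : Computable t) (hr : Computable rr) :
    REPred fun x => K2 (G x) (s x) (t x) (rr x) := by
  unfold K2
  refine RE.all_lt (p := fun x n => zeq (za (conv (at0 (s x)) (gx (G x)) n)
    (conv (at0 (t x)) (fun i => zm (i + 1, 0) (gx (G x) (i + 1))) n)) (zm (rr x) (1 - n, 0))) ?_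
    (by fun_prop)
  have h1 : Computable fun x : α × ℕ => conv (at0 (s x.1)) (gx (G x.1)) x.2 :=
    cconv (x := fun x : α × ℕ => at0 (s x.1)) (y := fun x => gx (G x.1))
      (by unfold at0; fun_prop) (by fun_prop) (by fun_prop)
  have h2 : Computable fun x : α × ℕ => conv (at0 (t x.1))
      (fun i => zm (i + 1, 0) (gx (G x.1) (i + 1))) x.2 :=
    cconv (x := fun x : α × ℕ => at0 (t x.1))
      (y := fun x i => zm (i + 1, 0) (gx (G x.1) (i + 1)))
      (by unfold at0; fun_prop) (by fun_prop) (by fun_prop)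
  exact re_zeq (by fun_prop) (by fun_prop)

theorem re_K3 {k m D : α → ℕ} {rr : α → ℕ × ℕ} {G : α → List (ℕ × ℕ)}
    {V : α → List (List (ℕ × ℕ))} (hk : Computable k) (hm : Computable m) (hD : Computable D)
    (hr : Computable rr) (hG : Computable G) (hV : Computable V) :
    REPred fun x => K3 (k x) (rr x) (m x) (D x) (G x) (V x) := by
  unfold K3
  refine RE.and (RE.and (re_not_zeq hr (by fun_prop)) (re_zlt hr (by fun_prop)))
    (RE.and (RE.and (RE.le (by fun_prop) (by fun_prop)) (RE.le (by fun_prop) (by fun_prop)))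
    (RE.and (RE.le (by fun_prop) (by fun_prop)) ?_))
  refine RE.all_lt (p := fun x j => ((V x).getD j []).length = (G x).length) ?_ (by fun_prop)
  exact RE.eq (by fun_prop) (by fun_prop)

theorem re_K4 {m D : α → ℕ} {F a G : α → List (ℕ × ℕ)}
    {V : α → List (List (ℕ × ℕ))} (hm : Computable m) (hD : Computable D)
    (hF : Computable F) (ha : Computable a) (hG : Computable G) (hV : Computable V) :
    REPred fun x => K4 (F x) (a x) (G x) (m x) (D x) (V x) := by
  unfold K4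
  refine RE.all_lt (p := fun x n => zeq (zm (D x, 0) (run (F x) (a x) n))
    (zsum (fun j => zm (n.choose j, 0) (run (G x) ((V x).getD j []) n)) (m x))) ?_ (by fun_prop)
  have h1 : Computable fun x : α × ℕ =>
      zsum (fun j => zm (x.2.choose j, 0) (run (G x.1) ((V x.1).getD j []) x.2)) (m x.1) := by
    refine czsum (q := fun (x : α × ℕ) j =>
      zm (x.2.choose j, 0) (run (G x.1) ((V x.1).getD j []) x.2)) ?_ (by fun_prop)
    fun_prop
  exact re_zeq (by fun_prop) (by fun_prop)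

theorem re_K5 {k m : α → ℕ} {G : α → List (ℕ × ℕ)}
    {V : α → List (List (ℕ × ℕ))} (hk : Computable k) (hm : Computable m)
    (hG : Computable G) (hV : Computable V) :
    REPred fun x => K5 (k x) (m x) (G x) (V x) := by
  unfold K5
  refine RE.and ?_ ?_
  · refine RE.all_lt (p := fun x j => ∀ i < (G x).length,
      zlt (zm (m x * (m x).factorial, 0) (at0 ((V x).getD j []) i)) (2 ^ (k x))) ?_ (by fun_prop)
    refine RE.all_lt (p := fun (x : α × ℕ) i =>
      zlt (zm (m x.1 * (m x.1).factorial, 0) (at0 ((V x.1).getD x.2 []) i)) (2 ^ (k x.1))) ?_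
      (by fun_prop)
    exact re_zlt (by unfold at0; fun_prop) (by fun_prop)
  · have h1 : Computable fun x => zsum (fun i => ((at0 (G x) i).1 + (at0 (G x) i).2, 0))
        (G x).length := by
      refine czsum (q := fun x i => ((at0 (G x) i).1 + (at0 (G x) i).2, 0)) ?_ (by fun_prop)
      unfold at0
      fun_prop
    exact RE.le (by fun_prop) (by fun_prop)

theorem re_K6 {k p0 T : α → ℕ} {G q w : α → List (ℕ × ℕ)} (hk : Computable k)
    (hp : Computable p0) (hT : Computable T) (hG : Computable G) (hq : Computable q)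
    (hw : Computable w) : REPred fun x => K6 (k x) (p0 x) (T x) (G x) (q x) (w x) := by
  unfold K6
  refine RE.and (RE.and (RE.le (by fun_prop) (by fun_prop)) ?_)
    (RE.and (RE.and (RE.le (by fun_prop) (by fun_prop)) (RE.le (by fun_prop) (by fun_prop))) ?_)
  · refine RE.all_lt (p := fun x i => i < 2 ∨ p0 x % i ≠ 0) ?_ (by fun_prop)
    exact RE.or (RE.lt (by fun_prop) (by fun_prop)) (RE.ne (by fun_prop) (by fun_prop))
  · refine RE.all_lt (p := fun x n => zeq (za (conv (gx (G x)) (at0 (q x)) n)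
      (zm (p0 x, 0) (at0 (w x) n))) ((1 - (n - T x)) * (1 - (T x - n)), 1 - n)) ?_ (by fun_prop)
    have h1 : Computable fun x : α × ℕ => conv (gx (G x.1)) (at0 (q x.1)) x.2 :=
      cconv (x := fun x : α × ℕ => gx (G x.1)) (y := fun x => at0 (q x.1))
        (by fun_prop) (by unfold at0; fun_prop) (by fun_prop)
    exact re_zeq (by unfold at0; fun_prop) (by fun_prop)

theorem re_K7 {k m T : α → ℕ} {G : α → List (ℕ × ℕ)}
    {V : α → List (List (ℕ × ℕ))} (hk : Computable k) (hm : Computable m) (hT : Computable T)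
    (hG : Computable G) (hV : Computable V) :
    REPred fun x => K7 (k x) (m x) (T x) (G x) (V x) := by
  unfold K7
  refine RE.all_lt (p := fun x r => (∀ j < m x, ∀ l < (G x).length,
      zeq (run (G x) ((V x).getD j []) (r + T x * l)) (0, 0)) ∨
    ∃ j l, j < m x ∧ ¬ zeq (run (G x) ((V x).getD j []) (r + T x * l)) (0, 0) ∧
      zlt (run (G x) ((V x).getD j []) (r + T x * l)) (3 ^ (k x / 2))) ?_ (by fun_prop)
  refine RE.or ?_ ?_
  · refine RE.all_lt (p := fun (x : α × ℕ) j => ∀ l < (G x.1).length,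
      zeq (run (G x.1) ((V x.1).getD j []) (x.2 + T x.1 * l)) (0, 0)) ?_ (by fun_prop)
    refine RE.all_lt (p := fun (x : (α × ℕ) × ℕ) l =>
      zeq (run (G x.1.1) ((V x.1.1).getD x.2 []) (x.1.2 + T x.1.1 * l)) (0, 0)) ?_ (by fun_prop)
    exact re_zeq (by fun_prop) (by fun_prop)
  · refine RE.exN (p := fun (x : α × ℕ) j => ∃ l, j < m x.1 ∧
      ¬ zeq (run (G x.1) ((V x.1).getD j []) (x.2 + T x.1 * l)) (0, 0) ∧
      zlt (run (G x.1) ((V x.1).getD j []) (x.2 + T x.1 * l)) (3 ^ (k x.1 / 2))) ?_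
    refine RE.exN (p := fun (x : (α × ℕ) × ℕ) l => x.2 < m x.1.1 ∧
      ¬ zeq (run (G x.1.1) ((V x.1.1).getD x.2 []) (x.1.2 + T x.1.1 * l)) (0, 0) ∧
      zlt (run (G x.1.1) ((V x.1.1).getD x.2 []) (x.1.2 + T x.1.1 * l)) (3 ^ (k x.1.1 / 2))) ?_
    refine RE.and (RE.lt (by fun_prop) (by fun_prop)) (RE.and ?_ ?_)
    · exact re_not_zeq (by fun_prop) (by fun_prop)
    · exact re_zlt (by fun_prop) (by fun_prop)

theorem re_CC {F a : α → List (ℕ × ℕ)} {k : α → ℕ} {c : α → CT} (hF : Computable F)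
    (ha : Computable a) (hk : Computable k) (hc : Computable c) :
    REPred fun x => CC (F x) (a x) (k x) (c x) := by
  unfold CC
  refine RE.and (re_K1 hk (by fun_prop)) (RE.and (re_K2 (by fun_prop) (by fun_prop) (by fun_prop)
    (by fun_prop)) (RE.and (re_K3 hk (by fun_prop) (by fun_prop) (by fun_prop) (by fun_prop)
    (by fun_prop)) (RE.and (re_K4 (by fun_prop) (by fun_prop) hF ha (by fun_prop) (by fun_prop))
    (RE.and (re_K5 hk (by fun_prop) (by fun_prop) (by fun_prop)) (RE.and (re_K6 hk (by fun_prop)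
    (by fun_prop) (by fun_prop) (by fun_prop) (by fun_prop)) (re_K7 hk (by fun_prop)
    (by fun_prop) (by fun_prop) (by fun_prop)))))))

end re

end Pool.Agent.H692R2.USS
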