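import Pool.Agent.H692R2.USS.Iface

set_option autoImplicit false

namespace Pool.Agent.H692R2.USS

open Polynomial Finset
open scoped Classical

theorem lift_dvd {g f : ℤ[X]} {p : ℕ}
    (h : g.map (Int.castRingHom (ZMod p)) ∣ f.map (Int.castRingHom (ZMod p))) :
    ∃ q w : ℤ[X], f = g * q + C (p : ℤ) * w := by
  obtain ⟨qb, hqb⟩ := h
  obtain ⟨q, hq⟩ := Polynomial.map_surjective (Int.castRingHom (ZMod p))
    (ZMod.ringHom_surjective _) qb
  have h0 : (f - g * q).map (Int.castRingHom (ZMod p)) = 0 := by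
    rw [Polynomial.map_sub, Polynomial.map_mul, hq, hqb, sub_self]
  have hd : C (p : ℤ) ∣ f - g * q := by
    rw [Polynomial.C_dvd_iff_dvd_coeff]
    intro i
    have := congrArg (fun a => a.coeff i) h0
    simp only [Polynomial.coeff_map, Polynomial.coeff_zero, eq_intCast] at this
    exact (ZMod.intCast_zmod_eq_zero_iff_dvd _ _).1 this
  obtain ⟨w, hw⟩ := hd
  exact ⟨q, w, by rw [← hw]; ring⟩

theorem exists_T {g : ℤ[X]} (hg : g.Monic) {p : ℕ} (hp : p.Prime)
    (h0 : ¬ (p : ℤ) ∣ g.coeff 0) :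
    ∃ (T : ℕ) (q w : ℤ[X]), 1 ≤ T ∧ X ^ T - 1 = g * q + C (p : ℤ) * w := by
  haveI := Fact.mk hp
  set gb : (ZMod p)[X] := g.map (Int.castRingHom (ZMod p)) with hgb
  have hgm : gb.Monic := hg.map _
  haveI : Module.Finite (ZMod p) (AdjoinRoot gb) := hgm.finite_adjoinRoot
  haveI : Finite (AdjoinRoot gb) := Module.finite_of_finite (ZMod p)
  have hc : gb.coeff 0 ≠ 0 := by
    rw [hgb, Polynomial.coeff_map, eq_intCast]
    intro h
    exact h0 ((ZMod.intCast_zmod_eq_zero_iff_dvd _ _).1 h)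
  have hu : IsUnit (AdjoinRoot.root gb) := by
    have h1 : AdjoinRoot.mk gb (X * gb.divX + C (gb.coeff 0)) = 0 := by
      rw [Polynomial.X_mul_divX_add, AdjoinRoot.mk_self]
    rw [map_add, map_mul, AdjoinRoot.mk_X] at h1
    have h2 : AdjoinRoot.root gb * AdjoinRoot.mk gb gb.divX =
        - AdjoinRoot.mk gb (C (gb.coeff 0)) := eq_neg_of_add_eq_zero_left h1
    have h3 : IsUnit (- AdjoinRoot.mk gb (C (gb.coeff 0))) := by
      apply IsUnit.neg
      exact (Polynomial.isUnit_C.2 (IsUnit.mk0 _ hc)).map (AdjoinRoot.mk gb)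
    rw [← h2] at h3
    exact isUnit_of_mul_isUnit_left h3
  obtain ⟨u, hu⟩ := hu
  have hT : (AdjoinRoot.root gb) ^ (orderOf u) = 1 := by
    rw [← hu, ← Units.val_pow_eq_pow_val, pow_orderOf_eq_one, Units.val_one]
  have hd : gb ∣ (X ^ (orderOf u) - 1 : ℤ[X]).map (Int.castRingHom (ZMod p)) := by
    rw [← AdjoinRoot.mk_eq_zero]
    simp [hT]
  obtain ⟨q, w, h⟩ := lift_dvd hd
  exact ⟨orderOf u, q, w, orderOf_pos u, h⟩

end Pool.Agent.H692R2.USS
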