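import Pool.Agent.H692R2.USS.Iface

set_option autoImplicit false

/-!
# Universal Skolem sets: task U4, decomposition of a linear recurrence
-/

namespace Pool.Agent.H692R2.USS

open Polynomial Finset

namespace U4

/-- multiplication by `n` -/
def Nop : Module.End ℚ (ℕ → ℚ) where
  toFun u n := (n : ℚ) * u n
  map_add' u v := by
    funext n
    simp only [Pi.add_apply]
    ring
  map_smul' c u := by
    funext n
    simp only [Pi.smul_apply, smul_eq_mul, RingHom.id_apply]
    ring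

/-- the derivation `X d/dX` -/
noncomputable def th (p : ℚ[X]) : ℚ[X] := X * derivative p

lemma E_N : E ℚ * Nop = Nop * E ℚ + E ℚ := by
  refine LinearMap.ext fun u => ?_
  funext n
  change ((n + 1 : ℕ) : ℚ) * u (n + 1) = (n : ℚ) * u (n + 1) + u (n + 1)
  push_cast
  ring

lemma comm (p : ℚ[X]) :
    aeval (E ℚ) p * Nop = Nop * aeval (E ℚ) p + aeval (E ℚ) (th p) := by
  induction p using Polynomial.induction_on with
  | C a =>
    have h1 : th (C a) = 0 := by simp [th]
    rw [h1, map_zero, add_zero, aeval_C]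
    exact Algebra.commutes a Nop
  | add p q hp hq =>
    have h1 : th (p + q) = th p + th q := by simp [th, mul_add]
    rw [h1, map_add, map_add, add_mul, mul_add, hp, hq]
    abel
  | monomial n a ih =>
    have e1 : C a * X ^ (n + 1) = C a * X ^ n * X := by rw [pow_succ, mul_assoc]
    rw [e1]
    generalize C a * X ^ n = P at ih
    have h1 : th (P * X) = th P * X + P * X := by
      simp only [th, derivative_mul, derivative_X]
      ring
    rw [h1, map_mul, map_add, map_mul, map_mul, aeval_X, mul_assoc, E_N, mul_add, ← mul_assoc,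
      ih, add_mul, add_assoc, mul_assoc]

/-- simple sequences -/
noncomputable def V (g : ℚ[X]) : Submodule ℚ (ℕ → ℚ) := LinearMap.ker (aeval (E ℚ) g)

/-- levels -/
noncomputable def Lev (g : ℚ[X]) : ℕ → Submodule ℚ (ℕ → ℚ)
  | 0 => ⊥
  | j + 1 => V g ⊔ (Lev g j).map Nop

lemma mem_V {g : ℚ[X]} {u : ℕ → ℚ} : u ∈ V g ↔ aeval (E ℚ) g u = 0 := LinearMap.mem_ker

lemma lev_mono (g : ℚ[X]) (j : ℕ) : Lev g j ≤ Lev g (j + 1) := by
  induction j with
  | zero => exact bot_le
  | succ j ih => exact sup_le_sup_left (Submodule.map_mono ih) _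

lemma V_le (g : ℚ[X]) (j : ℕ) : V g ≤ Lev g (j + 1) := le_sup_left

lemma N_mem {g : ℚ[X]} {j : ℕ} {u : ℕ → ℚ} (h : u ∈ Lev g j) : Nop u ∈ Lev g (j + 1) :=
  (le_sup_right : (Lev g j).map Nop ≤ Lev g (j + 1)) (Submodule.mem_map_of_mem h)

lemma mem_succ {g : ℚ[X]} {j : ℕ} {u : ℕ → ℚ} (h : u ∈ Lev g (j + 1)) :
    ∃ v ∈ V g, ∃ w ∈ Lev g j, u = v + Nop w := by
  obtain ⟨v, hv, x, hx, rfl⟩ := Submodule.mem_sup.1 h
  obtain ⟨w, hw, rfl⟩ := (Submodule.mem_map).1 hx
  exact ⟨v, hv, w, hw, rfl⟩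

lemma aeval_comm_apply (p q : ℚ[X]) (u : ℕ → ℚ) :
    aeval (E ℚ) p (aeval (E ℚ) q u) = aeval (E ℚ) q (aeval (E ℚ) p u) := by
  have h1 : aeval (E ℚ) p * aeval (E ℚ) q = aeval (E ℚ) q * aeval (E ℚ) p := by
    rw [← map_mul, ← map_mul, mul_comm]
  exact congrFun (congrArg DFunLike.coe h1) u

lemma comm_apply (p : ℚ[X]) (u : ℕ → ℚ) :
    aeval (E ℚ) p (Nop u) = Nop (aeval (E ℚ) p u) + aeval (E ℚ) (th p) u :=
  congrFun (congrArg DFunLike.coe (comm p)) u

lemma V_stable {g : ℚ[X]} (p : ℚ[X]) {v : ℕ → ℚ} (hv : v ∈ V g) : aeval (E ℚ) p v ∈ V g := by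
  rw [mem_V] at hv ⊢
  rw [aeval_comm_apply, hv, map_zero]

lemma claimA (g : ℚ[X]) (j : ℕ) : ∀ (p : ℚ[X]) (u : ℕ → ℚ), u ∈ Lev g j →
    aeval (E ℚ) p u ∈ Lev g j := by
  induction j with
  | zero =>
    intro p u hu
    have : u = 0 := (Submodule.mem_bot ℚ).1 hu
    rw [this, map_zero]
    exact Submodule.zero_mem _
  | succ j ih =>
    intro p u hu
    obtain ⟨v, hv, w, hw, rfl⟩ := mem_succ hu
    rw [map_add, comm_apply]
    refine Submodule.add_mem _ (V_le g j (V_stable p hv)) (Submodule.add_mem _ (N_mem (ih p w hw)) ?_)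
    exact lev_mono g j (ih _ w hw)

lemma claimB (g : ℚ[X]) (j : ℕ) : ∀ (u : ℕ → ℚ), u ∈ Lev g (j + 1) →
    aeval (E ℚ) g u ∈ Lev g j := by
  induction j with
  | zero =>
    intro u hu
    obtain ⟨v, hv, w, hw, rfl⟩ := mem_succ hu
    have : w = 0 := (Submodule.mem_bot ℚ).1 hw
    rw [this, map_zero, add_zero, mem_V.1 hv]
    exact Submodule.zero_mem _
  | succ j ih =>
    intro u hu
    obtain ⟨v, hv, w, hw, rfl⟩ := mem_succ hu
    rw [map_add, comm_apply, mem_V.1 hv, zero_add]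
    exact Submodule.add_mem _ (N_mem (ih w hw)) (claimA g (j + 1) _ w hw)

lemma mul_apply' (p q : ℚ[X]) (u : ℕ → ℚ) :
    aeval (E ℚ) (p * q) u = aeval (E ℚ) p (aeval (E ℚ) q u) := by
  rw [map_mul]
  rfl

lemma bez_apply {g h k : ℚ[X]} (hk : h * th g = 1 + k * g) (u : ℕ → ℚ) :
    aeval (E ℚ) h (aeval (E ℚ) (th g) u) = u + aeval (E ℚ) k (aeval (E ℚ) g u) := by
  rw [← mul_apply', hk, map_add, map_one, map_mul]
  rfl

lemma claimD {g h k : ℚ[X]} (hk : h * th g = 1 + k * g) (j : ℕ) : ∀ (w : ℕ → ℚ),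
    w ∈ Lev g (j + 1) → Nop (aeval (E ℚ) h (aeval (E ℚ) g w)) - (j : ℚ) • w ∈ Lev g j := by
  induction j with
  | zero =>
    intro w hw
    obtain ⟨v, hv, x, hx, rfl⟩ := mem_succ hw
    have : x = 0 := (Submodule.mem_bot ℚ).1 hx
    rw [this, map_zero, add_zero, mem_V.1 hv, map_zero, map_zero]
    simp
  | succ j ih =>
    intro w hw
    obtain ⟨v, hv, x, hx, rfl⟩ := mem_succ hw
    have h1 : aeval (E ℚ) g (v + Nop x) = Nop (aeval (E ℚ) g x) + aeval (E ℚ) (th g) x := by
      rw [map_add, comm_apply, mem_V.1 hv, zero_add]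
    have h2 : aeval (E ℚ) h (aeval (E ℚ) g (v + Nop x)) =
        Nop (aeval (E ℚ) h (aeval (E ℚ) g x)) + aeval (E ℚ) (th h) (aeval (E ℚ) g x) +
        (x + aeval (E ℚ) k (aeval (E ℚ) g x)) := by
      rw [h1, map_add, comm_apply, bez_apply hk]
    have h3 := ih x hx
    set l := Nop (aeval (E ℚ) h (aeval (E ℚ) g x)) - (j : ℚ) • x with hl
    have h4 : Nop (aeval (E ℚ) h (aeval (E ℚ) g x)) = l + (j : ℚ) • x := by
      rw [hl]
      abel
    have h5 : Nop (aeval (E ℚ) h (aeval (E ℚ) g (v + Nop x))) - ((j + 1 : ℕ) : ℚ) • (v + Nop x) =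
        Nop (l + aeval (E ℚ) (th h) (aeval (E ℚ) g x) + aeval (E ℚ) k (aeval (E ℚ) g x)) -
          ((j + 1 : ℕ) : ℚ) • v := by
      rw [h2, h4]
      simp only [map_add, map_smul, smul_add, Nat.cast_add, Nat.cast_one, add_smul, one_smul]
      abel
    rw [h5]
    have h6 := claimB g j x hx
    refine Submodule.sub_mem _ (N_mem ?_) (Submodule.smul_mem _ _ (V_le g j hv))
    exact Submodule.add_mem _ (Submodule.add_mem _ h3 (claimA g j _ _ h6)) (claimA g j _ _ h6)

lemma claimC {g h k : ℚ[X]} (hk : h * th g = 1 + k * g) (j : ℕ) : ∀ (w : ℕ → ℚ),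
    w ∈ Lev g j → ∃ z ∈ Lev g (j + 1), aeval (E ℚ) g z = w := by
  induction j with
  | zero =>
    intro w hw
    have : w = 0 := (Submodule.mem_bot ℚ).1 hw
    exact ⟨0, Submodule.zero_mem _, by rw [this, map_zero]⟩
  | succ j ih =>
    intro w hw
    have hj : ((j : ℚ) + 1) ≠ 0 := by positivity
    have h1 := claimD hk j w hw
    set l := Nop (aeval (E ℚ) h (aeval (E ℚ) g w)) - (j : ℚ) • w with hl
    have h4 : Nop (aeval (E ℚ) h (aeval (E ℚ) g w)) = l + (j : ℚ) • w := by
      rw [hl]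
      abel
    have h2 := claimA g j k _ (claimB g j w hw)
    obtain ⟨z, hz, hz2⟩ := ih (((j : ℚ) + 1)⁻¹ • (l + aeval (E ℚ) k (aeval (E ℚ) g w)))
      (Submodule.smul_mem _ _ (Submodule.add_mem _ h1 h2))
    refine ⟨((j : ℚ) + 1)⁻¹ • Nop (aeval (E ℚ) h w) - z,
      Submodule.sub_mem _ (Submodule.smul_mem _ _ (N_mem (claimA g (j + 1) h w hw)))
        (lev_mono g (j + 1) hz), ?_⟩
    rw [map_sub, hz2, map_smul, comm_apply, aeval_comm_apply g h, aeval_comm_apply (th g) h,
      bez_apply hk, h4, ← smul_sub]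
    have h5 : l + (j : ℚ) • w + (w + aeval (E ℚ) k (aeval (E ℚ) g w)) -
        (l + aeval (E ℚ) k (aeval (E ℚ) g w)) = ((j : ℚ) + 1) • w := by
      rw [add_smul, one_smul]
      abel
    rw [h5, smul_smul, inv_mul_cancel₀ hj, one_smul]

lemma step {g h k : ℚ[X]} (hk : h * th g = 1 + k * g) (j : ℕ) (u : ℕ → ℚ)
    (hu : aeval (E ℚ) g u ∈ Lev g j) : u ∈ Lev g (j + 1) := by
  obtain ⟨z, hz, hz2⟩ := claimC hk j _ hu
  have h1 : u - z ∈ V g := by
    rw [mem_V, map_sub, hz2, sub_self]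
  have h2 : u = (u - z) + z := by abel
  rw [h2]
  exact Submodule.add_mem _ (V_le g j h1) hz

lemma all_lev {g h k : ℚ[X]} (hk : h * th g = 1 + k * g) (m : ℕ) : ∀ u : ℕ → ℚ,
    aeval (E ℚ) (g ^ m) u = 0 → u ∈ Lev g m := by
  induction m with
  | zero =>
    intro u hu
    rw [pow_zero, map_one] at hu
    exact (Submodule.mem_bot ℚ).2 hu
  | succ m ih =>
    intro u hu
    rw [pow_succ, mul_apply'] at hu
    exact step hk m u (ih _ hu)

lemma expand (g : ℚ[X]) (m : ℕ) : ∀ u : ℕ → ℚ, u ∈ Lev g m →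
    ∃ y : ℕ → ℕ → ℚ, (∀ j, y j ∈ V g) ∧
      ∀ n : ℕ, u n = ∑ j ∈ range m, (n.choose j : ℚ) * y j n := by
  induction m with
  | zero =>
    intro u hu
    have : u = 0 := (Submodule.mem_bot ℚ).1 hu
    refine ⟨fun _ => 0, fun _ => Submodule.zero_mem _, fun n => ?_⟩
    rw [this]
    simp
  | succ m ih =>
    intro u hu
    obtain ⟨v, hv, w, hw, rfl⟩ := mem_succ hu
    obtain ⟨y, hy, hy2⟩ := ih w hw
    refine ⟨fun j => (if j = 0 then v else (j : ℚ) • y (j - 1)) +
      (if j < m then (j : ℚ) • y j else 0), fun j => ?_, fun n => ?_⟩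
    · refine Submodule.add_mem _ ?_ ?_
      · split_ifs
        · exact hv
        · exact Submodule.smul_mem _ _ (hy _)
      · split_ifs
        · exact Submodule.smul_mem _ _ (hy _)
        · exact Submodule.zero_mem _
    · change v n + (n : ℚ) * w n = _
      rw [hy2]
      simp only [Pi.add_apply, mul_add, Finset.sum_add_distrib]
      have h1 : ∑ j ∈ range (m + 1), (n.choose j : ℚ) *
          (if j = 0 then v else (j : ℚ) • y (j - 1)) n =
          ∑ j ∈ range m, (n.choose (j + 1) : ℚ) * (((j : ℚ) + 1) * y j n) + v n := by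
        rw [Finset.sum_range_succ']
        simp
      have h2 : ∑ j ∈ range (m + 1), (n.choose j : ℚ) *
          (if j < m then (j : ℚ) • y j else 0) n =
          ∑ j ∈ range m, (n.choose j : ℚ) * ((j : ℚ) * y j n) := by
        rw [Finset.sum_range_succ]
        simp only [lt_irrefl, if_false, Pi.zero_apply, mul_zero, add_zero]
        refine Finset.sum_congr rfl fun j hj => ?_
        rw [if_pos (Finset.mem_range.1 hj)]
        simp
      rw [h1, h2, Finset.mul_sum, add_comm (v n), add_right_comm, add_left_inj,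
        ← Finset.sum_add_distrib]
      refine Finset.sum_congr rfl fun j _ => ?_
      have h3 : (n.choose (j + 1) : ℚ) * ((j : ℚ) + 1) = n.choose j * ((n : ℚ) - j) := by
        rcases le_or_gt j n with h | h
        · have := Nat.choose_succ_right_eq n j
          have h4 : ((n.choose (j + 1) * (j + 1) : ℕ) : ℚ) = ((n.choose j * (n - j) : ℕ) : ℚ) := by
            rw [this]
          push_cast [Nat.cast_sub h] at h4
          exact h4
        · rw [Nat.choose_eq_zero_of_lt h, Nat.choose_eq_zero_of_lt (by omega)]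
          simp
      linear_combination (-(y j n)) * h3

/-- explicit form of the action -/
lemma aeval_E_apply {R : Type*} [CommRing R] (f : R[X]) (u : ℕ → R) (n : ℕ) :
    (aeval (E R) f u) n = ∑ i ∈ range (f.natDegree + 1), f.coeff i * u (n + i) := by
  have hE : ∀ i : ℕ, ∀ (u : ℕ → R) (n : ℕ), ((E R) ^ i) u n = u (n + i) := by
    intro i
    induction i with
    | zero => intro u n; simp
    | succ i ih =>
      intro u n
      rw [pow_succ]
      change ((E R) ^ i) ((E R) u) n = _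
      rw [ih]
      change u (n + i + 1) = _
      rfl
  rw [aeval_eq_sum_range]
  rw [LinearMap.sum_apply, Finset.sum_apply]
  refine Finset.sum_congr rfl fun i _ => ?_
  rw [LinearMap.smul_apply, Pi.smul_apply, smul_eq_mul, hE]

lemma aeval_cast (f : ℤ[X]) (u : ℕ → ℤ) (n : ℕ) :
    (aeval (E ℚ) (f.map (Int.castRingHom ℚ)) (fun n => (u n : ℚ))) n =
      ((aeval (E ℤ) f u) n : ℤ) := by
  rw [aeval_E_apply, aeval_E_apply, natDegree_map_eq_of_injective
    (by exact Int.cast_injective)]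
  push_cast
  refine Finset.sum_congr rfl fun i _ => ?_
  rw [coeff_map]
  simp

/-- sequences in `V g` with integral initial values are integral -/
lemma integral (g : ℤ[X]) (hg : g.Monic) (y : ℕ → ℚ) (hy : y ∈ V (g.map (Int.castRingHom ℚ)))
    (D : ℤ) (hD : ∀ n < g.natDegree, ∃ z : ℤ, (z : ℚ) = D * y n) (n : ℕ) :
    ∃ z : ℤ, (z : ℚ) = D * y n := by
  induction n using Nat.strong_induction_on with
  | _ n ih =>
    rcases lt_or_ge n g.natDegree with h | h
    · exact hD n h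
    · set d := g.natDegree with hd
      have h1 := congrFun (mem_V.1 hy) (n - d)
      rw [aeval_E_apply, natDegree_map_eq_of_injective (by exact Int.cast_injective),
        ← hd, Finset.sum_range_succ, coeff_map] at h1
      have h2 : g.coeff d = 1 := by
        rw [hd]
        exact hg.coeff_natDegree
      rw [h2, Nat.sub_add_cancel h] at h1
      simp only [map_one, one_mul, Pi.zero_apply] at h1
      choose! z hz using ih
      refine ⟨-∑ i ∈ range d, g.coeff i * z (n - d + i), ?_⟩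
      push_cast
      have h3 : y n = -∑ i ∈ range d, (g.map (Int.castRingHom ℚ)).coeff i * y (n - d + i) := by
        linear_combination h1
      rw [h3, mul_neg, Finset.mul_sum]
      congr 1
      refine Finset.sum_congr rfl fun i hi => ?_
      rw [hz (n - d + i) (by have := Finset.mem_range.1 hi; omega), coeff_map]
      simp only [eq_intCast]
      ring

/-- common denominator -/
lemma denom (d m : ℕ) (y : ℕ → ℕ → ℚ) : ∃ D : ℕ, 1 ≤ D ∧ ∀ j < m, ∀ n < d,
    ∃ z : ℤ, (z : ℚ) = (D : ℤ) * y j n := by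
  refine ⟨∏ j ∈ range m, ∏ n ∈ range d, (y j n).den, ?_, ?_⟩
  · exact Finset.prod_pos fun j _ => Finset.prod_pos fun n _ => (y j n).den_pos
  · intro j hj n hn
    have h1 : (y j n).den ∣ ∏ j ∈ range m, ∏ n ∈ range d, (y j n).den :=
      (Finset.dvd_prod_of_mem (fun n => (y j n).den) (Finset.mem_range.2 hn)).trans
        (Finset.dvd_prod_of_mem (fun j => ∏ n ∈ range d, (y j n).den) (Finset.mem_range.2 hj))
    obtain ⟨c, hc⟩ := h1
    refine ⟨(y j n).num * c, ?_⟩
    rw [hc]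
    push_cast
    have h2 : ((y j n).den : ℚ) * y j n = (y j n).num := Rat.den_mul_eq_num _
    linear_combination (-(c : ℚ)) * h2

/-- the radical -/
lemma rad (f : ℤ[X]) (hf : f.Monic) (h0 : f.coeff 0 ≠ 0) :
    ∃ (g : ℤ[X]) (m : ℕ), g.Monic ∧ g.coeff 0 ≠ 0 ∧
      (g.map (Int.castRingHom ℚ)).Separable ∧
      f.map (Int.castRingHom ℚ) ∣ (g.map (Int.castRingHom ℚ)) ^ m := by
  classical
  set F := f.map (Int.castRingHom ℚ) with hF
  have hFm : F.Monic := hf.map _
  have hF0 : F ≠ 0 := hFm.ne_zero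
  set r := UniqueFactorizationMonoid.radical F with hr
  obtain ⟨m, hm⟩ := UniqueFactorizationMonoid.exists_dvd_radical_self_pow (a := F) hF0
  have hrd : r ∣ F := UniqueFactorizationMonoid.radical_dvd_self
  have hr0 : r ≠ 0 := UniqueFactorizationMonoid.radical_ne_zero
  obtain ⟨g, hg⟩ := IsIntegrallyClosed.eq_map_mul_C_of_dvd ℚ hf
    (show r ∣ f.map (algebraMap ℤ ℚ) from hrd)
  have hlc : r.leadingCoeff ≠ 0 := leadingCoeff_ne_zero.2 hr0
  have hgm : g.Monic := by
    have h1 : (g.map (algebraMap ℤ ℚ)).Monic := by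
      have h2 := congrArg leadingCoeff hg
      rw [leadingCoeff_mul, leadingCoeff_C] at h2
      exact mul_right_cancel₀ hlc (by rw [h2, one_mul])
    exact monic_of_injective (f := algebraMap ℤ ℚ) Int.cast_injective h1
  set G := g.map (Int.castRingHom ℚ) with hG
  have hGr : G * C r.leadingCoeff = r := hg
  have hGd : G ∣ r := ⟨_, hGr.symm⟩
  have hu : IsUnit (C r.leadingCoeff : ℚ[X]) := isUnit_C.2 (isUnit_iff_ne_zero.2 hlc)
  refine ⟨g, m, hgm, ?_, ?_, ?_⟩
  · intro h1
    have h2 : (X : ℚ[X]) ∣ G := by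
      rw [X_dvd_iff, hG, coeff_map, h1, map_zero]
    have h3 : (X : ℚ[X]) ∣ F := h2.trans (hGd.trans hrd)
    rw [X_dvd_iff, hF, coeff_map] at h3
    apply h0
    have h4 : ((f.coeff 0 : ℤ) : ℚ) = 0 := by simpa using h3
    exact_mod_cast h4
  · rw [PerfectField.separable_iff_squarefree]
    exact UniqueFactorizationMonoid.squarefree_radical.squarefree_of_dvd hGd
  · have h1 : F ∣ G ^ m * (C r.leadingCoeff) ^ m := by
      rw [← mul_pow, hGr]
      exact hm
    exact ((hu.pow m).dvd_mul_right).1 h1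

/-- clearing denominators -/
lemma clear (a : ℚ[X]) : ∃ (D : ℤ) (A : ℤ[X]), D ≠ 0 ∧
    A.map (Int.castRingHom ℚ) = C (D : ℚ) * a := by
  obtain ⟨b, hb0, hb⟩ := IsLocalization.integerNormalization_spec (nonZeroDivisors ℤ) a
  refine ⟨b, IsLocalization.integerNormalization (nonZeroDivisors ℤ) a,
    nonZeroDivisors.ne_zero hb0, ?_⟩
  have h1 : (Int.castRingHom ℚ) = algebraMap ℤ ℚ := rfl
  rw [h1, hb, ← smul_eq_C_mul]
  ext n
  simp

end U4

open U4

theorem decomp (f : ℤ[X]) (hf : f.Monic) (h0 : f.coeff 0 ≠ 0) (u : ℕ → ℤ) (hu : Ann f u) :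
    ∃ (g s t : ℤ[X]) (rr : ℤ) (m D : ℕ) (v : ℕ → ℕ → ℤ),
      g.Monic ∧ g.coeff 0 ≠ 0 ∧ s * g + t * derivative g = C rr ∧ rr ≠ 0 ∧ 1 ≤ m ∧ 1 ≤ D ∧
      (∀ j < m, Ann g (v j)) ∧
      ∀ n : ℕ, (D : ℤ) * u n = ∑ j ∈ Finset.range m, (n.choose j : ℤ) * v j n := by
  obtain ⟨g, m, hgm, hg0, hsep, hdvd⟩ := rad f hf h0
  set G := g.map (Int.castRingHom ℚ) with hG
  obtain ⟨a, b, hab⟩ := hsep
  obtain ⟨Da, A, hDa, hA⟩ := clear a
  obtain ⟨Db, B, hDb, hB⟩ := clear b
  -- coprimality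
  have hX : IsCoprime (X : ℚ[X]) G := by
    refine (irreducible_X.coprime_iff_not_dvd).2 fun h => ?_
    rw [X_dvd_iff, hG, coeff_map] at h
    apply hg0
    have h4 : ((g.coeff 0 : ℤ) : ℚ) = 0 := by simpa using h
    exact_mod_cast h4
  have hG' : IsCoprime (derivative G) G := ⟨b, a, by rw [add_comm]; exact hab⟩
  obtain ⟨h, k, hhk⟩ := hX.mul_left hG'
  have hk : h * th G = 1 + (-k) * G := by
    have : h * (X * derivative G) + k * G = 1 := hhk
    rw [th]
    linear_combination this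
  -- membership
  set uQ : ℕ → ℚ := fun n => (u n : ℚ) with huQ
  have h1 : aeval (E ℚ) (f.map (Int.castRingHom ℚ)) uQ = 0 := by
    funext n
    rw [aeval_cast]
    have : aeval (E ℤ) f u = 0 := hu
    rw [this]
    simp
  have h2 : aeval (E ℚ) (G ^ (m + 1)) uQ = 0 := by
    obtain ⟨q, hq⟩ := hdvd
    rw [pow_succ, mul_comm, hq, mul_comm (f.map _), ← mul_assoc, mul_apply', h1, map_zero]
  obtain ⟨y, hy, hy2⟩ := expand G (m + 1) uQ (all_lev hk (m + 1) uQ h2)
  obtain ⟨D, hD1, hD⟩ := denom g.natDegree (m + 1) y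
  have h3 : ∀ j < m + 1, ∀ n, ∃ z : ℤ, (z : ℚ) = (D : ℤ) * y j n := fun j hj n =>
    integral g hgm (y j) (hy j) D (hD j hj) n
  choose! v hv using h3
  have hinj : Function.Injective (Int.castRingHom ℚ) := Int.cast_injective
  refine ⟨g, C Db * A, C Da * B, Da * Db, m + 1, D, v, hgm, hg0, ?_, mul_ne_zero hDa hDb,
    by omega, hD1, ?_, ?_⟩
  · apply Polynomial.map_injective (Int.castRingHom ℚ) hinj
    have e : ∀ z : ℤ, (Int.castRingHom ℚ) z = (z : ℚ) := fun z => rfl
    rw [Polynomial.map_add, Polynomial.map_mul, Polynomial.map_mul, Polynomial.map_mul,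
      Polynomial.map_mul, map_C, map_C, map_C, ← derivative_map, hA, hB, e, e, e, Int.cast_mul,
      C_mul, ← hG]
    linear_combination (C (Da : ℚ) * C (Db : ℚ)) * hab
  · intro j hj
    change aeval (E ℤ) g (v j) = 0
    funext n
    have h4 := aeval_cast g (v j) n
    have h5 : (fun n => (v j n : ℚ)) = ((D : ℤ) : ℚ) • y j := by
      funext n
      exact hv j hj n
    rw [h5, map_smul, mem_V.1 (hy j), smul_zero] at h4
    have h6 : ((aeval (E ℤ) g (v j) n : ℤ) : ℚ) = 0 := h4.symm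
    exact_mod_cast h6
  · intro n
    have h4 : (((D : ℤ) * u n : ℤ) : ℚ) =
        ((∑ j ∈ Finset.range (m + 1), (n.choose j : ℤ) * v j n : ℤ) : ℚ) := by
      push_cast
      have h5 : (u n : ℚ) = uQ n := rfl
      rw [h5, hy2, Finset.mul_sum]
      refine Finset.sum_congr rfl fun j hj => ?_
      have h6 := hv j (Finset.mem_range.1 hj) n
      rw [h6]
      push_cast
      ring
    exact_mod_cast h4

end Pool.Agent.H692R2.USS
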