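import Pool.Agent.H692R2.USS.CCsound
import Pool.Agent.H692R2.USS.U2
import Pool.Agent.H692R2.USS.U4

set_option autoImplicit false

namespace Pool.Agent.H692R2.USS

open Polynomial Finset

/-- `decomp` with `deg g ≥ 1`. -/
theorem decomp' (f : ℤ[X]) (hf : f.Monic) (h0 : f.coeff 0 ≠ 0) (u : ℕ → ℤ) (hu : Ann f u) :
    ∃ (g s t : ℤ[X]) (rr : ℤ) (m D : ℕ) (v : ℕ → ℕ → ℤ),
      g.Monic ∧ 1 ≤ g.natDegree ∧ g.coeff 0 ≠ 0 ∧ s * g + t * derivative g = C rr ∧ rr ≠ 0 ∧
      1 ≤ m ∧ 1 ≤ D ∧ (∀ j < m, Ann g (v j)) ∧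
      ∀ n : ℕ, (D : ℤ) * u n = ∑ j ∈ Finset.range m, (n.choose j : ℤ) * v j n := by
  obtain ⟨g, s, t, rr, m, D, v, h1, h2, h3, h4, h5, h6, h7, h8⟩ := decomp f hf h0 u hu
  by_cases hd : 1 ≤ g.natDegree
  · exact ⟨g, s, t, rr, m, D, v, h1, hd, h2, h3, h4, h5, h6, h7, h8⟩
  · have hg1 : g = 1 := h1.natDegree_eq_zero.1 (by omega)
    have hX : (X - 1 : ℤ[X]) = X - C 1 := by simp
    refine ⟨X - 1, 0, 1, 1, m, D, v, ?_, ?_, ?_, ?_, one_ne_zero, h5, h6, ?_, h8⟩
    · rw [hX]; exact monic_X_sub_C 1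
    · rw [hX, natDegree_X_sub_C]
    · simp
    · simp
    · intro j hj
      have h9 := h7 j hj
      rw [hg1] at h9
      have := h9.mul_left (X - 1)
      rwa [mul_one] at this

/-- coefficient list of a polynomial -/
def cl (N : ℕ) (c : ℕ → ℤ) : List (ℕ × ℕ) := (List.range N).map (fun i => zc (c i))

@[simp] theorem cl_length (N : ℕ) (c : ℕ → ℤ) : (cl N c).length = N := by simp [cl]

theorem cl_at0 {N : ℕ} {c : ℕ → ℤ} {i : ℕ} (h : i < N) : at0 (cl N c) i = zc (c i) := by
  unfold cl at0
  rw [List.getD_eq_getElem?_getD, List.getElem?_map, List.getElem?_range h]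
  rfl

theorem PP_cl (p : ℤ[X]) {N : ℕ} (h : p.natDegree < N) : PP (cl N p.coeff) = p := by
  ext i
  rw [PP_coeff]
  by_cases hi : i < N
  · rw [cl_at0 hi, iv_zc]
  · rw [at0_of_le (by simp; omega), coeff_eq_zero_of_natDegree_lt (by omega)]
    rfl

theorem PG_cl {g : ℤ[X]} (hg : g.Monic) : PG (cl g.natDegree g.coeff) = g := by
  ext i
  rw [PG_coeff, cl_length]
  split_ifs with h1 h2
  · have : (cl g.natDegree g.coeff).getD i (0, 0) = zc (g.coeff i) := cl_at0 h1
    rw [this, iv_zc]
  · subst h2; exact hg.coeff_natDegree.symm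
  · rw [coeff_eq_zero_of_natDegree_lt (by omega)]

theorem zc_add (x : ℤ) : (((zc x).1 + (zc x).2 : ℕ) : ℤ) = |x| := by
  unfold zc; simp only; rcases le_total 0 x with h | h
  · rw [abs_of_nonneg h]; push_cast; omega
  · rw [abs_of_nonpos h]; push_cast; omega

theorem natAbs_lt_two_pow (x : ℤ) {k : ℕ} (h : x.natAbs ≤ k) : |x| < 2 ^ k := by
  have : x.natAbs < 2 ^ k := h.trans_lt Nat.lt_two_pow_self
  rw [← Int.natCast_natAbs]
  exact_mod_cast this

theorem CC_exists (F a : List (ℕ × ℕ)) (h1 : 1 ≤ a.length) (hl : a.length = F.length)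
    (h0 : iv (at0 F 0) ≠ 0) : ∃ k c, CC F a k c := by
  have hu := run_ann h1 hl
  have hF0 : (PG F).coeff 0 ≠ 0 := by rw [PG_coeff, if_pos (by omega)]; exact h0
  obtain ⟨g, s, t, rr, m, D, v, hgm, hgd, hg0, hst, hrr, hm, hD, hann, hdec⟩ :=
    decomp' (PG F) (PG_monic F) hF0 _ hu
  obtain ⟨p0, hp0, hp⟩ := Nat.exists_infinite_primes ((g.coeff 0).natAbs + 3)
  have hpg : ¬ (p0 : ℤ) ∣ g.coeff 0 := by
    intro hd
    have := Int.le_of_dvd (by positivity) ((dvd_abs _ _).2 hd)
    have h2 : |g.coeff 0| = ((g.coeff 0).natAbs : ℤ) := (Int.natCast_natAbs _).symm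
    rw [h2] at this
    have h3 : p0 ≤ (g.coeff 0).natAbs := by exact_mod_cast this
    omega
  obtain ⟨T, q, w, hT1, hTeq⟩ := exists_T hgm hp hpg
  set e := g.natDegree with he
  set M : ℕ := ∑ r ∈ range T, ∑ j ∈ range m, ∑ l ∈ range e, (v j (r + T * l)).natAbs with hM
  set A : ℕ := ∑ i ∈ range (e + 1), (g.coeff i).natAbs with hA
  set B : ℕ := ∑ j ∈ range m, ∑ i ∈ range e, (v j i).natAbs with hB
  set k : ℕ := e + A + rr.natAbs + m + T + 2 * M + 2 + m * m.factorial * B with hk
  set G := cl e g.coeff with hG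
  set V : List (List (ℕ × ℕ)) := (List.range m).map (fun j => cl e (v j)) with hV
  have hGl : G.length = e := cl_length _ _
  have hPG : PG G = g := PG_cl hgm
  have hVj : ∀ j < m, V.getD j [] = cl e (v j) := by
    intro j hj
    rw [hV, List.getD_eq_getElem?_getD, List.getElem?_map, List.getElem?_range hj]
    rfl
  have hrun : ∀ j < m, ∀ n, iv (run G (V.getD j []) n) = v j n := by
    intro j hj n
    rw [hVj j hj]
    refine run_eq (by rw [cl_length]; exact hgd) (by rw [cl_length, hGl]) (by rw [hPG]; exact hann j hj)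
      (fun i hi => ?_) n
    rw [cl_length] at hi
    have : (cl e (v j)).getD i (0, 0) = zc (v j i) := cl_at0 hi
    rw [this, iv_zc]
  have hAi : ∀ i, |g.coeff i| ≤ A := by
    intro i
    by_cases hi : i < e + 1
    · rw [← Int.natCast_natAbs]
      have : (g.coeff i).natAbs ≤ A :=
        Finset.single_le_sum (f := fun i => (g.coeff i).natAbs) (fun _ _ => Nat.zero_le _)
          (Finset.mem_range.2 hi)
      exact_mod_cast this
    · rw [coeff_eq_zero_of_natDegree_lt (by omega), abs_zero]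
      positivity
  refine ⟨k, ((G, cl (s.natDegree + 1) s.coeff, cl (t.natDegree + 1) t.coeff,
    cl (q.natDegree + 1) q.coeff, cl (w.natDegree + 1) w.coeff), (zc rr, m, D, p0, T), V), ?_⟩
  refine ⟨⟨⟨by simp only [hGl]; exact hgd, by simp only [hGl]; omega⟩, ?_, ?_⟩, ?_,
    ⟨⟨?_, ?_⟩, ⟨hm, by simp only; omega⟩, hD, ?_⟩, ?_, ⟨?_, ?_⟩, ⟨⟨by simp only; omega, ?_⟩,
    ⟨hT1, by simp only; omega⟩, ?_⟩, ?_⟩
  · intro i hi
    simp only [hGl] at hi
    simp only
    rw [zlt_iff, cl_at0 hi, iv_zc]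
    have := hAi i
    push_cast
    omega
  · simp only
    rw [zeq_iff, cl_at0 (by omega), iv_zc, iv_zero]
    exact hg0
  · -- K2
    intro n _
    simp only
    rw [zeq_iff]
    have e1 : (PP (cl (s.natDegree + 1) s.coeff) * PG G +
        PP (cl (t.natDegree + 1) t.coeff) * derivative (PG G)).coeff n =
      iv (za (conv (at0 (cl (s.natDegree + 1) s.coeff)) (gx G) n)
        (conv (at0 (cl (t.natDegree + 1) t.coeff)) (fun i => zm (i + 1, 0) (gx G (i + 1))) n)) := by
      rw [coeff_add, coeff_mul_range, coeff_mul_range, iv_za, iv_conv, iv_conv]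
      congr 1
      · refine Finset.sum_congr rfl fun i _ => ?_
        rw [PP_coeff, gx_coeff]
      · refine Finset.sum_congr rfl fun i _ => ?_
        rw [PP_coeff, coeff_derivative, gx_coeff, iv_zm, iv_nat]
        push_cast; ring
    rw [← e1, PP_cl s (Nat.lt_succ_self _), PP_cl t (Nat.lt_succ_self _), hPG, hst, coeff_C,
      iv_zm, iv_nat, iv_zc]
    rcases n with _ | n <;> simp
  · simp only
    rw [zeq_iff, iv_zc, iv_zero]; exact hrr
  · simp only
    rw [zlt_iff, iv_zc]
    have : |rr| = (rr.natAbs : ℤ) := (Int.natCast_natAbs _).symm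
    rw [this]; push_cast; omega
  · intro j hj
    simp only
    rw [hVj j hj, cl_length, hGl]
  · -- K4
    intro n _
    simp only
    rw [zeq_iff, iv_zm, iv_nat, iv_zsum]
    rw [hdec n]
    refine Finset.sum_congr rfl fun j hj => ?_
    rw [iv_zm, iv_nat, hrun j (Finset.mem_range.1 hj)]
  · -- K5 a
    intro j hj i hi
    simp only [hGl] at hi hj ⊢
    rw [hVj j hj, zlt_iff, cl_at0 hi, iv_zm, iv_nat, iv_zc]
    have h2 : ((m * m.factorial : ℕ) : ℤ) * v j i = (((m * m.factorial : ℕ) : ℤ) * v j i) := rfl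
    refine lt_of_lt_of_eq (natAbs_lt_two_pow _ (k := k) ?_) (by push_cast; rfl)
    rw [Int.natAbs_mul, Int.natAbs_natCast]
    have h3 : (v j i).natAbs ≤ B := by
      calc (v j i).natAbs ≤ ∑ i ∈ range e, (v j i).natAbs :=
            Finset.single_le_sum (f := fun i => (v j i).natAbs) (fun _ _ => Nat.zero_le _)
              (Finset.mem_range.2 hi)
        _ ≤ B := Finset.single_le_sum (f := fun j => ∑ i ∈ range e, (v j i).natAbs)
              (fun _ _ => Nat.zero_le _) (Finset.mem_range.2 hj)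
    have h4 : m * m.factorial * (v j i).natAbs ≤ m * m.factorial * B := Nat.mul_le_mul_left _ h3
    omega
  · -- K5 b
    simp only [hGl]
    have h3 : ((zsum (fun i => ((at0 G i).1 + (at0 G i).2, 0)) e).1 : ℕ) =
        ∑ i ∈ range e, (g.coeff i).natAbs := by
      have h4 : ∀ N, N ≤ e → ((zsum (fun i => ((at0 G i).1 + (at0 G i).2, 0)) N).1 : ℕ) =
          ∑ i ∈ range N, (g.coeff i).natAbs := by
        intro N
        induction N with
        | zero => intro _; rfl
        | succ N ih =>
          intro hN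
          rw [Finset.sum_range_succ, ← ih (by omega)]
          have h5 : (at0 G N).1 + (at0 G N).2 = (g.coeff N).natAbs := by
            rw [hG, cl_at0 (by omega)]
            have := zc_add (g.coeff N)
            rw [← Int.natCast_natAbs] at this
            exact_mod_cast this
          rw [← h5]
          rfl
      exact h4 e le_rfl
    rw [h3]
    have h5 : ∑ i ∈ range e, (g.coeff i).natAbs ≤ A := by
      rw [hA, Finset.sum_range_succ]; omega
    have h6 : k < 2 ^ k := Nat.lt_two_pow_self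
    omega
  · -- prime
    intro i hi
    simp only at hi ⊢
    by_cases h2 : i < 2
    · exact Or.inl h2
    · right
      intro h3
      have h4 : i ∣ p0 := Nat.dvd_of_mod_eq_zero h3
      rcases (Nat.dvd_prime hp).1 h4 with h5 | h5 <;> omega
  · -- K6 poly
    intro n _
    simp only
    rw [zeq_iff]
    have e1 : (PG G * PP (cl (q.natDegree + 1) q.coeff) +
        C (p0 : ℤ) * PP (cl (w.natDegree + 1) w.coeff)).coeff n =
        iv (za (conv (gx G) (at0 (cl (q.natDegree + 1) q.coeff)) n)
          (zm (p0, 0) (at0 (cl (w.natDegree + 1) w.coeff) n))) := by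
      rw [coeff_add, coeff_mul_range, coeff_C_mul, iv_za, iv_conv, iv_zm, iv_nat, PP_coeff]
      congr 1
      refine Finset.sum_congr rfl fun i _ => ?_
      rw [PP_coeff, gx_coeff]
    rw [← e1, PP_cl q (Nat.lt_succ_self _), PP_cl w (Nat.lt_succ_self _), hPG, ← hTeq]
    rw [coeff_sub, coeff_X_pow, coeff_one]
    simp only [iv]
    rcases lt_trichotomy n T with h1 | h1 | h1
    · rw [if_neg h1.ne, show T - n = (T - n - 1) + 1 by omega]
      by_cases h0 : n = 0
      · subst h0; simp
      · rw [if_neg h0]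
        have : 1 - n = 0 := by omega
        rw [this]; simp
    · subst h1
      rw [if_pos rfl, if_neg (by omega)]
      have : 1 - n = 0 := by omega
      rw [this]; simp
    · rw [if_neg h1.ne', if_neg (by omega)]
      have : 1 - n = 0 := by omega
      have h2 : 1 - (n - T) = 0 := by omega
      rw [this, h2]; simp
  · -- K7
    intro r hr
    simp only [hGl] at hr ⊢
    by_cases hall : ∀ j < m, ∀ l < e, v j (r + T * l) = 0
    · left
      intro j hj l hl
      rw [zeq_iff, hrun j hj, iv_zero]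
      exact hall j hj l hl
    · right
      push Not at hall
      obtain ⟨j, hj, l, hl', hne⟩ := hall
      refine ⟨j, l, hj, ?_, ?_⟩
      · rw [zeq_iff, hrun j hj, iv_zero]; exact hne
      · rw [zlt_iff, hrun j hj]
        have h3 : (v j (r + T * l)).natAbs ≤ M := by
          calc (v j (r + T * l)).natAbs ≤ ∑ l ∈ range e, (v j (r + T * l)).natAbs :=
                Finset.single_le_sum (f := fun l => (v j (r + T * l)).natAbs)
                  (fun _ _ => Nat.zero_le _) (Finset.mem_range.2 hl')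
            _ ≤ ∑ j ∈ range m, ∑ l ∈ range e, (v j (r + T * l)).natAbs :=
                Finset.single_le_sum (f := fun j => ∑ l ∈ range e, (v j (r + T * l)).natAbs)
                  (fun _ _ => Nat.zero_le _) (Finset.mem_range.2 hj)
            _ ≤ M := Finset.single_le_sum
                  (f := fun r => ∑ j ∈ range m, ∑ l ∈ range e, (v j (r + T * l)).natAbs)
                  (fun _ _ => Nat.zero_le _) (Finset.mem_range.2 hr)
        have h4 : M < 3 ^ (k / 2) := by
          have h5 : M ≤ k / 2 := by omega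
          exact h5.trans_lt (Nat.lt_pow_self (by norm_num))
        rw [← Int.natCast_natAbs]
        exact_mod_cast h3.trans_lt h4

end Pool.Agent.H692R2.USS
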