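import Pool.Agent.H692R2.USS.Basic

set_option autoImplicit false

namespace Pool.Agent.H692R2.USS

open Polynomial Finset

section choose
variable {R : Type*} [CommRing R]

/-- the sequence `C(n,j) v n` -/
def cj (j : ℕ) (v : ℕ → R) : ℕ → R := fun n => (n.choose j : R) * v n

theorem E_cj_zero (v : ℕ → R) : E R (cj 0 v) = cj 0 (E R v) := by
  funext n; simp [cj]

theorem E_cj_succ (j : ℕ) (v : ℕ → R) :
    E R (cj (j + 1) v) = cj (j + 1) (E R v) + cj j (E R v) := by
  funext n
  simp only [E_apply, cj, Pi.add_apply, Nat.choose_succ_succ]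
  push_cast
  ring

/-- span of the lower terms -/
def Lw (v : ℕ → R) (j : ℕ) : Submodule R (ℕ → R) :=
  Submodule.span R {x | ∃ l < j, ∃ h : R[X], x = cj l (aeval (E R) h v)}

theorem Lw_mono (v : ℕ → R) {i j : ℕ} (h : i ≤ j) : Lw v i ≤ Lw v j := by
  refine Submodule.span_mono ?_
  rintro x ⟨l, hl, y⟩
  exact ⟨l, by omega, y⟩

theorem E_mem_Lw (v : ℕ → R) (j : ℕ) {x : ℕ → R} (hx : x ∈ Lw v j) : E R x ∈ Lw v j := by
  unfold Lw at hx
  induction hx using Submodule.span_induction with
  | mem x hx =>
    obtain ⟨l, hl, h, rfl⟩ := hx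
    have e : E R (aeval (E R) h v) = aeval (E R) (X * h) v := by
      rw [map_mul, aeval_X, Module.End.mul_apply]
    rcases l with _ | l
    · rw [E_cj_zero, e]
      exact Submodule.subset_span ⟨0, hl, _, rfl⟩
    · rw [E_cj_succ, e]
      exact add_mem (Submodule.subset_span ⟨_, hl, _, rfl⟩)
        (Submodule.subset_span ⟨_, by omega, _, rfl⟩)
  | zero => rw [map_zero]; exact zero_mem _
  | add x y _ _ hx hy => rw [map_add]; exact add_mem hx hy
  | smul a x _ hx => rw [map_smul]; exact Submodule.smul_mem _ _ hx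

theorem aeval_cj (g : R[X]) (j : ℕ) (v : ℕ → R) :
    aeval (E R) g (cj j v) - cj j (aeval (E R) g v) ∈ Lw v j := by
  have hadd : ∀ a b : ℕ → R, cj j (a + b) = cj j a + cj j b := by
    intro a b; funext n; simp [cj, mul_add]
  have hsmul : ∀ (c : R) (a : ℕ → R), cj j (c • a) = c • cj j a := by
    intro c a; funext n; simp [cj]; ring
  induction g using Polynomial.induction_on' with
  | add p q hp hq =>
    rw [map_add, LinearMap.add_apply, LinearMap.add_apply, hadd]
    convert add_mem hp hq using 1
    abel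
  | monomial n a =>
    have key : ∀ n : ℕ, ((E R) ^ n) (cj j v) - cj j (((E R) ^ n) v) ∈ Lw v j := by
      intro n
      induction n with
      | zero => simp
      | succ n ih =>
        rw [pow_succ', Module.End.mul_apply, Module.End.mul_apply]
        have h1 := E_mem_Lw v j ih
        rw [map_sub] at h1
        have h2 : E R (cj j (((E R) ^ n) v)) - cj j (E R (((E R) ^ n) v)) ∈ Lw v j := by
          rcases j with _ | j
          · rw [E_cj_zero, sub_self]; exact zero_mem _
          · rw [E_cj_succ, add_sub_cancel_left]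
            refine Submodule.subset_span ⟨j, by omega, X ^ (n + 1), ?_⟩
            rw [map_pow, aeval_X, pow_succ', Module.End.mul_apply]
        have h3 := add_mem h1 h2
        rwa [sub_add_sub_cancel] at h3
    rw [← C_mul_X_pow_eq_monomial, map_mul, map_pow, aeval_X, aeval_C]
    simp only [Module.algebraMap_end_eq_smul_id, Module.End.mul_apply, LinearMap.smul_apply,
      LinearMap.id_apply]
    rw [hsmul, ← smul_sub]
    exact Submodule.smul_mem _ _ (key n)

theorem choose_ann {g : R[X]} (j : ℕ) : ∀ {v : ℕ → R}, Ann g v → Ann (g ^ (j + 1)) (cj j v) := by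
  induction j using Nat.strong_induction_on with
  | _ j ih =>
    intro v hv
    have h1 := aeval_cj g j v
    have h0 : cj j (aeval (E R) g v) = 0 := by
      rw [show aeval (E R) g v = 0 from hv]
      funext n; simp [cj]
    rw [h0, sub_zero] at h1
    have h2 : ∀ x ∈ Lw v j, aeval (E R) (g ^ j) x = 0 := by
      intro x hx
      unfold Lw at hx
      induction hx using Submodule.span_induction with
      | mem x hx =>
        obtain ⟨l, hl, h, rfl⟩ := hx
        exact (ih l hl (hv.aeval h)).of_dvd (pow_dvd_pow g (by omega))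
      | zero => rw [map_zero]
      | add x y _ _ hx hy => rw [map_add, hx, hy, add_zero]
      | smul a x _ hx => rw [map_smul, hx, smul_zero]
    unfold Ann
    rw [pow_succ, map_mul, Module.End.mul_apply]
    exact h2 _ h1

end choose

/-- a class `r + T l` on which the first `deg g` terms vanish, vanishes. -/
theorem class_vanish {g : ℤ[X]} (hg : g.Monic) {v : ℕ → ℤ} (hv : Ann g v) (r T : ℕ)
    (h0 : ∀ l < g.natDegree, v (r + T * l) = 0) (l : ℕ) : v (r + T * l) = 0 := by
  set g' : ℚ[X] := g.map (Int.castRingHom ℚ) with hg'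
  have hg'm : g'.Monic := hg.map _
  have hg'0 : g' ≠ 0 := hg'm.ne_zero
  have hnd : g'.natDegree = g.natDegree := hg.natDegree_map _
  by_cases hdeg : g.natDegree = 0
  · have h1 : g = 1 := hg.natDegree_eq_zero.1 hdeg
    have h2 : v = 0 := by
      have h3 : Ann g v := hv
      unfold Ann at h3
      rw [h1, map_one] at h3
      exact h3
    rw [h2]; rfl
  have hv' : Ann g' (fun n => ((v n : ℤ) : ℚ)) := hv.map (Int.castRingHom ℚ)
  haveI : Module.Finite ℚ (AdjoinRoot g') := hg'm.finite_adjoinRoot
  set Y : AdjoinRoot g' := (AdjoinRoot.root g') ^ T with hY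
  have hint : IsIntegral ℚ Y := IsIntegral.of_finite ℚ Y
  set h : ℚ[X] := minpoly ℚ Y with hh
  have hhm : h.Monic := minpoly.monic hint
  haveI : Nontrivial (AdjoinRoot g') := by
    refine AdjoinRoot.nontrivial g' ?_
    rw [degree_eq_natDegree hg'0, hnd]
    exact_mod_cast hdeg
  have hhd : h.natDegree ≤ g.natDegree := by
    have h1 := minpoly.natDegree_le (A := ℚ) Y
    have h2 : Module.finrank ℚ (AdjoinRoot g') = g'.natDegree :=
      finrank_quotient_span_eq_natDegree
    rw [h2, hnd] at h1
    exact h1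
  have hdvd : g' ∣ expand ℚ T h := by
    rw [← AdjoinRoot.mk_eq_zero]
    have h1 : aeval Y h = 0 := minpoly.aeval ℚ Y
    rw [← AdjoinRoot.aeval_eq, expand_aeval]
    exact h1
  have hF : Ann (expand ℚ T h) (fun n => ((v n : ℤ) : ℚ)) := hv'.of_dvd hdvd
  have hF2 : Ann h (fun l => ((v (r + T * l) : ℤ) : ℚ)) := by
    unfold Ann at hF ⊢
    funext l
    have h1 := congrFun hF (r + T * l)
    rw [show (0 : ℕ → ℚ) (r + T * l) = 0 from rfl] at h1
    show _ = (0 : ℚ)
    rw [aeval_E_apply h _ l (Nat.lt_succ_self _)]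
    rw [← h1, expand_aeval, aeval_eq_sum_range, LinearMap.sum_apply, Finset.sum_apply]
    refine Finset.sum_congr rfl fun i _ => ?_
    simp only [LinearMap.smul_apply, Pi.smul_apply, smul_eq_mul]
    rw [← pow_mul, E_pow_apply]
    congr 3
    ring
  have h3 := hF2.eq_zero hhm (fun n hn => by
    rw [h0 n (by omega)]; simp) l
  exact_mod_cast h3

end Pool.Agent.H692R2.USS
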