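import Pool.Agent.H692R2.USS.CC
import Pool.Agent.H692R2.USS.Sem

set_option autoImplicit false

namespace Pool.Agent.H692R2.USS

open Polynomial Finset

/-- the polynomial with coefficient list `L` -/
noncomputable def PP (L : List (ℕ × ℕ)) : ℤ[X] :=
  ∑ i ∈ range L.length, C (iv (at0 L i)) * X ^ i

theorem at0_of_le {L : List (ℕ × ℕ)} {i : ℕ} (h : L.length ≤ i) : at0 L i = (0, 0) := by
  unfold at0
  rw [List.getD_eq_getElem?_getD, List.getElem?_eq_none h]
  rfl

theorem PP_coeff (L : List (ℕ × ℕ)) (i : ℕ) : (PP L).coeff i = iv (at0 L i) := by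
  unfold PP
  rw [finsetSum_coeff]
  simp only [coeff_C_mul, coeff_X_pow]
  by_cases h : i < L.length
  · rw [Finset.sum_eq_single i]
    · simp
    · intro j _ hj; rw [if_neg (by omega), mul_zero]
    · intro hi; exact absurd (Finset.mem_range.2 h) hi
  · rw [at0_of_le (by omega), Finset.sum_eq_zero]
    · rfl
    · intro j hj
      rw [Finset.mem_range] at hj
      rw [if_neg (by omega), mul_zero]

theorem PP_natDegree (L : List (ℕ × ℕ)) : (PP L).natDegree ≤ L.length := by
  rw [natDegree_le_iff_coeff_eq_zero]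
  intro i hi
  rw [PP_coeff, at0_of_le hi.le]; rfl

theorem gx_coeff (G : List (ℕ × ℕ)) (i : ℕ) : (PG G).coeff i = iv (gx G i) := by
  rw [PG_coeff]
  unfold gx at0
  rw [List.getD_eq_getElem?_getD (l := G ++ _)]
  split_ifs with h1 h2
  · rw [List.getElem?_append_left h1, ← List.getD_eq_getElem?_getD]
  · subst h2
    rw [List.getElem?_append_right le_rfl]
    simp [iv]
  · rw [List.getElem?_append_right (by omega)]
    rw [List.getElem?_eq_none (by simp; omega)]
    rfl

theorem iv_conv (x y : ℕ → ℕ × ℕ) (n : ℕ) :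
    iv (conv x y n) = ∑ i ∈ range (n + 1), iv (x i) * iv (y (n - i)) := by
  unfold conv; simp

theorem coeff_mul_range (p q : ℤ[X]) (n : ℕ) :
    (p * q).coeff n = ∑ i ∈ range (n + 1), p.coeff i * q.coeff (n - i) := by
  rw [coeff_mul, Finset.Nat.sum_antidiagonal_eq_sum_range_succ_mk]

theorem bezout_of_K2 {G s t : List (ℕ × ℕ)} {rr : ℕ × ℕ} (h : K2 G s t rr) :
    PP s * PG G + PP t * derivative (PG G) = C (iv rr) := by
  ext n
  have e1 : (PP s * PG G + PP t * derivative (PG G)).coeff n =
      iv (za (conv (at0 s) (gx G) n) (conv (at0 t) (fun i => zm (i + 1, 0) (gx G (i + 1))) n)) := by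
    rw [coeff_add, coeff_mul_range, coeff_mul_range, iv_za, iv_conv, iv_conv]
    congr 1
    · refine Finset.sum_congr rfl fun i _ => ?_
      rw [PP_coeff, gx_coeff]
    · refine Finset.sum_congr rfl fun i _ => ?_
      rw [PP_coeff, coeff_derivative, gx_coeff, iv_zm, iv_nat]
      push_cast; ring
  by_cases hn : n < s.length + t.length + G.length + 2
  · have := zeq_iff.1 (h n hn)
    rw [e1, this, coeff_C, iv_zm, iv_nat]
    rcases n with _ | n
    · simp
    · simp
  · have hd : (PP s * PG G + PP t * derivative (PG G)).natDegree < n := by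
      refine (natDegree_add_le _ _).trans_lt (max_lt ?_ ?_)
      · refine natDegree_mul_le.trans_lt ?_
        have := PP_natDegree s
        rw [PG_natDegree]
        omega
      · refine natDegree_mul_le.trans_lt ?_
        have := PP_natDegree t
        have h2 := natDegree_derivative_le (PG G)
        rw [PG_natDegree] at h2
        omega
    rw [coeff_eq_zero_of_natDegree_lt hd, coeff_C, if_neg (by omega)]

theorem K6_poly {k p0 T : ℕ} {G q w : List (ℕ × ℕ)} (h : K6 k p0 T G q w) :
    (X ^ T - 1 : ℤ[X]) = PG G * PP q + C (p0 : ℤ) * PP w := by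
  obtain ⟨-, ⟨hT, -⟩, h⟩ := h
  ext n
  have e1 : (PG G * PP q + C (p0 : ℤ) * PP w).coeff n =
      iv (za (conv (gx G) (at0 q) n) (zm (p0, 0) (at0 w n))) := by
    rw [coeff_add, coeff_mul_range, coeff_C_mul, iv_za, iv_conv, iv_zm, iv_nat, PP_coeff]
    congr 1
    refine Finset.sum_congr rfl fun i _ => ?_
    rw [PP_coeff, gx_coeff]
  have e2 : (X ^ T - 1 : ℤ[X]).coeff n = (if n = T then 1 else 0) - (if n = 0 then 1 else 0) := by
    rw [coeff_sub, coeff_X_pow, coeff_one]
  rw [e2]
  by_cases hn : n < T + G.length + q.length + w.length + 2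
  · rw [e1, zeq_iff.1 (h n hn)]
    simp only [iv]
    rcases lt_trichotomy n T with h1 | h1 | h1
    · rw [if_neg h1.ne, show T - n = (T - n - 1) + 1 by omega]
      by_cases h0 : n = 0
      · subst h0; simp
      · rw [if_neg h0]
        have : 1 - n = 0 := by omega
        rw [this]; simp
    · subst h1
      rw [if_pos rfl, if_neg (by omega)]
      have : 1 - n = 0 := by omega
      rw [this]; simp
    · rw [if_neg h1.ne', if_neg (by omega)]
      have : 1 - n = 0 := by omega
      have h2 : 1 - (n - T) = 0 := by omega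
      rw [this, h2]; simp
  · have hd : (PG G * PP q + C (p0 : ℤ) * PP w).natDegree < n := by
      refine (natDegree_add_le _ _).trans_lt (max_lt ?_ ?_)
      · refine natDegree_mul_le.trans_lt ?_
        have := PP_natDegree q
        rw [PG_natDegree]
        omega
      · refine (natDegree_C_mul_le _ _).trans_lt ?_
        have := PP_natDegree w
        omega
    rw [coeff_eq_zero_of_natDegree_lt hd, if_neg (by omega), if_neg (by omega), sub_zero]

theorem growth {G : List (ℕ × ℕ)} {v : ℕ → ℤ} (hv : Ann (PG G) v) {A M c : ℤ} (hc : 0 ≤ c)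
    (h0 : ∀ i < G.length, c * |v i| ≤ M) (hM : 0 ≤ M)
    (hA : 1 + ∑ i ∈ range G.length, |iv (at0 G i)| ≤ A) (b : ℕ) : c * |v b| ≤ M * A ^ b := by
  have hsum : 0 ≤ ∑ i ∈ range G.length, |iv (at0 G i)| := Finset.sum_nonneg fun _ _ => abs_nonneg _
  have hA1 : 1 ≤ A := by linarith
  induction b using Nat.strong_induction_on with
  | _ b ih =>
    by_cases hb : b < G.length
    · refine (h0 b hb).trans ?_
      exact le_mul_of_one_le_right hM (one_le_pow₀ hA1)
    · push Not at hb
      have h1 := (ann_PG.1 hv) (b - G.length)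
      rw [Nat.sub_add_cancel hb] at h1
      by_cases hG : G.length = 0
      · rw [h1, hG]
        simp
        positivity
      rw [h1, abs_neg]
      have h2 : |∑ i ∈ range G.length, iv (G.getD i (0, 0)) * v (b - G.length + i)| ≤
          ∑ i ∈ range G.length, |iv (at0 G i)| * |v (b - G.length + i)| := by
        refine (Finset.abs_sum_le_sum_abs _ _).trans (le_of_eq ?_)
        refine Finset.sum_congr rfl fun i _ => ?_
        rw [abs_mul]
      calc c * |∑ i ∈ range G.length, iv (G.getD i (0, 0)) * v (b - G.length + i)|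
          ≤ c * ∑ i ∈ range G.length, |iv (at0 G i)| * |v (b - G.length + i)| := by gcongr
        _ = ∑ i ∈ range G.length, |iv (at0 G i)| * (c * |v (b - G.length + i)|) := by
            rw [Finset.mul_sum]
            refine Finset.sum_congr rfl fun i _ => by ring
        _ ≤ ∑ i ∈ range G.length, |iv (at0 G i)| * (M * A ^ (b - 1)) := by
            refine Finset.sum_le_sum fun i hi => ?_
            rw [Finset.mem_range] at hi
            refine mul_le_mul_of_nonneg_left ?_ (abs_nonneg _)
            refine (ih _ (by omega)).trans ?_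
            refine mul_le_mul_of_nonneg_left ?_ hM
            exact pow_le_pow_right₀ hA1 (by omega)
        _ = (∑ i ∈ range G.length, |iv (at0 G i)|) * (M * A ^ (b - 1)) := by
            rw [Finset.sum_mul]
        _ ≤ A * (M * A ^ (b - 1)) := by
            refine mul_le_mul_of_nonneg_right (by linarith) (by positivity)
        _ = M * A ^ b := by
            obtain ⟨b', rfl⟩ : ∃ b', b = b' + 1 := ⟨b - 1, by omega⟩
            rw [Nat.add_sub_cancel, pow_succ]; ring

theorem abs_iv_le (z : ℕ × ℕ) : |iv z| ≤ (z.1 : ℤ) + z.2 := by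
  unfold iv; rw [abs_le]; constructor <;> omega

theorem cert_of_CC {F a : List (ℕ × ℕ)} {k : ℕ} {c : CT} (h1 : 1 ≤ a.length)
    (hl : a.length = F.length) (h : CC F a k c) : Cert (fun n => iv (run F a n)) k := by
  obtain ⟨⟨G, s, t, q, w⟩, ⟨rr, m, D, p0, T⟩, V⟩ := c
  obtain ⟨hK1, hK2, hK3, hK4, hK5, hK6, hK7⟩ := h
  simp only at hK1 hK2 hK3 hK4 hK5 hK6 hK7
  obtain ⟨⟨hG1, hGk⟩, hGi, hG0⟩ := hK1
  obtain ⟨⟨hr0, hrk⟩, ⟨hm1, hmk⟩, hD, hVl⟩ := hK3
  set v : ℕ → ℕ → ℤ := fun j n => iv (run G (V.getD j []) n) with hv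
  have hvann : ∀ j < m, Ann (PG G) (v j) := fun j hj =>
    run_ann (by rw [hVl j hj]; exact hG1) (hVl j hj)
  have hcoef : ∀ i, |(PG G).coeff i| ≤ k := by
    intro i
    rw [PG_coeff]
    split_ifs with h2 h3
    · have := zlt_iff.1 (hGi i h2)
      push_cast at this
      change |iv (at0 G i)| ≤ _
      omega
    · rw [abs_one]; omega
    · rw [abs_zero]; omega
  refine ⟨PG G, PP s, PP t, PP q, PP w, iv rr, m, D, p0, T, v, PG_monic G,
    by rw [PG_natDegree]; exact hGk, hcoef, ?_, bezout_of_K2 hK2, ?_, ?_, hm1, hmk, hD, hvann,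
    ?_, ?_, ?_, hK6.1.1, hK6.2.1.1, hK6.2.1.2, K6_poly hK6, ?_⟩
  · rw [PG_coeff, if_pos (by omega)]
    intro h0
    exact hG0 (zeq_iff.2 (by rw [iv_zero]; exact h0))
  · intro h0; exact hr0 (zeq_iff.2 (by rw [iv_zero]; exact h0))
  · have := zlt_iff.1 hrk
    push_cast at this
    omega
  · -- identity for all n
    have hA1 : Ann (PG F * PG G ^ m) (fun n => (D : ℤ) * iv (run F a n)) :=
      ((run_ann h1 hl).smul (D : ℤ)).mul_right _
    have hA2 : Ann (PG F * PG G ^ m) (∑ j ∈ range m, cj j (v j)) := by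
      refine Ann.mul_left (Ann.sum _ fun j hj => ?_) _
      rw [Finset.mem_range] at hj
      exact (choose_ann j (hvann j hj)).of_dvd (pow_dvd_pow _ (by omega))
    have hmon : (PG F * PG G ^ m).Monic := (PG_monic F).mul ((PG_monic G).pow m)
    have hdeg : (PG F * PG G ^ m).natDegree = F.length + m * G.length := by
      rw [(PG_monic F).natDegree_mul ((PG_monic G).pow m), (PG_monic G).natDegree_pow,
        PG_natDegree, PG_natDegree]
    intro n
    have := hA1.ext hmon hA2 (fun n hn => by
      rw [hdeg] at hn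
      have h2 := zeq_iff.1 (hK4 n hn)
      rw [iv_zm, iv_nat, iv_zsum] at h2
      simp only [iv_zm, iv_nat] at h2
      rw [h2, Finset.sum_apply]
      rfl) n
    rw [Finset.sum_apply] at this
    exact this
  · -- growth
    intro j hj b
    have hinit : ∀ i < G.length, ((m : ℤ) * m.factorial) * |v j i| ≤ 2 ^ k - 1 := by
      intro i hi
      have h2 := zlt_iff.1 (hK5.1 j hj i hi)
      rw [iv_zm, iv_nat, abs_mul] at h2
      have h3 : v j i = iv (at0 (V.getD j []) i) := by
        show iv (run G (V.getD j []) i) = _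
        rw [run_init (by rw [hVl j hj]; exact hi)]
      rw [h3]
      push_cast at h2
      rw [abs_mul] at h2
      simp only [Nat.abs_cast] at h2
      omega
    have hAk : 1 + ∑ i ∈ range G.length, |iv (at0 G i)| ≤ 2 ^ k := by
      have h2 := hK5.2
      have h3 : (((zsum (fun i => ((at0 G i).1 + (at0 G i).2, 0)) G.length).1 : ℕ) : ℤ) =
          ∑ i ∈ range G.length, (((at0 G i).1 : ℤ) + (at0 G i).2) := by
        have h4 : ∀ N, ((zsum (fun i => ((at0 G i).1 + (at0 G i).2, 0)) N).1 : ℤ) =
            ∑ i ∈ range N, (((at0 G i).1 : ℤ) + (at0 G i).2) := by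
          intro N
          induction N with
          | zero => rfl
          | succ N ih =>
            rw [Finset.sum_range_succ, ← ih]
            simp [zsum, za]
        exact h4 _
      have h5 : ∑ i ∈ range G.length, |iv (at0 G i)| ≤
          ∑ i ∈ range G.length, (((at0 G i).1 : ℤ) + (at0 G i).2) :=
        Finset.sum_le_sum fun i _ => abs_iv_le _
      have h6 : (1 : ℤ) + ((zsum (fun i => ((at0 G i).1 + (at0 G i).2, 0)) G.length).1 : ℕ) ≤ 2 ^ k := by
        exact_mod_cast h2
      linarith
    have h2k : (1 : ℤ) ≤ 2 ^ k := one_le_pow₀ (by norm_num)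
    have := growth (hvann j hj) (c := (m : ℤ) * m.factorial) (M := 2 ^ k - 1) (by positivity)
      hinit (by linarith) hAk b
    calc (m : ℤ) * m.factorial * |v j b| ≤ (2 ^ k - 1) * (2 ^ k) ^ b := this
      _ < 2 ^ k * (2 ^ k) ^ b := by
          have : (0 : ℤ) < (2 ^ k) ^ b := by positivity
          nlinarith
      _ = 2 ^ (k * (b + 1)) := by rw [← pow_succ', ← pow_mul]
  · -- p0 prime
    obtain ⟨h3, hp⟩ := hK6.1
    rw [Nat.prime_def_lt']
    refine ⟨by omega, fun i hi hip hd => ?_⟩
    rcases hp i hip with h4 | h4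
    · omega
    · exact h4 (Nat.mod_eq_zero_of_dvd hd)
  · -- classes
    intro r hr
    rcases hK7 r hr with h2 | ⟨j, l, hj, hne, hlt⟩
    · left
      intro j hj l
      refine class_vanish (PG_monic G) (hvann j hj) r T (fun l hl => ?_) l
      rw [PG_natDegree] at hl
      have := zeq_iff.1 (h2 j hj l hl)
      rwa [iv_zero] at this
    · right
      refine ⟨j, hj, l, fun h0 => hne (zeq_iff.2 (by rw [iv_zero]; exact h0)), ?_⟩
      have := zlt_iff.1 hlt
      exact_mod_cast this

end Pool.Agent.H692R2.USS
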