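import Pool.Agent.H692R2.USS.Basic
import Pool.Agent.Helper446.Comp

set_option autoImplicit false

namespace Pool.Agent.H692R2.USS

open Polynomial Finset
open Pool.Agent.Helper446

/-- integers coded as differences -/
def iv (z : ℕ × ℕ) : ℤ := (z.1 : ℤ) - z.2
def za (x y : ℕ × ℕ) : ℕ × ℕ := (x.1 + y.1, x.2 + y.2)
def zm (x y : ℕ × ℕ) : ℕ × ℕ := (x.1 * y.1 + x.2 * y.2, x.1 * y.2 + x.2 * y.1)
def zn (x : ℕ × ℕ) : ℕ × ℕ := (x.2, x.1)
def zc (x : ℤ) : ℕ × ℕ := (x.toNat, (-x).toNat)
def zsum (f : ℕ → ℕ × ℕ) : ℕ → ℕ × ℕ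
  | 0 => (0, 0)
  | n + 1 => za (zsum f n) (f n)

@[simp] theorem iv_za (x y) : iv (za x y) = iv x + iv y := by simp [iv, za]; ring
@[simp] theorem iv_zm (x y) : iv (zm x y) = iv x * iv y := by simp [iv, zm]; ring
@[simp] theorem iv_zn (x) : iv (zn x) = - iv x := by simp [iv, zn]
@[simp] theorem iv_zc (x) : iv (zc x) = x := by simp only [iv, zc]; omega
@[simp] theorem iv_zero : iv (0, 0) = 0 := rfl
@[simp] theorem iv_nat (n : ℕ) : iv (n, 0) = n := by simp [iv]
@[simp] theorem iv_zsum (f : ℕ → ℕ × ℕ) (n : ℕ) : iv (zsum f n) = ∑ i ∈ range n, iv (f i) := by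
  induction n with
  | zero => simp [zsum]
  | succ n ih => simp [zsum, ih, Finset.sum_range_succ]

section comp
variable {α : Type*} [Primcodable α]

@[fun_prop] theorem cza {f g : α → ℕ × ℕ} (hf : Computable f) (hg : Computable g) :
    Computable (fun x => za (f x) (g x)) := by unfold za; fun_prop
@[fun_prop] theorem czm {f g : α → ℕ × ℕ} (hf : Computable f) (hg : Computable g) :
    Computable (fun x => zm (f x) (g x)) := by unfold zm; fun_prop
@[fun_prop] theorem czn {f : α → ℕ × ℕ} (hf : Computable f) :
    Computable (fun x => zn (f x)) := by unfold zn; fun_prop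

theorem czsum {q : α → ℕ → ℕ × ℕ} (hq : Computable fun x : α × ℕ => q x.1 x.2) {f : α → ℕ}
    (hf : Computable f) : Computable fun a => zsum (q a) (f a) := by
  have h := Computable.nat_rec (f := f) (g := fun _ : α => ((0, 0) : ℕ × ℕ))
    (h := fun (a : α) (y : ℕ × (ℕ × ℕ)) => za y.2 (q a y.1)) hf (Computable.const _) ?_
  · refine h.of_eq fun a => ?_
    generalize f a = n
    induction n with
    | zero => rfl
    | succ n ih => simp only [zsum]; rw [← ih]
  · show Computable fun x : α × (ℕ × (ℕ × ℕ)) => za x.2.2 (q x.1 x.2.1)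
    have h1 : Computable fun x : α × (ℕ × (ℕ × ℕ)) => q x.1 x.2.1 :=
      hq.comp (f := fun x : α × ℕ => q x.1 x.2) (g := fun x : α × (ℕ × (ℕ × ℕ)) => (x.1, x.2.1))
        (by fun_prop)
    fun_prop

@[fun_prop] theorem cgetD {β : Type*} [Primcodable β] {l : α → List β} {i : α → ℕ} {d : α → β}
    (hl : Computable l) (hi : Computable i) (hd : Computable d) :
    Computable fun a => (l a).getD (i a) (d a) := by
  have h1 : Computable fun a => (l a)[i a]? := by fun_prop
  refine (Computable.option_getD h1 hd).of_eq fun a => ?_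
  rw [List.getD_eq_getElem?_getD]

@[fun_prop] theorem ctail {β : Type*} [Primcodable β] {l : α → List β} (hl : Computable l) :
    Computable fun a => (l a).tail := Primrec.list_tail.to_comp.comp hl

@[fun_prop] theorem cdrop_iterate {β : Type*} [Primcodable β] {F : α → β → β}
    (hF : Computable fun x : α × β => F x.1 x.2) {n : α → ℕ} (hn : Computable n) {g : α → β}
    (hg : Computable g) : Computable fun a => (F a)^[n a] (g a) := by
  have h := Computable.nat_rec (f := n) (g := g)
    (h := fun (a : α) (y : ℕ × β) => F a y.2) hn hg ?_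
  · refine h.of_eq fun a => ?_
    generalize n a = m
    induction m with
    | zero => rfl
    | succ m ih =>
      rw [Function.iterate_succ_apply']
      simp only
      rw [← ih]
  · show Computable fun x : α × (ℕ × β) => F x.1 x.2.2
    exact hF.comp (f := fun x : α × β => F x.1 x.2) (g := fun x : α × (ℕ × β) => (x.1, x.2.2))
      (by fun_prop)

end comp

/-! ### recurrence sequences from codes -/

/-- one step of the recurrence `v (n+e) = - ∑_{i<e} G_i v (n+i)` on the state vector -/
def stp (G st : List (ℕ × ℕ)) : List (ℕ × ℕ) :=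
  st.tail ++ [zn (zsum (fun i => zm (G.getD i (0, 0)) (st.getD i (0, 0))) G.length)]

/-- the `n`-th term (coded) -/
def run (G a : List (ℕ × ℕ)) (n : ℕ) : ℕ × ℕ := ((stp G)^[n] a).getD 0 (0, 0)

/-- the monic polynomial `X^e + ∑ G_i X^i`. -/
noncomputable def PG (G : List (ℕ × ℕ)) : ℤ[X] :=
  X ^ G.length + ∑ i ∈ range G.length, C (iv (G.getD i (0, 0))) * X ^ i

theorem PG_tail_degree (G : List (ℕ × ℕ)) :
    (∑ i ∈ range G.length, C (iv (G.getD i (0, 0))) * X ^ i : ℤ[X]).degree < G.length := by
  refine (degree_sum_le _ _).trans_lt ?_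
  rw [Finset.sup_lt_iff (by exact_mod_cast WithBot.bot_lt_coe _)]
  intro i hi
  refine (degree_C_mul_X_pow_le _ _).trans_lt ?_
  exact_mod_cast Finset.mem_range.1 hi

theorem PG_monic (G : List (ℕ × ℕ)) : (PG G).Monic := monic_X_pow_add (PG_tail_degree G)

theorem PG_natDegree (G : List (ℕ × ℕ)) : (PG G).natDegree = G.length := by
  unfold PG
  apply natDegree_eq_of_degree_eq_some
  rw [degree_add_eq_left_of_degree_lt]
  · simp
  · rw [degree_X_pow]; exact PG_tail_degree G

theorem PG_coeff (G : List (ℕ × ℕ)) (i : ℕ) :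
    (PG G).coeff i = if i < G.length then iv (G.getD i (0, 0)) else if i = G.length then 1 else 0 := by
  unfold PG
  rw [coeff_add, coeff_X_pow, finsetSum_coeff]
  simp only [coeff_C_mul, coeff_X_pow]
  rcases lt_trichotomy i G.length with h | h | h
  · rw [if_neg h.ne, if_pos h, zero_add, Finset.sum_eq_single i]
    · simp
    · intro j _ hj; rw [if_neg (by omega), mul_zero]
    · intro hi; exact absurd (Finset.mem_range.2 h) hi
  · rw [if_pos h, if_neg (by omega), Finset.sum_eq_zero, add_zero]
    intro j hj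
    rw [Finset.mem_range] at hj
    rw [if_neg (by omega), mul_zero]
  · rw [if_neg (by omega), if_neg (by omega), Finset.sum_eq_zero, add_zero]
    intro j hj
    rw [Finset.mem_range] at hj
    rw [if_neg (by omega), mul_zero]

theorem ann_PG {G : List (ℕ × ℕ)} {u : ℕ → ℤ} :
    Ann (PG G) u ↔ ∀ n, u (n + G.length) = - ∑ i ∈ range G.length, iv (G.getD i (0, 0)) * u (n + i) := by
  rw [ann_iff (N := G.length + 1) (by rw [PG_natDegree]; omega)]
  refine forall_congr' fun n => ?_
  rw [Finset.sum_range_succ, PG_coeff, if_neg (lt_irrefl _), if_pos rfl, one_mul]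
  have : ∑ i ∈ range G.length, (PG G).coeff i * u (n + i) =
      ∑ i ∈ range G.length, iv (G.getD i (0, 0)) * u (n + i) := by
    refine Finset.sum_congr rfl fun i hi => ?_
    rw [PG_coeff, if_pos (Finset.mem_range.1 hi)]
  rw [this]
  constructor <;> intro h <;> linarith

theorem stp_length {G st : List (ℕ × ℕ)} (h : 1 ≤ st.length) : (stp G st).length = st.length := by
  unfold stp
  simp
  omega

theorem iter_length {G a : List (ℕ × ℕ)} (h : 1 ≤ a.length) (n : ℕ) :
    ((stp G)^[n] a).length = a.length := by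
  induction n with
  | zero => rfl
  | succ n ih => rw [Function.iterate_succ_apply', stp_length (by omega), ih]

theorem stp_getD {G st : List (ℕ × ℕ)} {i : ℕ} (h : i + 1 < st.length) :
    (stp G st).getD i (0, 0) = st.getD (i + 1) (0, 0) := by
  unfold stp
  rw [List.getD_eq_getElem?_getD, List.getElem?_append_left (by simp; omega),
    List.getElem?_tail, ← List.getD_eq_getElem?_getD]

theorem stp_last {G st : List (ℕ × ℕ)} (h : 1 ≤ st.length) :
    iv ((stp G st).getD (st.length - 1) (0, 0)) =
      - ∑ i ∈ range G.length, iv (G.getD i (0, 0)) * iv (st.getD i (0, 0)) := by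
  unfold stp
  rw [List.getD_eq_getElem?_getD, List.getElem?_append_right (by simp)]
  simp

theorem iter_getD {G a : List (ℕ × ℕ)} {i : ℕ} (h : i < a.length) (n : ℕ) :
    ((stp G)^[n] a).getD i (0, 0) = run G a (n + i) := by
  induction i generalizing n with
  | zero => rfl
  | succ i ih =>
    have h1 : ((stp G)^[n+1] a).getD i (0, 0) = ((stp G)^[n] a).getD (i + 1) (0, 0) := by
      rw [Function.iterate_succ_apply']
      exact stp_getD (by rw [iter_length (by omega)]; omega)
    rw [← h1, ih (by omega)]
    congr 1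
    ring

theorem run_init {G a : List (ℕ × ℕ)} {i : ℕ} (h : i < a.length) :
    run G a i = a.getD i (0, 0) := by
  have := iter_getD (G := G) h 0
  simpa using this.symm

theorem run_ann {G a : List (ℕ × ℕ)} (h1 : 1 ≤ a.length) (hl : a.length = G.length) :
    Ann (PG G) (fun n => iv (run G a n)) := by
  rw [ann_PG]
  intro n
  have h2 : iv (((stp G)^[n+1] a).getD (a.length - 1) (0, 0)) =
      - ∑ i ∈ range G.length, iv (G.getD i (0, 0)) * iv (((stp G)^[n] a).getD i (0, 0)) := by
    rw [Function.iterate_succ_apply']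
    have := stp_last (G := G) (st := (stp G)^[n] a) (by rw [iter_length h1]; exact h1)
    rwa [iter_length h1] at this
  rw [iter_getD (by omega)] at h2
  rw [show n + G.length = n + 1 + (a.length - 1) by omega, h2]
  congr 1
  refine Finset.sum_congr rfl fun i hi => ?_
  rw [iter_getD (by rw [hl]; exact Finset.mem_range.1 hi)]

theorem run_eq {G a : List (ℕ × ℕ)} (h1 : 1 ≤ a.length) (hl : a.length = G.length) {u : ℕ → ℤ}
    (hu : Ann (PG G) u) (h0 : ∀ i < a.length, u i = iv (a.getD i (0, 0))) (n : ℕ) :
    iv (run G a n) = u n := by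
  refine (run_ann h1 hl).ext (PG_monic G) hu (fun i hi => ?_) n
  rw [PG_natDegree] at hi
  show iv (run G a i) = u i
  rw [run_init (by omega), h0 i (by omega)]

@[fun_prop] theorem cstp {α : Type*} [Primcodable α] {G st : α → List (ℕ × ℕ)}
    (hG : Computable G) (hs : Computable st) : Computable fun x => stp (G x) (st x) := by
  unfold stp
  have h : Computable fun x => zsum (fun i => zm ((G x).getD i (0, 0)) ((st x).getD i (0, 0)))
      (G x).length := by
    refine czsum (q := fun x i => zm ((G x).getD i (0, 0)) ((st x).getD i (0, 0))) ?_ (by fun_prop)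
    fun_prop
  fun_prop

@[fun_prop] theorem crun {α : Type*} [Primcodable α] {G a : α → List (ℕ × ℕ)} {n : α → ℕ}
    (hG : Computable G) (ha : Computable a) (hn : Computable n) :
    Computable fun x => run (G x) (a x) (n x) := by
  unfold run
  have h : Computable fun x => (stp (G x))^[n x] (a x) := by
    refine cdrop_iterate (F := fun x => stp (G x)) ?_ hn ha
    fun_prop
  fun_prop

end Pool.Agent.H692R2.USS
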