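import Mathlib

set_option autoImplicit false

namespace Pool.Agent.H692R2.USS

/-- `u` is the integer linear recurrence sequence given by the data `p = (c, a)`: the list `c` of
coefficients `c_1, ..., c_d` with `c_d ≠ 0` and the list `a` of the `d` initial values; integers
are coded as differences of two naturals. -/
def IsLRS (p : List (ℕ × ℕ) × List (ℕ × ℕ)) (u : ℕ → ℤ) : Prop :=
  p.1.length = p.2.length ∧
  (∃ q ∈ p.1.getLast?, (q.1 : ℤ) ≠ (q.2 : ℤ)) ∧
  (∀ i < p.2.length, u i = ((p.2.getD i (0, 0)).1 : ℤ) - ((p.2.getD i (0, 0)).2 : ℤ)) ∧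
  ∀ n : ℕ, u (n + p.1.length) =
    ∑ i ∈ Finset.range p.1.length,
      (((p.1.getD i (0, 0)).1 : ℤ) - ((p.1.getD i (0, 0)).2 : ℤ)) * u (n + p.1.length - 1 - i)

end Pool.Agent.H692R2.USS
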