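import Mathlib
import Pool.Agent.H692R2.USS.Iface

set_option autoImplicit false

/-!
# Dyadic sums of `1 / φ`
-/

namespace Pool.Agent.H692R2.USS

open Finset

namespace InvTotAux

lemma prod_Icc (N : ℕ) (hN : 1 ≤ N) :
    ∏ n ∈ Icc 2 N, (1 - 1 / (n : ℝ) ^ 2) = ((N : ℝ) + 1) / (2 * N) := by
  induction N, hN using Nat.le_induction with
  | base => norm_num
  | succ N hN ih =>
    rw [← Finset.insert_Icc_right_eq_Icc_add_one (by omega), prod_insert (by simp), ih]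
    have h1 : (N : ℝ) ≠ 0 := by positivity
    have h2 : (N : ℝ) + 1 ≠ 0 := by positivity
    push_cast
    field_simp
    ring

lemma prod_half (S : Finset ℕ) (hS : ∀ p ∈ S, 2 ≤ p) :
    (1 : ℝ) / 2 ≤ ∏ p ∈ S, (1 - 1 / (p : ℝ) ^ 2) := by
  set N := S.sup id + 1 with hN
  have hsub : S ⊆ Icc 2 N := by
    intro p hp
    rw [mem_Icc]
    have : p ≤ S.sup id := le_sup (f := id) hp
    exact ⟨hS p hp, by omega⟩
  have hfac : ∀ p ∈ Icc 2 N, 0 ≤ (1 - 1 / (p : ℝ) ^ 2) ∧ (1 - 1 / (p : ℝ) ^ 2) ≤ 1 := by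
    intro p hp
    rw [mem_Icc] at hp
    have h2 : (2 : ℝ) ≤ p := by exact_mod_cast hp.1
    have h3 : 1 / (p : ℝ) ^ 2 ≤ 1 := by
      rw [div_le_one (by positivity)]
      nlinarith
    have h4 : 0 ≤ 1 / (p : ℝ) ^ 2 := by positivity
    constructor <;> linarith
  have h1 : (1 : ℝ) / 2 ≤ ∏ n ∈ Icc 2 N, (1 - 1 / (n : ℝ) ^ 2) := by
    rw [prod_Icc N (by omega)]
    have : (0 : ℝ) < N := by positivity
    rw [div_le_div_iff₀ (by norm_num) (by positivity)]
    linarith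
  refine h1.trans ?_
  rw [← prod_sdiff hsub]
  calc (∏ x ∈ Icc 2 N \ S, (1 - 1 / (x : ℝ) ^ 2)) * ∏ x ∈ S, (1 - 1 / (x : ℝ) ^ 2)
      ≤ 1 * ∏ x ∈ S, (1 - 1 / (x : ℝ) ^ 2) := by
        apply mul_le_mul_of_nonneg_right
        · apply prod_le_one
          · intro i hi
            exact (hfac i (mem_sdiff.1 hi).1).1
          · intro i hi
            exact (hfac i (mem_sdiff.1 hi).1).2
        · exact prod_nonneg fun i hi => (hfac i (hsub hi)).1
    _ = _ := one_mul _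

lemma prod_le_sum_inv (a : ℕ) (ha : 0 < a) :
    ∏ p ∈ a.primeFactors, (1 + 1 / (p : ℝ)) ≤ ∑ d ∈ a.divisors, 1 / (d : ℝ) := by
  rw [prod_one_add]
  have hinj : Set.InjOn (fun t : Finset ℕ => ∏ p ∈ t, p) (a.primeFactors.powerset : Set (Finset ℕ)) := by
    intro t ht u hu htu
    rw [mem_coe, mem_powerset] at ht hu
    have h1 : (∏ p ∈ t, p).primeFactors = t :=
      Nat.primeFactors_prod (fun p hp => Nat.prime_of_mem_primeFactors (ht hp))
    have h2 : (∏ p ∈ u, p).primeFactors = u :=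
      Nat.primeFactors_prod (fun p hp => Nat.prime_of_mem_primeFactors (hu hp))
    simp only at htu
    rw [← h1, ← h2, htu]
  have h3 : ∑ t ∈ a.primeFactors.powerset, ∏ p ∈ t, 1 / (p : ℝ) =
      ∑ d ∈ a.primeFactors.powerset.image (fun t : Finset ℕ => ∏ p ∈ t, p), 1 / (d : ℝ) := by
    rw [sum_image hinj]
    apply sum_congr rfl
    intro t _
    push_cast
    rw [prod_div_distrib, prod_const_one]
  rw [h3]
  apply sum_le_sum_of_subset_of_nonneg
  · intro d hd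
    rw [mem_image] at hd
    obtain ⟨t, ht, rfl⟩ := hd
    rw [mem_powerset] at ht
    rw [Nat.mem_divisors]
    refine ⟨?_, ha.ne'⟩
    exact (prod_dvd_prod_of_subset _ _ _ ht).trans (Nat.prod_primeFactors_dvd a)
  · intro _ _ _
    positivity

lemma inv_totient_le (a : ℕ) (ha : 0 < a) :
    (1 : ℝ) / (Nat.totient a) ≤ 2 / a * ∑ d ∈ a.divisors, 1 / (d : ℝ) := by
  have h1 : (Nat.totient a : ℝ) = a * ∏ p ∈ a.primeFactors, (1 - (p : ℝ)⁻¹) := by
    have h0 := congrArg (fun x : ℚ => (x : ℝ)) (Nat.totient_eq_mul_prod_factors a)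
    push_cast at h0
    exact h0
  have hp : ∀ p ∈ a.primeFactors, (2 : ℝ) ≤ p := by
    intro p hp
    exact_mod_cast (Nat.prime_of_mem_primeFactors hp).two_le
  have h2 := prod_half a.primeFactors
    (fun p hp => (Nat.prime_of_mem_primeFactors hp).two_le)
  have h3 := prod_le_sum_inv a ha
  have h4 : ∏ p ∈ a.primeFactors, (1 - 1 / (p : ℝ) ^ 2) =
      (∏ p ∈ a.primeFactors, (1 - (p : ℝ)⁻¹)) * ∏ p ∈ a.primeFactors, (1 + 1 / (p : ℝ)) := by
    rw [← prod_mul_distrib]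
    apply prod_congr rfl
    intro p hpp
    have := hp p hpp
    field_simp
    ring
  set A := ∏ p ∈ a.primeFactors, (1 - (p : ℝ)⁻¹) with hA
  set B := ∏ p ∈ a.primeFactors, (1 + 1 / (p : ℝ)) with hB
  have hA0 : 0 < A := by
    apply prod_pos
    intro p hpp
    have h5 := hp p hpp
    have : (p : ℝ)⁻¹ ≤ 1 / 2 := by
      rw [← one_div]
      exact one_div_le_one_div_of_le (by norm_num) h5
    linarith
  have ha0 : (0 : ℝ) < a := by exact_mod_cast ha
  rw [h1, div_le_iff₀ (by positivity)]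
  rw [h4] at h2
  have h6 : (1 : ℝ) / 2 ≤ A * ∑ d ∈ a.divisors, 1 / (d : ℝ) :=
    h2.trans (mul_le_mul_of_nonneg_left h3 hA0.le)
  have h7 : 2 / (a : ℝ) * (∑ d ∈ a.divisors, 1 / (d : ℝ)) * (a * A) =
      2 * (A * ∑ d ∈ a.divisors, 1 / (d : ℝ)) := by
    field_simp
  rw [h7]
  linarith

/-- `d ↦ 1 / d` -/
noncomputable def invf : ArithmeticFunction ℝ := ⟨fun d => 1 / (d : ℝ), by simp⟩

lemma sum_sum_inv (N : ℕ) : ∑ a ∈ Ioc 0 N, ∑ d ∈ a.divisors, 1 / (d : ℝ) ≤ 2 * N := by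
  have h := ArithmeticFunction.sum_Ioc_mul_zeta_eq_sum (R := ℝ) invf N
  have h2 : ∀ a : ℕ, ∑ d ∈ a.divisors, 1 / (d : ℝ) =
      (invf * ((ArithmeticFunction.zeta : ArithmeticFunction ℕ) : ArithmeticFunction ℝ)) a := by
    intro a
    rw [ArithmeticFunction.coe_mul_zeta_apply]
    rfl
  simp_rw [h2]
  rw [h]
  calc ∑ n ∈ Ioc 0 N, invf n * ((N / n : ℕ) : ℝ) ≤ ∑ n ∈ Ioc 0 N, N * ((n : ℝ) ^ 2)⁻¹ := by
        apply sum_le_sum
        intro n hn
        rw [mem_Ioc] at hn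
        have hn0 : (0 : ℝ) < n := by exact_mod_cast hn.1
        have h3 : ((N / n : ℕ) : ℝ) ≤ (N : ℝ) / n := Nat.cast_div_le
        have h4 : invf n = 1 / (n : ℝ) := rfl
        rw [h4]
        calc 1 / (n : ℝ) * ((N / n : ℕ) : ℝ) ≤ 1 / (n : ℝ) * ((N : ℝ) / n) :=
              mul_le_mul_of_nonneg_left h3 (by positivity)
          _ = _ := by field_simp
    _ = N * ∑ n ∈ Ioc 0 N, ((n : ℝ) ^ 2)⁻¹ := by rw [mul_sum]
    _ ≤ N * 2 := by
        apply mul_le_mul_of_nonneg_left _ (Nat.cast_nonneg _)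
        have h5 := sum_Ioo_inv_sq_le (α := ℝ) 0 (N + 1)
        have h6 : Ioo 0 (N + 1) = Ioc 0 N := by ext; simp
        rw [h6] at h5
        simpa using h5
    _ = _ := by ring

end InvTotAux

open InvTotAux in
theorem invTot : InvTot := by
  refine ⟨8, by norm_num, ?_⟩
  intro r
  have h2r : (0 : ℝ) < 2 ^ r := by positivity
  calc ∑ a ∈ Finset.Ico (2 ^ r) (2 ^ (r + 1)), (1 : ℝ) / (Nat.totient a)
      ≤ ∑ a ∈ Finset.Ico (2 ^ r : ℕ) (2 ^ (r + 1)), 2 / (2 ^ r : ℝ) * ∑ d ∈ a.divisors, 1 / (d : ℝ) := by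
        apply sum_le_sum
        intro a ha
        rw [mem_Ico] at ha
        have ha0 : 0 < a := lt_of_lt_of_le (by positivity) ha.1
        refine (inv_totient_le a ha0).trans ?_
        apply mul_le_mul_of_nonneg_right
        · apply div_le_div_of_nonneg_left (by norm_num) h2r
          exact_mod_cast ha.1
        · exact sum_nonneg fun _ _ => by positivity
    _ = 2 / (2 ^ r : ℝ) * ∑ a ∈ Finset.Ico (2 ^ r : ℕ) (2 ^ (r + 1)), ∑ d ∈ a.divisors, 1 / (d : ℝ) := by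
        rw [mul_sum]
    _ ≤ 2 / (2 ^ r : ℝ) * ∑ a ∈ Ioc (0 : ℕ) (2 ^ (r + 1)), ∑ d ∈ a.divisors, 1 / (d : ℝ) := by
        apply mul_le_mul_of_nonneg_left _ (by positivity)
        apply sum_le_sum_of_subset_of_nonneg
        · intro a ha
          rw [mem_Ico] at ha
          rw [mem_Ioc]
          exact ⟨lt_of_lt_of_le (by positivity) ha.1, ha.2.le⟩
        · intro _ _ _
          exact sum_nonneg fun _ _ => by positivity
    _ ≤ 2 / (2 ^ r : ℝ) * (2 * ((2 ^ (r + 1) : ℕ) : ℝ)) :=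
        mul_le_mul_of_nonneg_left (sum_sum_inv _) (by positivity)
    _ = 8 := by
        push_cast
        rw [pow_succ]
        field_simp
        norm_num

end Pool.Agent.H692R2.USS
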