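import Mathlib
import Pool.Agent.H692R2.USS.Iface

set_option autoImplicit false

/-!
# The gcd sum over pairs of primes
-/

namespace Pool.Agent.H692R2.USS

open Finset

namespace GcdAux

/-- dyadic block -/
abbrev Bl (l : ℕ) : Finset ℕ := Finset.Ico (2 ^ l) (2 ^ (l + 1))

lemma Bl_pos {l n : ℕ} (h : n ∈ Bl l) : 0 < n := by
  rw [mem_Ico] at h
  exact lt_of_lt_of_le (by positivity) h.1

lemma sum_dyadic (L : ℕ) (f : ℕ → ℝ) :
    ∑ n ∈ Ico 1 (2 ^ L), f n = ∑ l ∈ range L, ∑ n ∈ Bl l, f n := by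
  induction L with
  | zero => simp
  | succ L ih =>
    rw [sum_range_succ, ← ih, sum_Ico_consecutive _ Nat.one_le_two_pow
      (Nat.pow_le_pow_right (by norm_num) (by omega))]

lemma L1 {C : ℝ} (hBT : ∀ q l : ℕ, 1 ≤ q →
    (((Finset.Ico (2 ^ l) (2 ^ (l + 1))).filter (fun k => (q * k + 1).Prime)).card : ℝ) ≤
    C * ((q : ℝ) / (Nat.totient q)) * 2 ^ l / ((l : ℝ) + 1)) (q l : ℕ) (hq : 1 ≤ q) :
    ∑ k ∈ Bl l, (if (q * k + 1).Prime then 1 / (k : ℝ) else 0) ≤
      C * ((q : ℝ) / (Nat.totient q)) / ((l : ℝ) + 1) := by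
  have h2 : (0 : ℝ) < 2 ^ l := by positivity
  calc ∑ k ∈ Bl l, (if (q * k + 1).Prime then 1 / (k : ℝ) else 0)
      ≤ ∑ k ∈ Bl l, (if (q * k + 1).Prime then 1 / (2 : ℝ) ^ l else 0) := by
        apply sum_le_sum
        intro k hk
        rw [mem_Ico] at hk
        split_ifs
        · apply one_div_le_one_div_of_le h2
          exact_mod_cast hk.1
        · exact le_rfl
    _ = (((Finset.Ico (2 ^ l) (2 ^ (l + 1))).filter (fun k => (q * k + 1).Prime)).card : ℝ) *
          (1 / (2 : ℝ) ^ l) := by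
        rw [← sum_filter, sum_const, nsmul_eq_mul]
    _ ≤ (C * ((q : ℝ) / (Nat.totient q)) * 2 ^ l / ((l : ℝ) + 1)) * (1 / (2 : ℝ) ^ l) :=
        mul_le_mul_of_nonneg_right (hBT q l hq) (by positivity)
    _ = _ := by field_simp

/-- `G(l,r)` -/
noncomputable def G (l r : ℕ) : ℝ :=
  ∑ g ∈ Bl l, ∑ a ∈ Bl r, (if (g * a + 1).Prime then 1 / ((g : ℝ) * a) else 0)

lemma G_comm (l r : ℕ) : G l r = G r l := by
  unfold G
  rw [sum_comm]
  apply sum_congr rfl
  intro a _
  apply sum_congr rfl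
  intro g _
  rw [mul_comm g a, mul_comm (g : ℝ)]

lemma G_nonneg (l r : ℕ) : 0 ≤ G l r := by
  unfold G
  refine sum_nonneg fun g _ => sum_nonneg fun a _ => ?_
  split_ifs
  · positivity
  · exact le_rfl

lemma G_le_right {C C2 : ℝ} (hC : 0 < C) (hBT : ∀ q l : ℕ, 1 ≤ q →
    (((Finset.Ico (2 ^ l) (2 ^ (l + 1))).filter (fun k => (q * k + 1).Prime)).card : ℝ) ≤
    C * ((q : ℝ) / (Nat.totient q)) * 2 ^ l / ((l : ℝ) + 1))
    (hT : ∀ r : ℕ, ∑ a ∈ Finset.Ico (2 ^ r) (2 ^ (r + 1)), (1 : ℝ) / (Nat.totient a) ≤ C2)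
    (l r : ℕ) : G l r ≤ C * C2 / ((r : ℝ) + 1) := by
  unfold G
  calc ∑ g ∈ Bl l, ∑ a ∈ Bl r, (if (g * a + 1).Prime then 1 / ((g : ℝ) * a) else 0)
      ≤ ∑ g ∈ Bl l, C / ((r : ℝ) + 1) * (1 / (Nat.totient g : ℝ)) := by
        apply sum_le_sum
        intro g hg
        have hg0 := Bl_pos hg
        have hg1 : (0 : ℝ) < g := by exact_mod_cast hg0
        have hphi : (0 : ℝ) < Nat.totient g := by exact_mod_cast Nat.totient_pos.2 hg0
        have h1 := L1 hBT g r hg0
        calc ∑ a ∈ Bl r, (if (g * a + 1).Prime then 1 / ((g : ℝ) * a) else 0)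
            = (1 / (g : ℝ)) * ∑ a ∈ Bl r, (if (g * a + 1).Prime then 1 / (a : ℝ) else 0) := by
              rw [mul_sum]
              apply sum_congr rfl
              intro a _
              split_ifs
              · rw [one_div_mul_one_div]
              · simp
          _ ≤ (1 / (g : ℝ)) * (C * ((g : ℝ) / (Nat.totient g)) / ((r : ℝ) + 1)) :=
              mul_le_mul_of_nonneg_left h1 (by positivity)
          _ = _ := by field_simp
    _ = C / ((r : ℝ) + 1) * ∑ g ∈ Bl l, (1 / (Nat.totient g : ℝ)) := by rw [mul_sum]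
    _ ≤ C / ((r : ℝ) + 1) * C2 := mul_le_mul_of_nonneg_left (hT l) (by positivity)
    _ = _ := by ring

/-- `κ(r,l)` -/
noncomputable def kap (L r l : ℕ) : ℝ :=
  ∑ i ∈ Ico r L, 1 / (((i : ℝ) + 1) * ((i : ℝ) + l + 1))

lemma kap_nonneg (L r l : ℕ) : 0 ≤ kap L r l := sum_nonneg fun i _ => by positivity

lemma tail (r L : ℕ) : ∑ i ∈ Ico r L, 1 / (((i : ℝ) + 1) ^ 2) ≤ 2 / ((r : ℝ) + 1) := by
  have h := sum_Ioo_inv_sq_le (α := ℝ) r (L + 1)
  refine le_trans (le_of_eq ?_) h
  have h2 : Ioo r (L + 1) = (Ico r L).image (fun i => i + 1) := by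
    ext n
    simp only [mem_Ioo, mem_image, mem_Ico]
    constructor
    · rintro ⟨h1, h2⟩
      exact ⟨n - 1, by omega, by omega⟩
    · rintro ⟨m, h1, rfl⟩
      omega
  rw [h2, sum_image (by intro a _ b _ h; simpa using h)]
  apply sum_congr rfl
  intro i _
  push_cast
  rw [one_div]

/-- the combinatorial sum -/
lemma kap_sum (L : ℕ) (hL : 1 ≤ L) :
    ∑ l ∈ range L, ∑ r ∈ range L, kap L r l * (1 / ((max l r : ℕ) + 1 : ℝ)) ≤
      5 * (1 + Real.log L) := by
  have hH : ∑ l ∈ range L, 1 / ((l : ℝ) + 1) ≤ 1 + Real.log L := by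
    have h := harmonic_le_one_add_log L
    rw [harmonic] at h
    push_cast at h
    simpa using h
  -- split `r ≤ l`, `l < r`
  have hsplit : ∀ l ∈ range L, ∑ r ∈ range L, kap L r l * (1 / ((max l r : ℕ) + 1 : ℝ)) =
      ∑ r ∈ range (l + 1), kap L r l * (1 / ((l : ℝ) + 1)) +
      ∑ r ∈ Ico (l + 1) L, kap L r l * (1 / ((r : ℝ) + 1)) := by
    intro l hl
    rw [mem_range] at hl
    rw [← sum_range_add_sum_Ico _ (show l + 1 ≤ L by omega)]
    congr 1
    · apply sum_congr rfl
      intro r hr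
      rw [mem_range] at hr
      rw [max_eq_left (by omega)]
    · apply sum_congr rfl
      intro r hr
      rw [mem_Ico] at hr
      rw [max_eq_right (by omega)]
  rw [sum_congr rfl hsplit, sum_add_distrib]
  -- part A
  have hA : ∑ l ∈ range L, ∑ r ∈ range (l + 1), kap L r l * (1 / ((l : ℝ) + 1)) ≤
      3 * ∑ l ∈ range L, 1 / ((l : ℝ) + 1) := by
    rw [mul_sum]
    apply sum_le_sum
    intro l hl
    rw [mem_range] at hl
    rw [← sum_mul]
    apply mul_le_mul_of_nonneg_right _ (by positivity)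
    have h1 : ∑ r ∈ range (l + 1), kap L r l =
        ∑ i ∈ range L, ∑ r ∈ (range (l + 1)).filter (fun r => r ≤ i),
          1 / (((i : ℝ) + 1) * ((i : ℝ) + l + 1)) := by
      unfold kap
      rw [sum_comm' (t' := range L) (s' := fun i => (range (l + 1)).filter (fun r => r ≤ i))]
      intro r i
      simp only [mem_range, mem_Ico, mem_filter]
      omega
    rw [h1]
    have h2 : ∀ i ∈ range L, ∑ r ∈ (range (l + 1)).filter (fun r => r ≤ i),
          1 / (((i : ℝ) + 1) * ((i : ℝ) + l + 1)) ≤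
          (if i < l + 1 then 1 / ((l : ℝ) + 1) else ((l : ℝ) + 1) * (1 / ((i : ℝ) + 1) ^ 2)) := by
      intro i _
      rw [sum_const, nsmul_eq_mul]
      split_ifs with hi
      · have hc : (((range (l + 1)).filter (fun r => r ≤ i)).card : ℝ) ≤ (i : ℝ) + 1 := by
          have : ((range (l + 1)).filter (fun r => r ≤ i)).card ≤ (range (i + 1)).card := by
            apply card_le_card
            intro r hr
            rw [mem_filter] at hr
            rw [mem_range]
            omega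
          rw [card_range] at this
          exact_mod_cast this
        calc (((range (l + 1)).filter (fun r => r ≤ i)).card : ℝ) *
              (1 / (((i : ℝ) + 1) * ((i : ℝ) + l + 1)))
            ≤ ((i : ℝ) + 1) * (1 / (((i : ℝ) + 1) * ((i : ℝ) + l + 1))) :=
              mul_le_mul_of_nonneg_right hc (by positivity)
          _ = 1 / ((i : ℝ) + l + 1) := by field_simp
          _ ≤ _ := by
              apply one_div_le_one_div_of_le (by positivity)
              have : (0 : ℝ) ≤ i := Nat.cast_nonneg _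
              linarith
      · have hc : (((range (l + 1)).filter (fun r => r ≤ i)).card : ℝ) ≤ (l : ℝ) + 1 := by
          have : ((range (l + 1)).filter (fun r => r ≤ i)).card ≤ (range (l + 1)).card :=
            card_le_card (filter_subset _ _)
          rw [card_range] at this
          exact_mod_cast this
        apply mul_le_mul hc _ (by positivity) (by positivity)
        apply one_div_le_one_div_of_le (by positivity)
        rw [sq]
        apply mul_le_mul_of_nonneg_left _ (by positivity)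
        have : (0 : ℝ) ≤ l := Nat.cast_nonneg _
        linarith
    refine (sum_le_sum h2).trans ?_
    rw [← sum_range_add_sum_Ico _ (show l + 1 ≤ L by omega)]
    have h3 : ∑ i ∈ range (l + 1), (if i < l + 1 then 1 / ((l : ℝ) + 1)
        else ((l : ℝ) + 1) * (1 / ((i : ℝ) + 1) ^ 2)) = 1 := by
      rw [sum_congr rfl (g := fun _ => 1 / ((l : ℝ) + 1))]
      · rw [sum_const, card_range, nsmul_eq_mul]
        push_cast
        field_simp
      · intro i hi
        rw [mem_range] at hi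
        rw [if_pos hi]
    have h4 : ∑ i ∈ Ico (l + 1) L, (if i < l + 1 then 1 / ((l : ℝ) + 1)
        else ((l : ℝ) + 1) * (1 / ((i : ℝ) + 1) ^ 2)) ≤ 2 := by
      rw [sum_congr rfl (g := fun i : ℕ => ((l : ℝ) + 1) * (1 / ((i : ℝ) + 1) ^ 2))]
      · rw [← mul_sum]
        have h5 := tail (l + 1) L
        calc ((l : ℝ) + 1) * ∑ i ∈ Ico (l + 1) L, 1 / ((i : ℝ) + 1) ^ 2
            ≤ ((l : ℝ) + 1) * (2 / (((l + 1 : ℕ) : ℝ) + 1)) :=
              mul_le_mul_of_nonneg_left h5 (by positivity)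
          _ ≤ 2 := by
              rw [← mul_div_assoc, div_le_iff₀ (by positivity)]
              push_cast
              linarith
      · intro i hi
        rw [mem_Ico] at hi
        rw [if_neg (by omega)]
    linarith
  -- part B
  have hB : ∑ l ∈ range L, ∑ r ∈ Ico (l + 1) L, kap L r l * (1 / ((r : ℝ) + 1)) ≤
      2 * ∑ l ∈ range L, 1 / ((l : ℝ) + 1) := by
    rw [sum_comm' (t' := range L) (s' := fun r => range r)]
    · rw [mul_sum]
      apply sum_le_sum
      intro r _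
      have h6 : ∀ l ∈ range r, kap L r l * (1 / ((r : ℝ) + 1)) ≤
          2 / ((r : ℝ) + 1) * (1 / ((r : ℝ) + 1)) := by
        intro l _
        apply mul_le_mul_of_nonneg_right _ (by positivity)
        refine le_trans ?_ (tail r L)
        unfold kap
        apply sum_le_sum
        intro i _
        apply one_div_le_one_div_of_le (by positivity)
        rw [sq]
        apply mul_le_mul_of_nonneg_left _ (by positivity)
        have : (0 : ℝ) ≤ l := Nat.cast_nonneg _
        linarith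
      refine (sum_le_sum h6).trans ?_
      rw [sum_const, card_range, nsmul_eq_mul]
      have h7 : (r : ℝ) * (2 / ((r : ℝ) + 1) * (1 / ((r : ℝ) + 1))) =
          (r / ((r : ℝ) + 1)) * (2 * (1 / ((r : ℝ) + 1))) := by ring
      rw [h7]
      have h8 : (r : ℝ) / ((r : ℝ) + 1) ≤ 1 := by
        rw [div_le_one (by positivity)]
        linarith
      calc (r / ((r : ℝ) + 1)) * (2 * (1 / ((r : ℝ) + 1))) ≤ 1 * (2 * (1 / ((r : ℝ) + 1))) :=
            mul_le_mul_of_nonneg_right h8 (by positivity)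
        _ = _ := one_mul _
    · intro l r
      simp only [mem_range, mem_Ico]
      omega
  linarith

/-- the summand in the variables `g, a, a'` -/
noncomputable def H (g a a' : ℕ) : ℝ :=
  if (g * a + 1).Prime ∧ (g * a' + 1).Prime ∧ a < a' then
    (Nat.totient g : ℝ) / ((g : ℝ) ^ 2 * a * a' * ((Nat.log 2 (g * a' + 1) : ℝ) + 1)) else 0

lemma H_nonneg (g a a' : ℕ) : 0 ≤ H g a a' := by
  unfold H
  split_ifs
  · positivity
  · exact le_rfl

lemma reparam (L : ℕ) :
    ∑ p' ∈ (Finset.range (2 ^ L)).filter Nat.Prime, ∑ p ∈ (Finset.range p').filter Nat.Prime,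
    ((Nat.gcd (p - 1) (p' - 1) : ℕ) : ℝ) /
      (((p : ℝ) - 1) * ((p' : ℝ) - 1) * ((Nat.log 2 p' : ℝ) + 1)) ≤
    ∑ g ∈ Ico 1 (2 ^ L), ∑ a ∈ Ico 1 (2 ^ L), ∑ a' ∈ Ico 1 (2 ^ L), H g a a' := by
  classical
  have h1 : ∀ p' ∈ (Finset.range (2 ^ L)).filter Nat.Prime, ∀ p ∈ (Finset.range p').filter Nat.Prime,
      ((Nat.gcd (p - 1) (p' - 1) : ℕ) : ℝ) /
        (((p : ℝ) - 1) * ((p' : ℝ) - 1) * ((Nat.log 2 p' : ℝ) + 1)) =
      ∑ g ∈ (Nat.gcd (p - 1) (p' - 1)).divisors, H g ((p - 1) / g) ((p' - 1) / g) := by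
    intro p' hp' p hp
    rw [mem_filter, mem_range] at hp' hp
    have hsum : ((Nat.gcd (p - 1) (p' - 1) : ℕ) : ℝ) =
        ∑ g ∈ (Nat.gcd (p - 1) (p' - 1)).divisors, (Nat.totient g : ℝ) := by
      have := Nat.sum_totient (Nat.gcd (p - 1) (p' - 1))
      exact_mod_cast this.symm
    rw [hsum, sum_div]
    apply sum_congr rfl
    intro g hg
    have hgd := Nat.dvd_of_mem_divisors hg
    have hg1 : g ∣ p - 1 := hgd.trans (Nat.gcd_dvd_left _ _)
    have hg2 : g ∣ p' - 1 := hgd.trans (Nat.gcd_dvd_right _ _)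
    have hp2 := hp.2.two_le
    have hp2' := hp'.2.two_le
    have hg0 : 0 < g := Nat.pos_of_dvd_of_pos hg1 (by omega)
    obtain ⟨a, ha⟩ := hg1
    obtain ⟨a', ha'⟩ := hg2
    have e1 : (p - 1) / g = a := by rw [ha]; exact Nat.mul_div_cancel_left _ hg0
    have e2 : (p' - 1) / g = a' := by rw [ha']; exact Nat.mul_div_cancel_left _ hg0
    rw [e1, e2]
    have e3 : g * a + 1 = p := by omega
    have e4 : g * a' + 1 = p' := by omega
    have h5 : a < a' := by
      have : g * a < g * a' := by omega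
      exact lt_of_mul_lt_mul_left this (Nat.zero_le _)
    unfold H
    rw [e3, e4, if_pos ⟨hp.2, hp'.2, h5⟩]
    have e5 : (p : ℝ) - 1 = g * a := by
      rw [← e3]; push_cast; ring
    have e6 : (p' : ℝ) - 1 = g * a' := by
      rw [← e4]; push_cast; ring
    rw [e5, e6]
    congr 1
    ring
  have h2 : ∑ p' ∈ (Finset.range (2 ^ L)).filter Nat.Prime, ∑ p ∈ (Finset.range p').filter Nat.Prime,
    ((Nat.gcd (p - 1) (p' - 1) : ℕ) : ℝ) /
      (((p : ℝ) - 1) * ((p' : ℝ) - 1) * ((Nat.log 2 p' : ℝ) + 1)) =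
      ∑ x ∈ ((Finset.range (2 ^ L)).filter Nat.Prime).sigma (fun p' =>
        ((Finset.range p').filter Nat.Prime).sigma (fun p =>
          (Nat.gcd (p - 1) (p' - 1)).divisors)),
        H x.2.2 ((x.2.1 - 1) / x.2.2) ((x.1 - 1) / x.2.2) := by
    rw [sum_sigma]
    apply sum_congr rfl
    intro p' hp'
    rw [sum_sigma]
    apply sum_congr rfl
    intro p hp
    exact h1 p' hp' p hp
  rw [h2]
  have h3 : ∑ g ∈ Ico 1 (2 ^ L), ∑ a ∈ Ico 1 (2 ^ L), ∑ a' ∈ Ico 1 (2 ^ L), H g a a' =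
      ∑ y ∈ (Ico 1 (2 ^ L)) ×ˢ ((Ico 1 (2 ^ L)) ×ˢ (Ico 1 (2 ^ L))), H y.1 y.2.1 y.2.2 := by
    rw [sum_product]
    apply sum_congr rfl
    intro g _
    rw [sum_product]
  rw [h3]
  set Sg := ((Finset.range (2 ^ L)).filter Nat.Prime).sigma (fun p' =>
        ((Finset.range p').filter Nat.Prime).sigma (fun p =>
          (Nat.gcd (p - 1) (p' - 1)).divisors)) with hSg
  set e : (Σ _ : ℕ, Σ _ : ℕ, ℕ) → ℕ × (ℕ × ℕ) :=
    fun x => (x.2.2, ((x.2.1 - 1) / x.2.2, (x.1 - 1) / x.2.2)) with he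
  have hmem : ∀ x ∈ Sg, 0 < x.2.2 ∧ x.2.2 ∣ x.2.1 - 1 ∧ x.2.2 ∣ x.1 - 1 ∧ 2 ≤ x.2.1 ∧
      x.2.1 < x.1 ∧ x.1 < 2 ^ L := by
    rintro ⟨p', p, g⟩ hx
    rw [hSg, mem_sigma, mem_sigma, mem_filter, mem_filter, mem_range, mem_range] at hx
    obtain ⟨⟨ha, hb⟩, ⟨⟨hc, hd⟩, hf⟩⟩ := hx
    simp only at ha hb hc hd hf ⊢
    have hgd := Nat.dvd_of_mem_divisors hf
    have hg1 : g ∣ p - 1 := hgd.trans (Nat.gcd_dvd_left _ _)
    have hg2 : g ∣ p' - 1 := hgd.trans (Nat.gcd_dvd_right _ _)
    have hp2 := hd.two_le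
    exact ⟨Nat.pos_of_dvd_of_pos hg1 (by omega), hg1, hg2, hp2, hc, ha⟩
  have hinj : Set.InjOn e Sg := by
    intro x hx y hy hxy
    obtain ⟨a1, a2, a3, a4, a5, _⟩ := hmem x hx
    obtain ⟨b1, b2, b3, b4, b5, _⟩ := hmem y hy
    obtain ⟨p', p, g⟩ := x
    obtain ⟨q', q, g2⟩ := y
    simp only [he, Prod.mk.injEq] at hxy a1 a2 a3 a4 a5 b1 b2 b3 b4 b5
    obtain ⟨c1, c2, c3⟩ := hxy
    subst c1
    obtain ⟨u, hu⟩ := a2
    obtain ⟨u', hu'⟩ := a3
    obtain ⟨v, hv⟩ := b2
    obtain ⟨v', hv'⟩ := b3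
    rw [hu, hv, Nat.mul_div_cancel_left _ a1, Nat.mul_div_cancel_left _ a1] at c2
    rw [hu', hv', Nat.mul_div_cancel_left _ a1, Nat.mul_div_cancel_left _ a1] at c3
    subst c2
    subst c3
    have d1 : p = q := by omega
    have d2 : p' = q' := by omega
    subst d1
    subst d2
    rfl
  have h4 : ∑ x ∈ Sg, H x.2.2 ((x.2.1 - 1) / x.2.2) ((x.1 - 1) / x.2.2) =
      ∑ y ∈ Sg.image e, H y.1 y.2.1 y.2.2 := by
    rw [sum_image hinj]
  rw [h4]
  apply sum_le_sum_of_subset_of_nonneg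
  · intro y hy
    rw [mem_image] at hy
    obtain ⟨x, hx, rfl⟩ := hy
    obtain ⟨a1, a2, a3, a4, a5, a6⟩ := hmem x hx
    simp only [he, mem_product, mem_Ico]
    refine ⟨⟨a1, ?_⟩, ⟨?_, ?_⟩, ?_, ?_⟩
    · have := Nat.le_of_dvd (by omega) a2
      omega
    · exact Nat.div_pos (Nat.le_of_dvd (by omega) a2) a1
    · have := Nat.div_le_self (x.2.1 - 1) x.2.2
      omega
    · exact Nat.div_pos (Nat.le_of_dvd (by omega) a3) a1
    · have := Nat.div_le_self (x.1 - 1) x.2.2
      omega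
  · intro _ _ _
    exact H_nonneg _ _ _

/-- the sum over `a'` -/
lemma inner {C : ℝ} (hC : 0 < C) (hBT : ∀ q l : ℕ, 1 ≤ q →
    (((Finset.Ico (2 ^ l) (2 ^ (l + 1))).filter (fun k => (q * k + 1).Prime)).card : ℝ) ≤
    C * ((q : ℝ) / (Nat.totient q)) * 2 ^ l / ((l : ℝ) + 1)) (L l r g a : ℕ) (hg : g ∈ Bl l)
    (ha : a ∈ Bl r) (hr : r < L) :
    ∑ a' ∈ Ico 1 (2 ^ L), H g a a' ≤
      C * (kap L r l * (if (g * a + 1).Prime then 1 / ((g : ℝ) * a) else 0)) := by
  have hg0 := Bl_pos hg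
  have ha0 := Bl_pos ha
  have hg1 : (0 : ℝ) < g := by exact_mod_cast hg0
  have ha1 : (0 : ℝ) < a := by exact_mod_cast ha0
  have hphi : (0 : ℝ) < Nat.totient g := by exact_mod_cast Nat.totient_pos.2 hg0
  rw [sum_dyadic]
  by_cases hpr : (g * a + 1).Prime
  · rw [if_pos hpr]
    rw [← sum_range_add_sum_Ico _ (show r ≤ L by omega)]
    have hz : ∑ i ∈ range r, ∑ a' ∈ Bl i, H g a a' = 0 := by
      apply sum_eq_zero
      intro i hi
      apply sum_eq_zero
      intro a' ha'
      rw [mem_range] at hi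
      rw [mem_Ico] at ha' ha
      have : 2 ^ (i + 1) ≤ 2 ^ r := Nat.pow_le_pow_right (by norm_num) (by omega)
      unfold H
      rw [if_neg]
      rintro ⟨_, _, h⟩
      omega
    rw [hz, zero_add, ← mul_assoc, kap, mul_sum, sum_mul]
    apply sum_le_sum
    intro i hi
    have hlog : ∀ a' ∈ Bl i, ((i : ℝ) + l + 1) ≤ (Nat.log 2 (g * a' + 1) : ℝ) + 1 := by
      intro a' ha'
      rw [mem_Ico] at ha' hg
      have h1 : i + l ≤ Nat.log 2 (g * a' + 1) := by
        apply Nat.le_log_of_pow_le (by norm_num)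
        rw [add_comm i l, pow_add]
        have := Nat.mul_le_mul hg.1 ha'.1
        omega
      have h2 : ((i + l : ℕ) : ℝ) ≤ (Nat.log 2 (g * a' + 1) : ℝ) := by exact_mod_cast h1
      push_cast at h2
      linarith
    calc ∑ a' ∈ Bl i, H g a a'
        ≤ ∑ a' ∈ Bl i, (Nat.totient g : ℝ) / ((g : ℝ) ^ 2 * a * ((i : ℝ) + l + 1)) *
            (if (g * a' + 1).Prime then 1 / (a' : ℝ) else 0) := by
          apply sum_le_sum
          intro a' ha'
          have ha1' : (0 : ℝ) < a' := by exact_mod_cast Bl_pos ha'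
          unfold H
          by_cases h3 : (g * a' + 1).Prime
          · rw [if_pos h3]
            split_ifs with h4
            · rw [div_mul_div_comm, mul_one]
              apply div_le_div_of_nonneg_left hphi.le (by positivity)
              have := hlog a' ha'
              calc (g : ℝ) ^ 2 * a * ((i : ℝ) + l + 1) * a' =
                  (g : ℝ) ^ 2 * a * a' * ((i : ℝ) + l + 1) := by ring
                _ ≤ _ := mul_le_mul_of_nonneg_left this (by positivity)
            · positivity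
          · rw [if_neg h3, if_neg (by tauto), mul_zero]
      _ = (Nat.totient g : ℝ) / ((g : ℝ) ^ 2 * a * ((i : ℝ) + l + 1)) *
            ∑ a' ∈ Bl i, (if (g * a' + 1).Prime then 1 / (a' : ℝ) else 0) := by rw [mul_sum]
      _ ≤ (Nat.totient g : ℝ) / ((g : ℝ) ^ 2 * a * ((i : ℝ) + l + 1)) *
            (C * ((g : ℝ) / (Nat.totient g)) / ((i : ℝ) + 1)) :=
          mul_le_mul_of_nonneg_left (L1 hBT g i hg0) (by positivity)
      _ = _ := by field_simp
  · rw [if_neg hpr, mul_zero, mul_zero]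
    apply le_of_eq
    apply sum_eq_zero
    intro i _
    apply sum_eq_zero
    intro a' _
    unfold H
    rw [if_neg (by tauto)]

end GcdAux

open GcdAux in
theorem gcdSum (h1 : BT) (h2 : InvTot) : GcdSum := by
  obtain ⟨C, hC, hBT⟩ := h1
  obtain ⟨C2, hC2, hT⟩ := h2
  refine ⟨C * (C * C2) * 5, by positivity, ?_⟩
  intro L
  rcases Nat.eq_zero_or_pos L with hL | hL
  · subst hL
    simp only [pow_zero]
    rw [show (range 1).filter Nat.Prime = ∅ by decide]
    simp
    positivity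
  refine (reparam L).trans ?_
  rw [sum_dyadic]
  have hmain : ∀ l ∈ range L, ∑ g ∈ Bl l, ∑ a ∈ Ico 1 (2 ^ L), ∑ a' ∈ Ico 1 (2 ^ L), H g a a' ≤
      ∑ r ∈ range L, C * (C * C2) * (kap L r l * (1 / ((max l r : ℕ) + 1 : ℝ))) := by
    intro l _
    calc ∑ g ∈ Bl l, ∑ a ∈ Ico 1 (2 ^ L), ∑ a' ∈ Ico 1 (2 ^ L), H g a a'
        = ∑ g ∈ Bl l, ∑ r ∈ range L, ∑ a ∈ Bl r, ∑ a' ∈ Ico 1 (2 ^ L), H g a a' := by
          apply sum_congr rfl
          intro g _
          rw [sum_dyadic]
      _ = ∑ r ∈ range L, ∑ g ∈ Bl l, ∑ a ∈ Bl r, ∑ a' ∈ Ico 1 (2 ^ L), H g a a' := sum_comm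
      _ ≤ ∑ r ∈ range L, C * (C * C2) * (kap L r l * (1 / ((max l r : ℕ) + 1 : ℝ))) := by
          apply sum_le_sum
          intro r hr
          rw [mem_range] at hr
          have hG : G l r ≤ C * C2 * (1 / ((max l r : ℕ) + 1 : ℝ)) := by
            rcases le_total l r with h | h
            · rw [max_eq_right h]
              have := G_le_right hC hBT hT l r
              rw [mul_one_div]
              exact this
            · rw [max_eq_left h, G_comm]
              have := G_le_right hC hBT hT r l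
              rw [mul_one_div]
              exact this
          calc ∑ g ∈ Bl l, ∑ a ∈ Bl r, ∑ a' ∈ Ico 1 (2 ^ L), H g a a'
              ≤ ∑ g ∈ Bl l, ∑ a ∈ Bl r,
                  C * (kap L r l * (if (g * a + 1).Prime then 1 / ((g : ℝ) * a) else 0)) := by
                apply sum_le_sum
                intro g hg
                apply sum_le_sum
                intro a ha
                exact inner hC hBT L l r g a hg ha hr
            _ = C * (kap L r l * G l r) := by
                unfold G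
                rw [mul_sum, mul_sum]
                apply sum_congr rfl
                intro g _
                rw [mul_sum, mul_sum]
            _ ≤ C * (kap L r l * (C * C2 * (1 / ((max l r : ℕ) + 1 : ℝ)))) := by
                apply mul_le_mul_of_nonneg_left _ hC.le
                exact mul_le_mul_of_nonneg_left hG (kap_nonneg _ _ _)
            _ = _ := by ring
  refine (sum_le_sum hmain).trans ?_
  have h3 : ∑ l ∈ range L, ∑ r ∈ range L,
      C * (C * C2) * (kap L r l * (1 / ((max l r : ℕ) + 1 : ℝ))) =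
      C * (C * C2) * ∑ l ∈ range L, ∑ r ∈ range L, kap L r l * (1 / ((max l r : ℕ) + 1 : ℝ)) := by
    rw [mul_sum]
    apply sum_congr rfl
    intro l _
    rw [mul_sum]
  rw [h3]
  have h4 := kap_sum L hL
  have h5 : Real.log L ≤ Real.log ((L : ℝ) + 1) := by
    apply Real.log_le_log (by exact_mod_cast hL)
    linarith
  calc C * (C * C2) * ∑ l ∈ range L, ∑ r ∈ range L, kap L r l * (1 / ((max l r : ℕ) + 1 : ℝ))
      ≤ C * (C * C2) * (5 * (1 + Real.log L)) := mul_le_mul_of_nonneg_left h4 (by positivity)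
    _ ≤ C * (C * C2) * (5 * (1 + Real.log ((L : ℝ) + 1))) := by
        apply mul_le_mul_of_nonneg_left _ (by positivity)
        linarith
    _ = _ := by ring

end Pool.Agent.H692R2.USS
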