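import Pool.Agent.H692R2.USS.T1
import Pool.Agent.H921R2.TatePole.BaseChange

set_option autoImplicit false

/-!
# Task T5: reciprocal sum of the primes with a degree one prime ideal above (helper379)
-/

namespace Pool.Agent.H692R2.USS

open Finset Filter Topology NumberField IsDedekindDomain
open Pool.Agent.H921R2.TatePole
open scoped Classical

/-- one dyadic block of primes -/
theorem t5_block (L i : ℕ) (hL : 1 ≤ L) (hi : L ≤ i) :
    ∑ p ∈ (Finset.Ico (2 ^ i) (2 ^ (i + 1))).filter Nat.Prime, (p : ℝ) ^ (-(1 + 1 / (L : ℝ))) ≤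
      44 / L * (Real.exp (-(Real.log 2 / L))) ^ i := by
  have hL' : (1 : ℝ) ≤ L := by exact_mod_cast hL
  have hi' : (L : ℝ) ≤ i := by exact_mod_cast hi
  have hi1 : 1 ≤ i := hL.trans hi
  have hlog2 : (1 : ℝ) / 2 < Real.log 2 := by
    have := Real.log_two_gt_d9
    linarith
  have hlog2' : Real.log 2 < 1 := by
    have := Real.log_two_lt_d9
    linarith
  have h2i : 2 ≤ 2 ^ i := by
    calc 2 = 2 ^ 1 := by norm_num
      _ ≤ 2 ^ i := Nat.pow_le_pow_right (by norm_num) hi1
  have h1 := t1_brun_titchmarsh (2 ^ i) 1 (2 ^ i) h2i le_rfl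
  have hcard : ((Finset.Ico (2 ^ i) (2 ^ (i + 1))).filter Nat.Prime).card ≤
      ((Finset.range (2 ^ i)).filter (fun k => (2 ^ i + k * 1).Prime)).card := by
    apply Finset.card_le_card_of_injOn (fun k => k - 2 ^ i)
    · intro k hk
      simp only [Finset.coe_filter, Set.mem_ofPred_eq, Finset.mem_Ico, Finset.mem_range] at hk ⊢
      refine ⟨?_, ?_⟩
      · have := hk.1.2
        rw [pow_succ] at this
        omega
      · have h1 : 2 ^ i + (k - 2 ^ i) * 1 = k := by omega
        rw [h1]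
        exact hk.2
    · intro x hx y hy hxy
      simp only [Finset.coe_filter, Set.mem_ofPred_eq, Finset.mem_Ico] at hx hy hxy
      omega
  have hcard' : ((((Finset.Ico (2 ^ i) (2 ^ (i + 1))).filter Nat.Prime).card : ℕ) : ℝ) ≤
      44 * 2 ^ i / L := by
    have h2 : ((((Finset.Ico (2 ^ i) (2 ^ (i + 1))).filter Nat.Prime).card : ℕ) : ℝ) ≤
      ((((Finset.range (2 ^ i)).filter (fun k => (2 ^ i + k * 1).Prime)).card : ℕ) : ℝ) := by
      exact_mod_cast hcard
    refine h2.trans (h1.trans ?_)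
    rw [Nat.totient_one]
    push_cast
    rw [Real.log_pow]
    have h3 : (0 : ℝ) < (i : ℝ) * Real.log 2 := by
      have : (0 : ℝ) < i := by linarith
      positivity
    rw [div_le_div_iff₀ h3 (by positivity)]
    have h4 : (L : ℝ) ≤ 2 * (i * Real.log 2) := by nlinarith
    have h5 : (0 : ℝ) < 2 ^ i := by positivity
    nlinarith
  have hterm : ∀ p ∈ (Finset.Ico (2 ^ i) (2 ^ (i + 1))).filter Nat.Prime,
      (p : ℝ) ^ (-(1 + 1 / (L : ℝ))) ≤ (2 ^ i : ℝ)⁻¹ * (Real.exp (-(Real.log 2 / L))) ^ i := by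
    intro p hp
    rw [Finset.mem_filter, Finset.mem_Ico] at hp
    have hp1 : ((2 : ℝ) ^ i) ≤ p := by exact_mod_cast hp.1.1
    have h2pos : (0 : ℝ) < (2 : ℝ) ^ i := by positivity
    calc (p : ℝ) ^ (-(1 + 1 / (L : ℝ))) ≤ ((2 : ℝ) ^ i) ^ (-(1 + 1 / (L : ℝ))) := by
          apply Real.rpow_le_rpow_of_nonpos h2pos hp1
          have : (0 : ℝ) ≤ 1 / (L : ℝ) := by positivity
          linarith
      _ = (2 ^ i : ℝ)⁻¹ * (Real.exp (-(Real.log 2 / L))) ^ i := by
          rw [neg_add, Real.rpow_add h2pos, Real.rpow_neg_one]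
          congr 1
          rw [← Real.exp_nat_mul, Real.rpow_def_of_pos h2pos, Real.log_pow]
          congr 1
          ring
  calc ∑ p ∈ (Finset.Ico (2 ^ i) (2 ^ (i + 1))).filter Nat.Prime, (p : ℝ) ^ (-(1 + 1 / (L : ℝ)))
      ≤ ∑ _p ∈ (Finset.Ico (2 ^ i) (2 ^ (i + 1))).filter Nat.Prime,
        (2 ^ i : ℝ)⁻¹ * (Real.exp (-(Real.log 2 / L))) ^ i := Finset.sum_le_sum hterm
    _ = ((((Finset.Ico (2 ^ i) (2 ^ (i + 1))).filter Nat.Prime).card : ℕ) : ℝ) *
        ((2 ^ i : ℝ)⁻¹ * (Real.exp (-(Real.log 2 / L))) ^ i) := by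
        rw [Finset.sum_const, nsmul_eq_mul]
    _ ≤ (44 * 2 ^ i / L) * ((2 ^ i : ℝ)⁻¹ * (Real.exp (-(Real.log 2 / L))) ^ i) :=
        mul_le_mul_of_nonneg_right hcard' (by positivity)
    _ = 44 / L * (Real.exp (-(Real.log 2 / L))) ^ i := by
        field_simp

/-- tail sums over the primes -/
theorem t5_tail (L M : ℕ) (hL : 1 ≤ L) (hM : L ≤ M) :
    ∑ p ∈ (Finset.Ico (2 ^ L) (2 ^ M)).filter Nat.Prime, (p : ℝ) ^ (-(1 + 1 / (L : ℝ))) ≤ 176 := by
  have hL' : (1 : ℝ) ≤ L := by exact_mod_cast hL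
  have hlog2 : (1 : ℝ) / 2 < Real.log 2 := by
    have := Real.log_two_gt_d9
    linarith
  have hlog2' : Real.log 2 < 1 := by
    have := Real.log_two_lt_d9
    linarith
  set r : ℝ := Real.exp (-(Real.log 2 / L)) with hr
  have ht0 : 0 < Real.log 2 / L := by positivity
  have ht1 : Real.log 2 / L ≤ 1 := by
    rw [div_le_one (by linarith)]
    linarith
  have hr0 : 0 < r := Real.exp_pos _
  have hr1 : r ≤ 1 / (1 + Real.log 2 / L) := by
    rw [hr, Real.exp_neg, one_div]
    apply inv_anti₀ (by linarith)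
    have := Real.add_one_le_exp (Real.log 2 / L)
    linarith
  have hgap : Real.log 2 / L / 2 ≤ 1 - r := by
    have : 1 / (1 + Real.log 2 / L) ≤ 1 - Real.log 2 / L / 2 := by
      rw [div_le_iff₀ (by linarith)]
      nlinarith
    linarith
  have hgap2 : 1 / (4 * (L : ℝ)) ≤ 1 - r := by
    refine le_trans ?_ hgap
    rw [div_div, div_le_div_iff₀ (by positivity) (by positivity)]
    nlinarith
  have key : ∑ p ∈ (Finset.Ico (2 ^ L) (2 ^ M)).filter Nat.Prime, (p : ℝ) ^ (-(1 + 1 / (L : ℝ))) ≤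
      ∑ i ∈ Finset.Ico L M, 44 / L * r ^ i := by
    induction M, hM using Nat.le_induction with
    | base => simp
    | succ M hM ih =>
      have e : (Finset.Ico (2 ^ L) (2 ^ (M + 1))).filter Nat.Prime =
          (Finset.Ico (2 ^ L) (2 ^ M)).filter Nat.Prime ∪
          (Finset.Ico (2 ^ M) (2 ^ (M + 1))).filter Nat.Prime := by
        rw [← Finset.filter_union]
        congr 1
        rw [Finset.Ico_union_Ico_eq_Ico (Nat.pow_le_pow_right (by norm_num) hM)
          (Nat.pow_le_pow_right (by norm_num) (Nat.le_succ M))]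
      have hd : Disjoint ((Finset.Ico (2 ^ L) (2 ^ M)).filter Nat.Prime)
          ((Finset.Ico (2 ^ M) (2 ^ (M + 1))).filter Nat.Prime) := by
        apply Finset.disjoint_filter_filter
        exact Finset.Ico_disjoint_Ico_consecutive _ _ _
      rw [e, Finset.sum_union hd, Finset.sum_Ico_succ_top hM]
      exact add_le_add ih (t5_block L M hL hM)
  refine key.trans ?_
  rw [← Finset.mul_sum]
  have hgeom : ∑ i ∈ Finset.Ico L M, r ^ i ≤ 4 * L := by
    have h1 : ∑ i ∈ Finset.Ico L M, r ^ i ≤ ∑ i ∈ Finset.range M, r ^ i := by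
      apply Finset.sum_le_sum_of_subset_of_nonneg
      · intro i hi
        rw [Finset.mem_Ico] at hi
        exact Finset.mem_range.mpr hi.2
      · intro i _ _
        positivity
    have h2 : (∑ i ∈ Finset.range M, r ^ i) * (1 - r) ≤ 1 := by
      have h3 : (∑ i ∈ Finset.range M, r ^ i) * (1 - r) = 1 - r ^ M := by
        have := geom_sum_mul r M
        linarith
      rw [h3]
      have : 0 ≤ r ^ M := by positivity
      linarith
    have h0 : 0 ≤ ∑ i ∈ Finset.range M, r ^ i := Finset.sum_nonneg (fun i _ => by positivity)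
    have h4 : (∑ i ∈ Finset.range M, r ^ i) * (1 / (4 * (L : ℝ))) ≤ 1 :=
      (mul_le_mul_of_nonneg_left hgap2 h0).trans h2
    have h5 : (∑ i ∈ Finset.range M, r ^ i) ≤ 4 * L := by
      rw [mul_one_div, div_le_one (by positivity)] at h4
      exact h4
    exact h1.trans h5
  calc 44 / (L : ℝ) * ∑ i ∈ Finset.Ico L M, r ^ i ≤ 44 / (L : ℝ) * (4 * L) :=
        mul_le_mul_of_nonneg_left hgeom (by positivity)
    _ = 176 := by
        field_simp
        norm_num

theorem t5_hasDegOne {K : Type} [Field K] [NumberField K] {p : Nat.Primes} (h : R K p ≠ 0) :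
    HasDegOne K (p : ℕ) := by
  unfold R at h
  rw [Finset.card_ne_zero] at h
  obtain ⟨v, hv⟩ := h
  rw [Finset.mem_filter] at hv
  refine ⟨v.1, ?_⟩
  have h1 := (nm_eq v.1).1
  rw [hv.2, pow_one, v.2] at h1
  exact h1

/-- finite sums over primes with `R ≠ 0` -/
theorem t5_finsum {K : Type} [Field K] [NumberField K] (L : ℕ) (hL : 1 ≤ L)
    (F : Finset Nat.Primes) :
    ∑ p ∈ F, (if R K p = 0 then 0 else 1) * w (1 + 1 / (L : ℝ)) p ≤
      (∑ p ∈ (Finset.range (2 ^ L)).filter (fun p => p.Prime ∧ HasDegOne K p), (1 : ℝ) / p) +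
        176 := by
  have hL' : (1 : ℝ) ≤ L := by exact_mod_cast hL
  rw [← Finset.sum_filter_add_sum_filter_not F (fun p : Nat.Primes => (p : ℕ) < 2 ^ L)]
  apply add_le_add
  · have h1 : ∑ p ∈ F.filter (fun p : Nat.Primes => (p : ℕ) < 2 ^ L),
        (if R K p = 0 then 0 else 1) * w (1 + 1 / (L : ℝ)) p ≤
        ∑ p ∈ (F.filter (fun p : Nat.Primes => (p : ℕ) < 2 ^ L)).filter (fun p => R K p ≠ 0),
          (1 : ℝ) / (p : ℕ) := by
      rw [Finset.sum_filter (p := fun p => R K p ≠ 0)]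
      apply Finset.sum_le_sum
      intro p _
      by_cases h : R K p = 0
      · rw [if_pos h, if_neg (by simpa using h)]
        simp
      · rw [if_neg h, if_pos h, one_mul]
        unfold w
        have hp1 : (1 : ℝ) ≤ ((p : ℕ) : ℝ) := by exact_mod_cast p.2.one_lt.le
        have e1 : (1 : ℝ) / ((p : ℕ) : ℝ) = ((p : ℕ) : ℝ) ^ (-1 : ℝ) := by
          rw [Real.rpow_neg_one, one_div]
        rw [e1]
        apply Real.rpow_le_rpow_of_exponent_le hp1
        have : (0 : ℝ) ≤ 1 / (L : ℝ) := by positivity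
        linarith
    refine h1.trans ?_
    have e : ∑ p ∈ (F.filter (fun p : Nat.Primes => (p : ℕ) < 2 ^ L)).filter (fun p => R K p ≠ 0),
          (1 : ℝ) / (p : ℕ) =
        ∑ n ∈ ((F.filter (fun p : Nat.Primes => (p : ℕ) < 2 ^ L)).filter (fun p => R K p ≠ 0)).image
          (fun p : Nat.Primes => (p : ℕ)), (1 : ℝ) / n := by
      rw [Finset.sum_image]
      intro x _ y _ hxy
      exact Subtype.ext hxy
    rw [e]
    apply Finset.sum_le_sum_of_subset_of_nonneg
    · intro n hn
      rw [Finset.mem_image] at hn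
      obtain ⟨p, hp, rfl⟩ := hn
      rw [Finset.mem_filter, Finset.mem_filter] at hp
      rw [Finset.mem_filter, Finset.mem_range]
      exact ⟨hp.1.2, p.2, t5_hasDegOne hp.2⟩
    · intro n _ _
      positivity
  · have h1 : ∑ p ∈ F.filter (fun p : Nat.Primes => ¬ (p : ℕ) < 2 ^ L),
        (if R K p = 0 then 0 else 1) * w (1 + 1 / (L : ℝ)) p ≤
        ∑ p ∈ F.filter (fun p : Nat.Primes => ¬ (p : ℕ) < 2 ^ L), ((p : ℕ) : ℝ) ^ (-(1 + 1 / (L : ℝ))) := by
      apply Finset.sum_le_sum
      intro p _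
      have h0 := w_nonneg (1 + 1 / (L : ℝ)) p
      have h2 : w (1 + 1 / (L : ℝ)) p = ((p : ℕ) : ℝ) ^ (-(1 + 1 / (L : ℝ))) := rfl
      rw [← h2]
      split_ifs
      · simpa using h0
      · simp
    refine h1.trans ?_
    have e : ∑ p ∈ F.filter (fun p : Nat.Primes => ¬ (p : ℕ) < 2 ^ L), ((p : ℕ) : ℝ) ^ (-(1 + 1 / (L : ℝ))) =
        ∑ n ∈ (F.filter (fun p : Nat.Primes => ¬ (p : ℕ) < 2 ^ L)).image
          (fun p : Nat.Primes => (p : ℕ)), (n : ℝ) ^ (-(1 + 1 / (L : ℝ))) := by
      rw [Finset.sum_image]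
      intro x _ y _ hxy
      exact Subtype.ext hxy
    rw [e]
    set G := (F.filter (fun p : Nat.Primes => ¬ (p : ℕ) < 2 ^ L)).image (fun p : Nat.Primes => (p : ℕ)) with hG
    set M : ℕ := max L (G.sup id + 1) with hM
    refine le_trans ?_ (t5_tail L M hL (le_max_left _ _))
    apply Finset.sum_le_sum_of_subset_of_nonneg
    · intro n hn
      have hn' := hn
      rw [hG, Finset.mem_image] at hn
      obtain ⟨p, hp, rfl⟩ := hn
      rw [Finset.mem_filter] at hp
      rw [Finset.mem_filter, Finset.mem_Ico]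
      refine ⟨⟨not_lt.mp hp.2, ?_⟩, p.2⟩
      have h3 : (p : ℕ) ≤ G.sup id := Finset.le_sup (f := id) hn'
      calc (p : ℕ) < 2 ^ (p : ℕ) := Nat.lt_two_pow_self
        _ ≤ 2 ^ M := Nat.pow_le_pow_right (by norm_num)
            (h3.trans ((Nat.le_succ _).trans (le_max_right _ _)))
    · intro n _ _
      positivity

theorem massK (_h : BT) (K : Type) [Field K] [NumberField K] : MassK K := by
  obtain ⟨C1, hC1⟩ := sum_R_bdd (K := K)
  obtain ⟨C2, hC2⟩ := W_sub_Lam_bdd
  set d : ℝ := (Module.finrank ℚ K : ℝ) with hd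
  have hd1 : 1 ≤ d := by
    have : 1 ≤ Module.finrank ℚ K := Module.finrank_pos
    rw [hd]
    exact_mod_cast this
  -- the pointwise inequality
  have hev : ∀ᶠ x : ℝ in 𝓝[>] 1, Lam x - (C1 + C2) ≤
      d * ∑' p : Nat.Primes, (if R K p = 0 then 0 else 1) * w x p := by
    filter_upwards [hC1, hC2, self_mem_nhdsWithin] with x h1 h2 hx
    have hx1 : (1 : ℝ) < x := hx
    have hs1 : Summable (fun p : Nat.Primes => ((R K p : ℝ) - 1) * w x p) :=
      bddmul_summable hx1 (C := Module.finrank ℚ K + 1) fun p => by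
        have a1 : (R K p : ℝ) ≤ Module.finrank ℚ K := by exact_mod_cast R_le p
        have a0 : (0 : ℝ) ≤ (R K p : ℝ) := by positivity
        rw [abs_le]
        constructor <;> linarith [Nat.cast_nonneg (α := ℝ) (Module.finrank ℚ K)]
    have hsR : Summable (fun p : Nat.Primes => (if R K p = 0 then (0:ℝ) else 1) * w x p) :=
      bddmul_summable hx1 (C := 1) fun p => by
        split_ifs <;> simp
    have hW : W x = ∑' p, w x p := rfl
    have hsum : (∑' p : Nat.Primes, ((R K p : ℝ) - 1) * w x p) + W x =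
        ∑' p : Nat.Primes, (R K p : ℝ) * w x p := by
      rw [hW, ← Summable.tsum_add hs1 (w_summable hx1)]
      refine tsum_congr fun p => ?_
      ring
    have hle : ∑' p : Nat.Primes, (R K p : ℝ) * w x p ≤
        ∑' p : Nat.Primes, d * ((if R K p = 0 then (0:ℝ) else 1) * w x p) := by
      apply Summable.tsum_le_tsum _ _ (hsR.mul_left d)
      · intro p
        have h0 := w_nonneg x p
        have a1 : (R K p : ℝ) ≤ d := by rw [hd]; exact_mod_cast R_le p
        by_cases h : R K p = 0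
        · rw [if_pos h, h]; simp
        · rw [if_neg h, one_mul]
          exact mul_le_mul_of_nonneg_right a1 h0
      · exact bddmul_summable hx1 (C := Module.finrank ℚ K) fun p => by
          rw [abs_of_nonneg (by positivity)]; exact_mod_cast R_le p
    rw [tsum_mul_left] at hle
    have k1 := (abs_le.mp h1).1
    have k2 := (abs_le.mp h2).1
    linarith
  -- specialise to x = 1 + 1/L
  have htend : Tendsto (fun L : ℕ => 1 + 1 / (L : ℝ)) atTop (𝓝[>] 1) := by
    rw [tendsto_nhdsWithin_iff]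
    constructor
    · have : Tendsto (fun L : ℕ => 1 + 1 / (L : ℝ)) atTop (𝓝 (1 + 0)) :=
        tendsto_const_nhds.add tendsto_one_div_atTop_nhds_zero_nat
      simpa using this
    · filter_upwards [eventually_ge_atTop 1] with L hL
      have hL' : (1 : ℝ) ≤ L := by exact_mod_cast hL
      have : (0 : ℝ) < 1 / (L : ℝ) := by positivity
      simp only [Set.mem_Ioi]
      linarith
  obtain ⟨L0, hL0⟩ := eventually_atTop.mp (htend.eventually hev)
  refine ⟨1 / d, (|C1 + C2|) / d + 176 + (1 / d) * Real.log (L0 + 1), by positivity, ?_⟩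
  intro L hL
  have hL' : (1 : ℝ) ≤ L := by exact_mod_cast hL
  set B : ℝ := ∑ p ∈ (Finset.range (2 ^ L)).filter (fun p => p.Prime ∧ HasDegOne K p), (1 : ℝ) / p
    with hB
  have hB0 : 0 ≤ B := Finset.sum_nonneg (fun _ _ => by positivity)
  have hlog0 : 0 ≤ Real.log ((L0 : ℝ) + 1) := Real.log_nonneg (by
    have : (0 : ℝ) ≤ L0 := by positivity
    linarith)
  have hd0 : 0 < d := by linarith
  by_cases hcase : L0 ≤ L
  · have h1 := hL0 L hcase
    have h2 : ∑' p : Nat.Primes, (if R K p = 0 then (0:ℝ) else 1) * w (1 + 1 / (L : ℝ)) p ≤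
        B + 176 := by
      apply Real.tsum_le_of_sum_le
      · intro p
        have h0 := w_nonneg (1 + 1 / (L : ℝ)) p
        show (0 : ℝ) ≤ (if R K p = 0 then (0:ℝ) else 1) * w (1 + 1 / (L : ℝ)) p
        split_ifs
        · rw [zero_mul]
        · rw [one_mul]; exact h0
      · intro F
        exact t5_finsum L hL F
    have h3 : Lam (1 + 1 / (L : ℝ)) = Real.log L := by
      unfold Lam
      congr 1
      field_simp
      ring
    rw [h3] at h1
    have h4 : Real.log L - (C1 + C2) ≤ d * (B + 176) := h1.trans (mul_le_mul_of_nonneg_left h2 hd0.le)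
    have h5 : (1 / d) * (Real.log L - (C1 + C2)) ≤ B + 176 := by
      rw [one_div, inv_mul_le_iff₀ hd0]
      exact h4
    have h6 : (1 / d) * (C1 + C2) ≤ |C1 + C2| / d := by
      rw [one_div_mul_eq_div]
      exact div_le_div_of_nonneg_right (le_abs_self _) hd0.le
    have h7 : 0 ≤ (1 / d) * Real.log (L0 + 1) := by positivity
    have h8 : (1 / d) * (Real.log L - (C1 + C2)) = (1 / d) * Real.log L - (1 / d) * (C1 + C2) := by
      ring
    linarith
  · rw [not_le] at hcase
    have h1 : Real.log L ≤ Real.log ((L0 : ℝ) + 1) := by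
      apply Real.log_le_log (by linarith)
      have : (L : ℝ) ≤ L0 := by exact_mod_cast hcase.le
      linarith
    have h2 : (1 / d) * Real.log L ≤ (1 / d) * Real.log ((L0 : ℝ) + 1) :=
      mul_le_mul_of_nonneg_left h1 (by positivity)
    have h3 : 0 ≤ |C1 + C2| / d := by positivity
    linarith

end Pool.Agent.H692R2.USS
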