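import Pool.Agent.H692R2.USS.T4

set_option autoImplicit false

/-!
# Universal Skolem sets of density one: one block of primes (task T7)
-/

namespace Pool.Agent.H692R2.USS

open Finset
open scoped Classical

namespace T7

theorem len_facts {K0 β l : ℕ} (hK : 0 < K0) (hl : 2 * K0 * (β + 1) ≤ l) :
    l ≤ 2 * K0 * (l / K0 - β) ∧ β + (l / K0 - β) = l / K0 ∧ l / K0 - β ≤ l := by
  have h1 : l < K0 * (l / K0 + 1) := Nat.lt_mul_div_succ l hK
  have h2 : 2 * (β + 1) ≤ l / K0 := by
    rw [Nat.le_div_iff_mul_le hK]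
    calc 2 * (β + 1) * K0 = 2 * K0 * (β + 1) := by ring
      _ ≤ l := hl
  have h4 : l / K0 ≤ l := Nat.div_le_self _ _
  obtain ⟨e, he⟩ : ∃ e, l / K0 = 2 * (β + 1) + e := ⟨l / K0 - 2 * (β + 1), by omega⟩
  refine ⟨?_, by omega, by omega⟩
  have h5 : l / K0 - β = β + 2 + e := by omega
  rw [h5]
  rw [he] at h1
  nlinarith [Nat.zero_le (K0 * e), Nat.zero_le (K0 * β)]

end T7

open T7 in
/-- One block of primes catches almost all `n`. -/
theorem block (hG : GcdSum) (k : ℕ) (hk : 1 ≤ k) (hm : Mass k) : Block k := by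
  intro β x ε hε
  obtain ⟨CG, hCG, hG⟩ := hG
  obtain ⟨c, C, hc, hm⟩ := hm
  set K0 : ℕ := 4 * k * (k + 1) with hK0
  have hK0pos : 0 < K0 := by positivity
  have hK0r : (1 : ℝ) ≤ K0 := by exact_mod_cast hK0pos
  set x' : ℕ := max x (2 ^ (2 * K0 * (β + 1))) with hx'
  set Cx : ℝ := ∑ p ∈ range x', (1 : ℝ) / p with hCx
  have hCx0 : 0 ≤ Cx := Finset.sum_nonneg fun p _ => by positivity
  set C2 : ℝ := |C| + Cx with hC2
  have hC20 : 0 ≤ C2 := by positivity
  set A : ℝ := 8 * K0 / c + 384 * CG * K0 ^ 2 / c ^ 2 with hA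
  have hA0 : 0 < A := by positivity
  set Y : ℝ := max 1 (max (2 * C2 / c) (A / ε)) with hY
  have hY1 : 1 ≤ Y := le_max_left _ _
  have hY2 : 2 * C2 / c ≤ Y := (le_max_left _ _).trans (le_max_right _ _)
  have hY3 : A / ε ≤ Y := (le_max_right _ _).trans (le_max_right _ _)
  set L : ℕ := ⌈Real.exp Y⌉₊ with hL
  have hLexp : Real.exp Y ≤ L := Nat.le_ceil _
  have hL1 : (1 : ℝ) ≤ L := (Real.one_le_exp (by linarith)).trans hLexp
  have hL1' : 1 ≤ L := by exact_mod_cast hL1
  set y : ℝ := Real.log L with hy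
  have hyY : Y ≤ y := by
    rw [hy, Real.le_log_iff_exp_le (by linarith)]
    exact hLexp
  refine ⟨L, fun M hM hMp => ?_⟩
  set Q : Finset ℕ := ((range (2 ^ L)).filter (fun p => p.Prime ∧ SplitAll k p)).filter
    (fun p => x' ≤ p) with hQ
  have hQmem : ∀ p ∈ Q, p < 2 ^ L ∧ p.Prime ∧ SplitAll k p ∧ x' ≤ p := by
    intro p hp
    rw [hQ, Finset.mem_filter, Finset.mem_filter, Finset.mem_range] at hp
    exact ⟨hp.1.1, hp.1.2.1, hp.1.2.2, hp.2⟩
  have hlog : ∀ p ∈ Q, 2 * K0 * (β + 1) ≤ Nat.log 2 p := by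
    intro p hp
    apply Nat.le_log_of_pow_le (by norm_num)
    exact (le_max_right _ _).trans (hQmem p hp).2.2.2
  set len : ℕ → ℕ := fun p => Nat.log 2 p / K0 - β with hlen
  set w : ℕ → ℝ := fun p => 1 / ((Nat.log 2 p : ℝ) + 1) with hw
  have hw0 : ∀ p, 0 ≤ w p := fun p => by rw [hw]; positivity
  have hw1 : ∀ p, w p ≤ 1 := by
    intro p
    rw [hw]
    simp only
    rw [div_le_one (by positivity)]
    have : (0 : ℝ) ≤ Nat.log 2 p := Nat.cast_nonneg _
    linarith
  have key := second_moment Q (fun _ => β) len w M hM (fun p hp => (hQmem p hp).2.1.two_le)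
    (by
      intro p hp
      have h1 := (len_facts hK0pos (hlog p hp)).2.1
      have h2 : Nat.log 2 p < p := Nat.log_lt_self 2 (hQmem p hp).2.1.ne_zero
      have h3 : Nat.log 2 p / K0 ≤ Nat.log 2 p := Nat.div_le_self _ _
      simp only [hlen]
      omega)
    (fun p hp => hMp p (hQmem p hp).2.1 (hQmem p hp).1) (fun p _ => hw0 p)
  -- the exceptional set is contained in the one of `second_moment`
  have hsub : (((Finset.range M).filter (fun n => ∀ p, p.Prime → SplitAll k p → x ≤ p →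
      p < 2 ^ L → ¬ (β ≤ n % (p - 1) ∧ K0 * (n % (p - 1) + 1) ≤ Nat.log 2 p))).card : ℝ) ≤
      (((Finset.range M).filter (fun n => ∀ p ∈ Q,
      ¬ ((fun _ => β) p ≤ n % (p - 1) ∧ n % (p - 1) < (fun _ => β) p + len p))).card : ℝ) := by
    norm_cast
    apply Finset.card_le_card
    intro n hn
    rw [Finset.mem_filter] at hn ⊢
    refine ⟨hn.1, fun p hp hcon => ?_⟩
    obtain ⟨h1, h2, h3, h4⟩ := hQmem p hp
    refine hn.2 p h2 h3 ((le_max_left _ _).trans h4) h1 ⟨hcon.1, ?_⟩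
    have h5 := (len_facts hK0pos (hlog p hp)).2.1
    have h6 : n % (p - 1) < Nat.log 2 p / K0 := by
      have := hcon.2
      simp only [hlen] at this
      omega
    have h7 : (n % (p - 1) + 1) * K0 ≤ Nat.log 2 p := by
      rw [← Nat.le_div_iff_mul_le hK0pos]
      exact h6
    rwa [mul_comm] at h7
  refine hsub.trans ?_
  set N : ℝ := (((Finset.range M).filter (fun n => ∀ p ∈ Q,
      ¬ ((fun _ => β) p ≤ n % (p - 1) ∧ n % (p - 1) < (fun _ => β) p + len p))).card : ℝ) with hN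
  have hN0 : 0 ≤ N := Nat.cast_nonneg _
  set E1 : ℝ := ∑ p ∈ Q, w p * len p / ((p : ℝ) - 1) with hE1
  -- facts on `w` and `len`
  have hp1 : ∀ p ∈ Q, (1 : ℝ) ≤ (p : ℝ) - 1 := by
    intro p hp
    have : (2 : ℝ) ≤ p := by exact_mod_cast (hQmem p hp).2.1.two_le
    linarith
  have hwlen_le : ∀ p ∈ Q, w p * len p ≤ 1 := by
    intro p hp
    have h1 := (len_facts hK0pos (hlog p hp)).2.2
    have h2 : (len p : ℝ) ≤ Nat.log 2 p := by exact_mod_cast h1
    rw [hw]
    simp only
    rw [div_mul_eq_mul_div, one_mul, div_le_one (by positivity)]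
    linarith
  have hwlen_ge : ∀ p ∈ Q, 1 / (4 * (K0 : ℝ)) ≤ w p * len p := by
    intro p hp
    have h1 := (len_facts hK0pos (hlog p hp)).1
    have h2 : (Nat.log 2 p : ℝ) ≤ 2 * K0 * len p := by exact_mod_cast h1
    have h3 : (1 : ℝ) ≤ Nat.log 2 p := by
      have h4 := hlog p hp
      have h5 : 1 ≤ Nat.log 2 p := le_trans (by
        have : 1 ≤ 2 * K0 * (β + 1) := Nat.one_le_iff_ne_zero.2 (by positivity)
        exact this) h4
      exact_mod_cast h5
    rw [hw]
    simp only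
    rw [div_mul_eq_mul_div, one_mul, div_le_div_iff₀ (by positivity) (by positivity)]
    nlinarith
  have hE1ge : 1 / (4 * (K0 : ℝ)) * ∑ p ∈ Q, (1 : ℝ) / p ≤ E1 := by
    rw [hE1, Finset.mul_sum]
    apply Finset.sum_le_sum
    intro p hp
    have h1 := hp1 p hp
    have h2 := hwlen_ge p hp
    have h3 : (1 : ℝ) / p ≤ 1 / ((p : ℝ) - 1) := by
      apply one_div_le_one_div_of_le (by linarith)
      linarith
    calc 1 / (4 * (K0 : ℝ)) * (1 / p) ≤ (w p * len p) * (1 / ((p : ℝ) - 1)) := by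
          apply mul_le_mul h2 h3 (by positivity)
          exact le_trans (by positivity) h2
      _ = w p * len p / ((p : ℝ) - 1) := by ring
  have hsumQ : c * y - C2 ≤ ∑ p ∈ Q, (1 : ℝ) / p := by
    have h1 := hm L hL1'
    have h2 := Finset.sum_filter_add_sum_filter_not
      ((range (2 ^ L)).filter (fun p => p.Prime ∧ SplitAll k p)) (fun p => x' ≤ p)
      (fun p : ℕ => (1 : ℝ) / p)
    have h3 : ∑ p ∈ ((range (2 ^ L)).filter (fun p => p.Prime ∧ SplitAll k p)).filter
        (fun p => ¬ x' ≤ p), (1 : ℝ) / p ≤ Cx := by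
      rw [hCx]
      apply Finset.sum_le_sum_of_subset_of_nonneg
      · intro p hp
        rw [Finset.mem_filter] at hp
        rw [Finset.mem_range]
        omega
      · intro p _ _
        positivity
    have h4 := le_abs_self C
    rw [← h2, ← hQ] at h1
    rw [hC2]
    linarith
  have hcy : c * y / 2 ≤ c * y - C2 := by
    have h1 : 2 * C2 / c ≤ y := hY2.trans hyY
    rw [div_le_iff₀ hc] at h1
    linarith
  have hy1 : 1 ≤ y := hY1.trans hyY
  set e : ℝ := c * y / (8 * K0) with he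
  have he0 : 0 < e := by positivity
  have hE1e : e ≤ E1 := by
    refine le_trans ?_ hE1ge
    have h1 : c * y / 2 ≤ ∑ p ∈ Q, (1 : ℝ) / p := hcy.trans hsumQ
    calc e = 1 / (4 * (K0 : ℝ)) * (c * y / 2) := by rw [he]; ring
      _ ≤ _ := by
        apply mul_le_mul_of_nonneg_left h1
        positivity
  have hE1pos : 0 < E1 := lt_of_lt_of_le he0 hE1e
  -- the variance
  have hV1 : ∑ p ∈ Q, (w p) ^ 2 * len p / ((p : ℝ) - 1) ≤ E1 := by
    rw [hE1]
    apply Finset.sum_le_sum
    intro p hp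
    have h1 := hp1 p hp
    have h2 : (w p) ^ 2 * len p ≤ w p * len p := by
      have h3 := hw0 p
      have h4 := hw1 p
      have h5 : (0 : ℝ) ≤ len p := Nat.cast_nonneg _
      have h6 : (w p) ^ 2 ≤ w p := by nlinarith
      exact mul_le_mul_of_nonneg_right h6 h5
    apply div_le_div_of_nonneg_right h2
    linarith
  have hV2 : ∑ p' ∈ Q, ∑ p ∈ Q.filter (fun p => p < p'), w p * w p' * len p *
        ((Nat.gcd (p - 1) (p' - 1) : ℕ) : ℝ) / (((p : ℝ) - 1) * ((p' : ℝ) - 1)) ≤
      CG * (1 + Real.log ((L : ℝ) + 1)) := by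
    refine le_trans ?_ (hG L)
    have hterm : ∀ p' p : ℕ, p.Prime → p'.Prime → (0 : ℝ) ≤
        ((Nat.gcd (p - 1) (p' - 1) : ℕ) : ℝ) /
          (((p : ℝ) - 1) * ((p' : ℝ) - 1) * ((Nat.log 2 p' : ℝ) + 1)) := by
      intro p' p hp hp'
      have h1 : (2 : ℝ) ≤ p := by exact_mod_cast hp.two_le
      have h2 : (2 : ℝ) ≤ p' := by exact_mod_cast hp'.two_le
      have h3 : (0 : ℝ) < (p : ℝ) - 1 := by linarith
      have h4 : (0 : ℝ) < (p' : ℝ) - 1 := by linarith
      positivity
    refine le_trans (b := ∑ p' ∈ Q, ∑ p ∈ (Finset.range p').filter Nat.Prime,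
      ((Nat.gcd (p - 1) (p' - 1) : ℕ) : ℝ) /
        (((p : ℝ) - 1) * ((p' : ℝ) - 1) * ((Nat.log 2 p' : ℝ) + 1))) ?_ ?_
    · apply Finset.sum_le_sum
      intro p' hp'
      refine le_trans (b := ∑ p ∈ Q.filter (fun p => p < p'),
        ((Nat.gcd (p - 1) (p' - 1) : ℕ) : ℝ) /
        (((p : ℝ) - 1) * ((p' : ℝ) - 1) * ((Nat.log 2 p' : ℝ) + 1))) ?_ ?_
      · apply Finset.sum_le_sum
        intro p hp
        have hpQ := (Finset.mem_filter.1 hp).1
        have h1 := hp1 p hpQ
        have h2 := hp1 p' hp'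
        have h3 := hwlen_le p hpQ
        have h4 : w p' = 1 / ((Nat.log 2 p' : ℝ) + 1) := rfl
        have h5 : w p * w p' * len p * ((Nat.gcd (p - 1) (p' - 1) : ℕ) : ℝ) /
            (((p : ℝ) - 1) * ((p' : ℝ) - 1)) = (w p * len p) *
            (((Nat.gcd (p - 1) (p' - 1) : ℕ) : ℝ) /
            (((p : ℝ) - 1) * ((p' : ℝ) - 1) * ((Nat.log 2 p' : ℝ) + 1))) := by
          rw [h4]
          field_simp
        rw [h5]
        have h6 := hterm p' p (hQmem p hpQ).2.1 (hQmem p' hp').2.1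
        exact (mul_le_mul_of_nonneg_right h3 h6).trans (one_mul _).le
      · apply Finset.sum_le_sum_of_subset_of_nonneg
        · intro p hp
          rw [Finset.mem_filter] at hp
          rw [Finset.mem_filter, Finset.mem_range]
          exact ⟨hp.2, (hQmem p hp.1).2.1⟩
        · intro p hp _
          exact hterm p' p (Finset.mem_filter.1 hp).2 (hQmem p' hp').2.1
    · apply Finset.sum_le_sum_of_subset_of_nonneg
      · intro p' hp'
        rw [Finset.mem_filter, Finset.mem_range]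
        exact ⟨(hQmem p' hp').1, (hQmem p' hp').2.1⟩
      · intro p' hp' _
        apply Finset.sum_nonneg
        intro p hp
        exact hterm p' p (Finset.mem_filter.1 hp).2 (Finset.mem_filter.1 hp').2
  have hlogL : Real.log ((L : ℝ) + 1) ≤ y + 1 := by
    have h1 : (L : ℝ) + 1 ≤ L * 2 := by linarith
    have h2 : Real.log ((L : ℝ) + 1) ≤ Real.log (L * 2) :=
      Real.log_le_log (by linarith) h1
    rw [Real.log_mul (by linarith) (by norm_num)] at h2
    have h3 := Real.log_two_lt_d9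
    linarith
  have hR : CG * (1 + Real.log ((L : ℝ) + 1)) ≤ 3 * CG * y := by
    have : 1 + Real.log ((L : ℝ) + 1) ≤ 3 * y := by linarith
    nlinarith
  have hfin : N * E1 ^ 2 ≤ M * (E1 + 2 * (3 * CG * y)) := by
    refine key.trans ?_
    apply mul_le_mul_of_nonneg_left _ (Nat.cast_nonneg _)
    linarith
  -- conclusion
  have hMr : (0 : ℝ) < M := by exact_mod_cast hM
  have h1 : N ≤ M * (1 / E1 + 2 * (3 * CG * y) / E1 ^ 2) := by
    have h2 : M * (1 / E1 + 2 * (3 * CG * y) / E1 ^ 2) =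
        (M * (E1 + 2 * (3 * CG * y))) / E1 ^ 2 := by
      field_simp
    rw [h2, le_div_iff₀ (by positivity)]
    exact hfin
  have h2 : 1 / E1 ≤ 1 / e := one_div_le_one_div_of_le he0 hE1e
  have h3 : 2 * (3 * CG * y) / E1 ^ 2 ≤ 2 * (3 * CG * y) / e ^ 2 := by
    apply div_le_div_of_nonneg_left (by positivity) (by positivity)
    exact pow_le_pow_left₀ he0.le hE1e 2
  have h4 : 1 / e + 2 * (3 * CG * y) / e ^ 2 = A / y := by
    rw [he, hA]
    field_simp
    ring
  have h5 : A / y ≤ ε := by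
    rw [div_le_iff₀ (by linarith)]
    have : A / ε ≤ y := hY3.trans hyY
    rw [div_le_iff₀ hε] at this
    linarith
  calc N ≤ M * (1 / E1 + 2 * (3 * CG * y) / E1 ^ 2) := h1
    _ ≤ M * (1 / e + 2 * (3 * CG * y) / e ^ 2) := by
        apply mul_le_mul_of_nonneg_left _ hMr.le
        linarith
    _ ≤ M * ε := by
        apply mul_le_mul_of_nonneg_left _ hMr.le
        rw [h4]
        exact h5
    _ = ε * M := mul_comm _ _

end Pool.Agent.H692R2.USS
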