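import Pool.Agent.H692R2.USS.Iface

set_option autoImplicit false

/-!
# Universal Skolem sets: task T8, few `n` are non-generic
-/

namespace Pool.Agent.H692R2.USS

open Polynomial Finset
open scoped Classical

namespace T8

lemma roots_le (k p s : ℕ) (hp : p.Prime) (hs : 2 ^ s ≤ p) (f : ℤ[X]) (hf : f ≠ 0)
    (hd : f.natDegree ≤ k) (hc : ∀ i, |f.coeff i| < 2 ^ s) :
    ((range p).filter (fun ν : ℕ => (p : ℤ) ∣ f.eval (ν : ℤ))).card ≤ k := by
  have : Fact p.Prime := ⟨hp⟩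
  set F := f.map (Int.castRingHom (ZMod p)) with hF
  have hF0 : F ≠ 0 := by
    intro h
    apply hf
    ext i
    have h1 : F.coeff i = 0 := by rw [h]; simp
    rw [hF, coeff_map] at h1
    have h2 : ((f.coeff i : ℤ) : ZMod p) = 0 := by simpa using h1
    rw [ZMod.intCast_zmod_eq_zero_iff_dvd] at h2
    have h3 : |f.coeff i| < p := (hc i).trans_le (by exact_mod_cast hs)
    rw [coeff_zero]
    exact Int.eq_zero_of_abs_lt_dvd h2 h3
  have h1 : ((range p).filter (fun ν : ℕ => (p : ℤ) ∣ f.eval (ν : ℤ))).card ≤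
      F.roots.toFinset.card := by
    refine Finset.card_le_card_of_injOn (fun ν : ℕ => (ν : ZMod p)) ?_ ?_
    · intro ν hν
      have hν' := (Finset.mem_filter.1 hν).2
      rw [Finset.mem_coe, Multiset.mem_toFinset, mem_roots hF0, IsRoot.def, hF]
      have h2 : (f.map (Int.castRingHom (ZMod p))).eval ((Int.castRingHom (ZMod p)) (ν : ℤ)) =
          (Int.castRingHom (ZMod p)) (f.eval (ν : ℤ)) := eval_map_apply _ _
      have h3 : (Int.castRingHom (ZMod p)) (ν : ℤ) = (ν : ZMod p) := by simp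
      rw [h3] at h2
      rw [h2]
      have h4 := (ZMod.intCast_zmod_eq_zero_iff_dvd (f.eval (ν : ℤ)) p).2 hν'
      simpa using h4
    · intro a ha b hb hab
      have ha' := Finset.mem_range.1 (Finset.mem_filter.1 ha).1
      have hb' := Finset.mem_range.1 (Finset.mem_filter.1 hb).1
      have h2 := (ZMod.natCast_eq_natCast_iff' a b p).1 hab
      rwa [Nat.mod_eq_of_lt ha', Nat.mod_eq_of_lt hb'] at h2
  calc _ ≤ F.roots.toFinset.card := h1
    _ ≤ F.roots.card := Multiset.toFinset_card_le _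
    _ ≤ F.natDegree := card_roots' _
    _ ≤ f.natDegree := natDegree_map_le
    _ ≤ k := hd

lemma card_bad_res (k p : ℕ) (hp : p.Prime) :
    ((range p).filter (fun ν => ¬ Generic k p ν)).card ≤
      k * (2 ^ (k + 1) * 2 ^ (Nat.log 2 p / 4)) := by
  set s := Nat.log 2 p / (4 * (k + 1)) with hs
  have hsp : 2 ^ s ≤ p := by
    calc 2 ^ s ≤ 2 ^ Nat.log 2 p := Nat.pow_le_pow_right (by norm_num) (Nat.div_le_self _ _)
      _ ≤ p := Nat.pow_log_le_self 2 hp.ne_zero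
  set Cs : Finset (Fin (k + 1) → ℤ) := Fintype.piFinset (fun _ => Finset.Ioo (-2 ^ s : ℤ) (2 ^ s))
    with hCs
  set P : (Fin (k + 1) → ℤ) → ℤ[X] := fun c => ∑ i : Fin (k + 1), monomial (i : ℕ) (c i) with hP
  set I := Cs.filter (fun c => P c ≠ 0 ∧ (P c).natDegree ≤ k ∧ ∀ i, |(P c).coeff i| < 2 ^ s)
    with hI
  have hsub : (range p).filter (fun ν => ¬ Generic k p ν) ⊆
      I.biUnion (fun c => (range p).filter (fun ν : ℕ => (p : ℤ) ∣ (P c).eval (ν : ℤ))) := by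
    intro ν hν
    obtain ⟨h1, h2⟩ := Finset.mem_filter.1 hν
    unfold Generic at h2
    push Not at h2
    obtain ⟨f, hf0, hfd, hfc, hfp⟩ := h2
    have hPf : P (fun i => f.coeff i) = f := by
      rw [hP]
      conv_rhs => rw [f.as_sum_range' (k + 1) (Nat.lt_succ_of_le hfd)]
      rw [Finset.sum_range]
    refine Finset.mem_biUnion.2 ⟨fun i => f.coeff i, ?_, ?_⟩
    · rw [hI, Finset.mem_filter, hPf]
      refine ⟨?_, hf0, hfd, hfc⟩
      rw [hCs, Fintype.mem_piFinset]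
      intro i
      rw [Finset.mem_Ioo]
      exact abs_lt.1 (hfc i)
    · rw [Finset.mem_filter, hPf]
      exact ⟨h1, hfp⟩
  have hcard : I.card ≤ 2 ^ (k + 1) * 2 ^ (Nat.log 2 p / 4) := by
    calc I.card ≤ Cs.card := Finset.card_filter_le _ _
      _ = (2 ^ s + 2 ^ s - 1) ^ (k + 1) := by
        rw [hCs, Fintype.card_piFinset_const, Int.card_Ioo]
        congr 1
        have : (2 ^ s - (-2 ^ s) - 1 : ℤ) = ((2 ^ s + 2 ^ s - 1 : ℕ) : ℤ) := by
          have h1 : 1 ≤ 2 ^ s := Nat.one_le_two_pow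
          push_cast [Nat.cast_sub (show 1 ≤ 2 ^ s + 2 ^ s by omega)]
          ring
        rw [this, Int.toNat_natCast]
      _ ≤ (2 ^ (s + 1)) ^ (k + 1) := by
        apply Nat.pow_le_pow_left
        rw [pow_succ]
        omega
      _ = 2 ^ ((k + 1) + s * (k + 1)) := by
        rw [← pow_mul]
        congr 1
        ring
      _ ≤ 2 ^ ((k + 1) + Nat.log 2 p / 4) := by
        apply Nat.pow_le_pow_right (by norm_num)
        have h1 : s * (4 * (k + 1)) ≤ Nat.log 2 p := Nat.div_mul_le_self _ _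
        have h2 : s * (k + 1) ≤ Nat.log 2 p / 4 := by
          rw [Nat.le_div_iff_mul_le (by norm_num)]
          calc s * (k + 1) * 4 = s * (4 * (k + 1)) := by ring
            _ ≤ _ := h1
        omega
      _ = _ := pow_add _ _ _
  calc _ ≤ (I.biUnion (fun c => (range p).filter (fun ν : ℕ => (p : ℤ) ∣ (P c).eval (ν : ℤ)))).card :=
        Finset.card_le_card hsub
    _ ≤ ∑ c ∈ I, ((range p).filter (fun ν : ℕ => (p : ℤ) ∣ (P c).eval (ν : ℤ))).card :=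
        Finset.card_biUnion_le
    _ ≤ ∑ c ∈ I, k := by
        refine Finset.sum_le_sum fun c hc => ?_
        obtain ⟨_, h1, h2, h3⟩ := Finset.mem_filter.1 hc
        exact roots_le k p s hp hsp (P c) h1 h2 h3
    _ = k * I.card := by rw [Finset.sum_const, smul_eq_mul, mul_comm]
    _ ≤ _ := Nat.mul_le_mul_left _ hcard

lemma not_generic_mod (k p n : ℕ) (h : ¬ Generic k p n) : ¬ Generic k p (n % p) := by
  unfold Generic at h ⊢
  push Not at h ⊢
  obtain ⟨f, h0, hd, hc, hp⟩ := h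
  refine ⟨f, h0, hd, hc, ?_⟩
  have h1 : ((n : ℤ) - ((n % p : ℕ) : ℤ)) ∣ f.eval (n : ℤ) - f.eval ((n % p : ℕ) : ℤ) :=
    sub_dvd_eval_sub _ _ _
  have h2 : (p : ℤ) ∣ (n : ℤ) - ((n % p : ℕ) : ℤ) := by
    refine ⟨((n / p : ℕ) : ℤ), ?_⟩
    have h3 : ((p * (n / p) + n % p : ℕ) : ℤ) = (n : ℤ) := by rw [Nat.div_add_mod]
    push_cast at h3 ⊢
    linear_combination (-1 : ℤ) * h3
  exact (dvd_sub_right hp).1 (h2.trans h1)

lemma fiber (M p : ℕ) (hp : 2 ≤ p) (hd : p * (p - 1) ∣ M) (a ν : ℕ) :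
    ((range M).filter (fun n => n % (p - 1) = a ∧ n % p = ν)).card ≤ M / (p * (p - 1)) := by
  have hq : 0 < p * (p - 1) := Nat.mul_pos (by omega) (by omega)
  have hcop : Nat.Coprime p (p - 1) := by
    obtain ⟨m, rfl⟩ : ∃ m, p = m + 1 := ⟨p - 1, by omega⟩
    simp
  rw [← Finset.card_range (M / (p * (p - 1)))]
  refine Finset.card_le_card_of_injOn (fun n => n / (p * (p - 1))) ?_ ?_
  · intro n hn
    have h1 := Finset.mem_range.1 (Finset.mem_filter.1 hn).1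
    rw [Finset.mem_coe, Finset.mem_range]
    exact Nat.div_lt_div_of_lt_of_dvd hd h1
  · intro x hx y hy hxy
    obtain ⟨_, hx1, hx2⟩ := Finset.mem_filter.1 hx
    obtain ⟨_, hy1, hy2⟩ := Finset.mem_filter.1 hy
    have h1 : x ≡ y [MOD p] := by
      unfold Nat.ModEq
      rw [hx2, hy2]
    have h2 : x ≡ y [MOD (p - 1)] := by
      unfold Nat.ModEq
      rw [hx1, hy1]
    have h3 : x ≡ y [MOD p * (p - 1)] := (Nat.modEq_and_modEq_iff_modEq_mul hcop).1 ⟨h1, h2⟩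
    rw [← Nat.div_add_mod x (p * (p - 1)), ← Nat.div_add_mod y (p * (p - 1))]
    have h4 : x / (p * (p - 1)) = y / (p * (p - 1)) := hxy
    rw [h4, h3]

lemma bad_card (k p M : ℕ) (hk : 1 ≤ k) (hp : p.Prime) (hd : p * (p - 1) ∣ M) :
    ((range M).filter (fun n => 4 * k * (k + 1) * (n % (p - 1) + 1) ≤ Nat.log 2 p ∧
      ¬ Generic k p n)).card ≤
      M / (p * (p - 1)) * (Nat.log 2 p * (k * (2 ^ (k + 1) * 2 ^ (Nat.log 2 p / 4)))) := by
  set B := (range M).filter (fun n => 4 * k * (k + 1) * (n % (p - 1) + 1) ≤ Nat.log 2 p ∧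
      ¬ Generic k p n) with hB
  have h1 : B.card ≤ M / (p * (p - 1)) * (B.image (fun n => (n % (p - 1), n % p))).card := by
    refine Finset.card_le_mul_card_image B _ ?_
    rintro ⟨a, ν⟩ _
    refine (Finset.card_le_card ?_).trans (fiber M p hp.two_le hd a ν)
    intro n hn
    obtain ⟨h2, h3⟩ := Finset.mem_filter.1 hn
    have h4 := Prod.ext_iff.1 h3
    exact Finset.mem_filter.2 ⟨(Finset.mem_filter.1 h2).1, h4.1, h4.2⟩
  refine h1.trans (Nat.mul_le_mul_left _ ?_)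
  have h2 : B.image (fun n => (n % (p - 1), n % p)) ⊆
      range (Nat.log 2 p) ×ˢ ((range p).filter (fun ν => ¬ Generic k p ν)) := by
    intro x hx
    obtain ⟨n, hn, rfl⟩ := Finset.mem_image.1 hx
    obtain ⟨_, h3, h4⟩ := Finset.mem_filter.1 hn
    rw [Finset.mem_product, Finset.mem_range, Finset.mem_filter, Finset.mem_range]
    refine ⟨?_, Nat.mod_lt _ hp.pos, not_generic_mod k p n h4⟩
    have h5 : 1 ≤ 4 * k * (k + 1) := Nat.mul_pos (by omega) (by omega)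
    have h6 : n % (p - 1) + 1 ≤ 4 * k * (k + 1) * (n % (p - 1) + 1) := Nat.le_mul_of_pos_left _ h5
    change n % (p - 1) < Nat.log 2 p
    omega
  refine (Finset.card_le_card h2).trans ?_
  rw [Finset.card_product, Finset.card_range]
  exact Nat.mul_le_mul_left _ (card_bad_res k p hp)

lemma log_bound (p : ℕ) (hp : 1 ≤ p) :
    ((Nat.log 2 p : ℕ) : ℝ) * 2 ^ (Nat.log 2 p / 4) ≤ 4 * Real.sqrt p := by
  set l := Nat.log 2 p with hl
  set a := l / 4 with ha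
  have h1 : l ≤ 4 * a + 3 := by omega
  have h2 : a + 1 ≤ 2 ^ a := Nat.lt_two_pow_self
  have h3 : 2 ^ (4 * a) ≤ p := by
    calc 2 ^ (4 * a) ≤ 2 ^ l := Nat.pow_le_pow_right (by norm_num) (by omega)
      _ ≤ p := Nat.pow_log_le_self 2 (by omega)
  have h4 : ((2 : ℝ) ^ (2 * a)) ≤ Real.sqrt p := by
    apply Real.le_sqrt_of_sq_le
    rw [← pow_mul]
    have h5 : ((2 ^ (4 * a) : ℕ) : ℝ) ≤ p := by exact_mod_cast h3
    push_cast at h5
    calc (2 : ℝ) ^ (2 * a * 2) = 2 ^ (4 * a) := by ring_nf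
      _ ≤ p := h5
  have h6 : (l : ℝ) ≤ 4 * 2 ^ a := by
    have h7 : l ≤ 4 * 2 ^ a := by omega
    exact_mod_cast h7
  calc (l : ℝ) * 2 ^ a ≤ (4 * 2 ^ a) * 2 ^ a := by gcongr
    _ = 4 * 2 ^ (2 * a) := by rw [two_mul, pow_add]; ring
    _ ≤ _ := by gcongr

lemma bad_real (k p M : ℕ) (hk : 1 ≤ k) (hp : p.Prime) (hd : p * (p - 1) ∣ M) :
    (((range M).filter (fun n => 4 * k * (k + 1) * (n % (p - 1) + 1) ≤ Nat.log 2 p ∧
      ¬ Generic k p n)).card : ℝ) ≤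
      M * ((8 * k * 2 ^ (k + 1)) * (1 / (p : ℝ) ^ (3 / 2 : ℝ))) := by
  have h1 : (((range M).filter (fun n => 4 * k * (k + 1) * (n % (p - 1) + 1) ≤ Nat.log 2 p ∧
      ¬ Generic k p n)).card : ℝ) ≤
      ((M / (p * (p - 1)) * (Nat.log 2 p * (k * (2 ^ (k + 1) * 2 ^ (Nat.log 2 p / 4)))) : ℕ) : ℝ) := by
    exact_mod_cast bad_card k p M hk hp hd
  refine h1.trans ?_
  have hp2 : (2 : ℝ) ≤ p := by exact_mod_cast hp.two_le
  have hp0 : (0 : ℝ) < p := by linarith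
  have h2 : ((M / (p * (p - 1)) : ℕ) : ℝ) ≤ M * (2 / (p : ℝ) ^ 2) := by
    refine (Nat.cast_div_le).trans ?_
    rw [div_eq_mul_inv]
    have h3 : (((p * (p - 1) : ℕ) : ℝ))⁻¹ ≤ 2 / (p : ℝ) ^ 2 := by
      rw [Nat.cast_mul, Nat.cast_sub hp.one_le, Nat.cast_one, inv_eq_one_div,
        div_le_div_iff₀ (by nlinarith) (by positivity)]
      nlinarith
    gcongr
  have h3 := log_bound p hp.one_le
  have h4 : Real.sqrt p = (p : ℝ) ^ 2 / (p : ℝ) ^ (3 / 2 : ℝ) := by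
    rw [Real.sqrt_eq_rpow, ← Real.rpow_natCast (p : ℝ) 2, ← Real.rpow_sub hp0]
    norm_num
  push_cast
  calc ((M / (p * (p - 1)) : ℕ) : ℝ) * (((Nat.log 2 p : ℕ) : ℝ) *
        ((k : ℝ) * (2 ^ (k + 1) * 2 ^ (Nat.log 2 p / 4))))
      = ((M / (p * (p - 1)) : ℕ) : ℝ) * (k * 2 ^ (k + 1)) *
        (((Nat.log 2 p : ℕ) : ℝ) * 2 ^ (Nat.log 2 p / 4)) := by ring
    _ ≤ (M * (2 / (p : ℝ) ^ 2)) * (k * 2 ^ (k + 1)) * (4 * Real.sqrt p) := by gcongr
    _ = _ := by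
        rw [h4]
        field_simp
        ring

end T8

open T8

theorem nonGen (k : ℕ) (hk : 1 ≤ k) : NonGen k := by
  intro ε hε
  set K : ℝ := 8 * k * 2 ^ (k + 1) with hK
  have hK0 : 0 ≤ K := by positivity
  have hsum : Summable (fun n : ℕ => K * (1 / (n : ℝ) ^ (3 / 2 : ℝ))) :=
    (Real.summable_one_div_nat_rpow.2 (by norm_num)).mul_left K
  have hlim := tendsto_sum_nat_add (fun n : ℕ => K * (1 / (n : ℝ) ^ (3 / 2 : ℝ)))
  obtain ⟨x, hx⟩ := ((hlim.eventually (gt_mem_nhds hε))).exists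
  refine ⟨x, fun L M hM hdiv => ?_⟩
  set Ps := (Finset.Ico x (2 ^ L)).filter Nat.Prime with hPs
  have hsub : (range M).filter (fun n => ∃ p, p.Prime ∧ x ≤ p ∧ p < 2 ^ L ∧
      4 * k * (k + 1) * (n % (p - 1) + 1) ≤ Nat.log 2 p ∧ ¬ Generic k p n) ⊆
      Ps.biUnion (fun p => (range M).filter (fun n =>
        4 * k * (k + 1) * (n % (p - 1) + 1) ≤ Nat.log 2 p ∧ ¬ Generic k p n)) := by
    intro n hn
    obtain ⟨h1, p, h2, h3, h4, h5, h6⟩ := Finset.mem_filter.1 hn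
    exact Finset.mem_biUnion.2 ⟨p, Finset.mem_filter.2 ⟨Finset.mem_Ico.2 ⟨h3, h4⟩, h2⟩,
      Finset.mem_filter.2 ⟨h1, h5, h6⟩⟩
  have h1 : (((range M).filter (fun n => ∃ p, p.Prime ∧ x ≤ p ∧ p < 2 ^ L ∧
      4 * k * (k + 1) * (n % (p - 1) + 1) ≤ Nat.log 2 p ∧ ¬ Generic k p n)).card : ℝ) ≤
      ∑ p ∈ Ps, (((range M).filter (fun n =>
        4 * k * (k + 1) * (n % (p - 1) + 1) ≤ Nat.log 2 p ∧ ¬ Generic k p n)).card : ℝ) := by
    have := (Finset.card_le_card hsub).trans Finset.card_biUnion_le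
    exact_mod_cast this
  refine h1.trans ?_
  have h2 : ∑ p ∈ Ps, (((range M).filter (fun n =>
        4 * k * (k + 1) * (n % (p - 1) + 1) ≤ Nat.log 2 p ∧ ¬ Generic k p n)).card : ℝ) ≤
      ∑ p ∈ Ps, M * (K * (1 / (p : ℝ) ^ (3 / 2 : ℝ))) := by
    refine Finset.sum_le_sum fun p hp => ?_
    obtain ⟨h3, h4⟩ := Finset.mem_filter.1 hp
    exact bad_real k p M hk h4 (hdiv p h4 (Finset.mem_Ico.1 h3).2)
  refine h2.trans ?_
  rw [← Finset.mul_sum, mul_comm]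
  have hM0 : (0 : ℝ) ≤ M := Nat.cast_nonneg M
  refine mul_le_mul_of_nonneg_right ?_ hM0
  have h3 : ∑ p ∈ Ps, K * (1 / (p : ℝ) ^ (3 / 2 : ℝ)) ≤
      ∑ p ∈ Finset.Ico x (2 ^ L), K * (1 / (p : ℝ) ^ (3 / 2 : ℝ)) :=
    Finset.sum_le_sum_of_subset_of_nonneg (Finset.filter_subset _ _)
      (fun p _ _ => by positivity)
  refine h3.trans ?_
  rw [Finset.sum_Ico_eq_sum_range]
  have h4 : Summable (fun n : ℕ => K * (1 / ((n + x : ℕ) : ℝ) ^ (3 / 2 : ℝ))) :=
    (summable_nat_add_iff x).2 hsum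
  have h5 := h4.sum_le_tsum (range (2 ^ L - x)) (fun n _ => by positivity)
  have h6 : ∑ n ∈ range (2 ^ L - x), K * (1 / ((x + n : ℕ) : ℝ) ^ (3 / 2 : ℝ)) =
      ∑ n ∈ range (2 ^ L - x), K * (1 / ((n + x : ℕ) : ℝ) ^ (3 / 2 : ℝ)) := by
    refine Finset.sum_congr rfl fun n _ => ?_
    rw [add_comm x n]
  rw [h6]
  exact h5.trans hx.le

end Pool.Agent.H692R2.USS
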