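import Pool.Agent.H692R2.USS.Iface

set_option autoImplicit false

/-!
# Universal Skolem sets of density one: almost all `n` are good (task T9)
-/

namespace Pool.Agent.H692R2.USS

open Finset
open scoped Classical

/-- Almost all `n` are good. -/
theorem goodDensity (h1 : ∀ k, 1 ≤ k → Block k) (h2 : ∀ k, 1 ≤ k → NonGen k) : GoodDensity := by
  intro k ε hε
  rcases Nat.eq_zero_or_pos k with rfl | hk
  · refine ⟨0, fun i _ => ?_⟩
    have h3 : (range i.factorial).filter (fun n => ¬ Good i 0 n) = ∅ := by
      apply Finset.filter_false_of_mem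
      intro n _
      rw [not_not]
      exact ⟨∅, by simp, by simp⟩
    rw [h3, Finset.card_empty]
    have : (0 : ℝ) ≤ i.factorial := Nat.cast_nonneg _
    simp only [Nat.cast_zero]
    positivity
  · obtain ⟨x0, hx0⟩ := h2 k hk (ε / 2) (by positivity)
    have hkr : (0 : ℝ) < k := by exact_mod_cast hk
    have hεk : 0 < ε / (2 * k) := by positivity
    choose f hf using fun β : ℕ => h1 k hk β x0 (ε / (2 * k)) hεk
    set β : ℕ → ℕ := fun j => f^[j] 0 with hβd
    have hβ : ∀ j, β (j + 1) = f (β j) := fun j => Function.iterate_succ_apply' f j 0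
    set Ls : ℕ := ∑ j ∈ range k, β (j + 1) with hLsd
    have hLs : ∀ j < k, β (j + 1) ≤ Ls := fun j hj =>
      Finset.single_le_sum (f := fun j => β (j + 1)) (fun _ _ => Nat.zero_le _)
        (Finset.mem_range.2 hj)
    refine ⟨2 ^ Ls, fun i hi => ?_⟩
    set M : ℕ := i.factorial with hMd
    have hM : 0 < M := Nat.factorial_pos i
    have hpow : ∀ j < k, 2 ^ (β (j + 1)) ≤ 2 ^ Ls := fun j hj =>
      Nat.pow_le_pow_right (by norm_num) (hLs j hj)
    have hd : ∀ p, p.Prime → p < 2 ^ Ls → p * (p - 1) ∣ M := by
      intro p hp hpl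
      have h3 : p.factorial ∣ M := Nat.factorial_dvd_factorial (by omega)
      have h4 : p * (p - 1).factorial = p.factorial := Nat.mul_factorial_pred hp.ne_zero
      rw [← h4] at h3
      refine dvd_trans (Nat.mul_dvd_mul_left p ?_) h3
      exact Nat.dvd_factorial (by have := hp.two_le; omega) le_rfl
    have hd1 : ∀ j < k, ∀ p, p.Prime → p < 2 ^ (f (β j)) → (p - 1) ∣ M := by
      intro j hj p hp hpl
      rw [← hβ j] at hpl
      exact dvd_trans (Dvd.intro_left p rfl) (hd p hp (lt_of_lt_of_le hpl (hpow j hj)))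
    set P : ℕ → ℕ → Prop := fun j n => ∀ p, p.Prime → SplitAll k p → x0 ≤ p →
      p < 2 ^ (f (β j)) → ¬ (β j ≤ n % (p - 1) ∧
        4 * k * (k + 1) * (n % (p - 1) + 1) ≤ Nat.log 2 p) with hP
    set R : ℕ → Prop := fun n => ∃ p, p.Prime ∧ x0 ≤ p ∧ p < 2 ^ Ls ∧
      4 * k * (k + 1) * (n % (p - 1) + 1) ≤ Nat.log 2 p ∧ ¬ Generic k p n with hR
    have e1 : ∀ j < k, (((range M).filter (P j)).card : ℝ) ≤ ε / (2 * k) * M := fun j hj =>
      hf (β j) M hM (hd1 j hj)
    have e2 : (((range M).filter R).card : ℝ) ≤ ε / 2 * M := hx0 Ls M hM hd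
    have hincl : (range M).filter (fun n => ¬ Good i k n) ⊆
        ((range k).biUnion (fun j => (range M).filter (P j))) ∪ (range M).filter R := by
      intro n hn
      rw [Finset.mem_filter] at hn
      by_contra hcon
      rw [Finset.mem_union, not_or, Finset.mem_biUnion, Finset.mem_filter] at hcon
      obtain ⟨hc1, hc2⟩ := hcon
      have hR' : ¬ R n := fun H => hc2 ⟨hn.1, H⟩
      have hP' : ∀ j < k, ¬ P j n := fun j hj H =>
        hc1 ⟨j, Finset.mem_range.2 hj, Finset.mem_filter.2 ⟨hn.1, H⟩⟩
      apply hn.2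
      have hex : ∀ j, ∃ p, j < k → (p.Prime ∧ SplitAll k p ∧ x0 ≤ p ∧ p < 2 ^ (f (β j)) ∧
          β j ≤ n % (p - 1) ∧ 4 * k * (k + 1) * (n % (p - 1) + 1) ≤ Nat.log 2 p) := by
        intro j
        by_cases hj : j < k
        · have := hP' j hj
          rw [hP] at this
          push Not at this
          obtain ⟨p, q1, q2, q3, q4, q5, q6⟩ := this
          exact ⟨p, fun _ => ⟨q1, q2, q3, q4, q5, q6⟩⟩
        · exact ⟨0, fun H => absurd H hj⟩
      choose p hp using hex
      have hlt : ∀ j < k, n % (p j - 1) < β (j + 1) := by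
        intro j hj
        obtain ⟨q1, q2, q3, q4, q5, q6⟩ := hp j hj
        rw [hβ j]
        have h5 : Nat.log 2 (p j) < f (β j) := Nat.log_lt_of_lt_pow q1.ne_zero q4
        have h6 : n % (p j - 1) + 1 ≤ 4 * k * (k + 1) * (n % (p j - 1) + 1) :=
          Nat.le_mul_of_pos_left _ (by positivity)
        omega
      have hmono : ∀ j' < k, ∀ j < j', n % (p j - 1) < n % (p j' - 1) := by
        intro j'
        induction j' with
        | zero => intro _ j hj; omega
        | succ j' ih =>
          intro hj' j hj
          have h5 : n % (p j' - 1) < n % (p (j' + 1) - 1) :=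
            lt_of_lt_of_le (hlt j' (by omega)) (hp (j' + 1) hj').2.2.2.2.1
          rcases Nat.lt_or_ge j j' with h6 | h6
          · exact (ih (by omega) j h6).trans h5
          · have : j = j' := by omega
            rw [this]
            exact h5
      refine ⟨(range k).image (fun j => n % (p j - 1)), ?_, ?_⟩
      · rw [Finset.card_image_of_injOn, Finset.card_range]
        intro j hj j' hj' heq
        rw [Finset.mem_coe, Finset.mem_range] at hj hj'
        simp only at heq
        rcases lt_trichotomy j j' with h5 | h5 | h5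
        · have := hmono j' hj' j h5
          omega
        · exact h5
        · have := hmono j hj j' h5
          omega
      · intro b hb
        rw [Finset.mem_image] at hb
        obtain ⟨j, hj, rfl⟩ := hb
        rw [Finset.mem_range] at hj
        obtain ⟨q1, q2, q3, q4, q5, q6⟩ := hp j hj
        have h5 : p j < 2 ^ Ls := by
          rw [← hβ j] at q4
          exact lt_of_lt_of_le q4 (hpow j hj)
        refine ⟨p j, by omega, q1, q2, q6, Nat.mod_modEq _ _, ?_⟩
        by_contra hgen
        exact hR' ⟨p j, q1, q3, h5, q6, hgen⟩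
    have hcard : (((range M).filter (fun n => ¬ Good i k n)).card : ℝ) ≤
        ∑ j ∈ range k, (((range M).filter (P j)).card : ℝ) + (((range M).filter R).card : ℝ) := by
      have h3 := Finset.card_le_card hincl
      have h4 := h3.trans (Finset.card_union_le _ _)
      have h5 := h4.trans (Nat.add_le_add_right (Finset.card_biUnion_le) _)
      exact_mod_cast h5
    refine hcard.trans ?_
    have h3 : ∑ j ∈ range k, (((range M).filter (P j)).card : ℝ) ≤
        ∑ j ∈ range k, ε / (2 * k) * M :=
      Finset.sum_le_sum fun j hj => e1 j (Finset.mem_range.1 hj)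
    rw [Finset.sum_const, Finset.card_range, nsmul_eq_mul] at h3
    have h4 : (k : ℝ) * (ε / (2 * k) * M) = ε / 2 * M := by
      field_simp
    rw [h4] at h3
    linarith

end Pool.Agent.H692R2.USS
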