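import Pool.Agent.H692R2.USS.Iface

set_option autoImplicit false

namespace Pool.Agent.H692R2.USS

open Polynomial Finset
open scoped Classical

theorem E_pow_apply' {R : Type*} [CommRing R] (u : ℕ → R) (k n : ℕ) :
    ((E R) ^ k) u n = u (n + k) := by
  induction k generalizing n with
  | zero => rfl
  | succ k ih =>
    rw [pow_succ', Module.End.mul_apply]
    change ((E R) ^ k) u (n + 1) = _
    rw [ih]
    congr 1
    ring

/-- `F l = v (r + T l)` is a Mahler type series. -/
theorem mahler {g : ℤ[X]} {v : ℕ → ℤ} (hv : Ann g v) {p T : ℕ}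
    {q w : ℤ[X]} (hT : X ^ T - 1 = g * q + C (p : ℤ) * w) (r : ℕ) :
    ∃ b : ℕ → ℤ, ∀ l : ℕ, v (r + T * l) =
      ∑ j ∈ Finset.range (l + 1), (l.choose j : ℤ) * (p : ℤ) ^ j * b j := by
  set W : Module.End ℤ (ℕ → ℤ) := aeval (E ℤ) w with hW
  refine ⟨fun j => (W ^ j) v r, ?_⟩
  -- one step
  have hstep : ∀ v' : ℕ → ℤ, Ann g v' → ((E ℤ) ^ T) v' = ((p : ℤ) • W + 1) v' := by
    intro v' hv'
    have h1 := congrArg (fun f => (aeval (E ℤ) f) v') hT
    simp only [map_sub, map_pow, aeval_X, map_one, map_add] at h1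
    rw [mul_comm g q, map_mul, map_mul, aeval_C] at h1
    have h4 : aeval (E ℤ) g v' = 0 := hv'
    rw [LinearMap.sub_apply, LinearMap.add_apply, Module.End.mul_apply, Module.End.mul_apply,
      h4, map_zero, zero_add] at h1
    rw [LinearMap.add_apply, LinearMap.smul_apply, Module.End.one_apply]
    rw [sub_eq_iff_eq_add] at h1
    rw [h1]
    simp [hW]
  have hker : ∀ v' : ℕ → ℤ, Ann g v' → Ann g (((p : ℤ) • W + 1) v') := by
    intro v' hv'
    rw [← hstep v' hv']
    unfold Ann at hv' ⊢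
    have h5 : aeval (E ℤ) g (((E ℤ) ^ T) v') = aeval (E ℤ) (g * X ^ T) v' := by
      rw [map_mul, map_pow, aeval_X, Module.End.mul_apply]
    rw [h5, mul_comm, map_mul, Module.End.mul_apply, hv', map_zero]
  have hpow : ∀ l : ℕ, Ann g ((((p : ℤ) • W + 1) ^ l) v) ∧
      ((E ℤ) ^ (T * l)) v = (((p : ℤ) • W + 1) ^ l) v := by
    intro l
    induction l with
    | zero => exact ⟨by simpa using hv, by simp⟩
    | succ l ih =>
      constructor
      · rw [pow_succ', Module.End.mul_apply]
        exact hker _ ih.1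
      · rw [pow_succ', Module.End.mul_apply, ← hstep _ ih.1, ← ih.2, ← Module.End.mul_apply,
          ← pow_add]
        congr 2
        ring
  intro l
  have h6 : v (r + T * l) = ((E ℤ) ^ (T * l)) v r := (E_pow_apply' v (T * l) r).symm
  rw [h6, (hpow l).2, (Commute.one_right ((p : ℤ) • W)).add_pow l, LinearMap.sum_apply,
    Finset.sum_apply]
  refine Finset.sum_congr rfl fun j _ => ?_
  rw [one_pow, mul_one, _root_.smul_pow, ← Nat.cast_comm, ← nsmul_eq_mul, LinearMap.smul_apply,
    LinearMap.smul_apply, Pi.smul_apply, Pi.smul_apply]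
  simp only [nsmul_eq_mul, smul_eq_mul]
  ring

/-- Legendre: `v_p (j!) + (j+1)/2 ≤ j` for `p ≥ 3`. -/
theorem legendre {p : ℕ} (hp : p.Prime) (hp3 : 3 ≤ p) (j : ℕ) :
    padicValNat p j.factorial + (j + 1) / 2 ≤ j := by
  have := Fact.mk hp
  rcases Nat.eq_zero_or_pos j with rfl | hj
  · simp
  have h := sub_one_mul_padicValNat_factorial (p := p) j
  have hd : 0 < (Nat.digits p j).sum := by
    rcases Nat.eq_zero_or_pos (Nat.digits p j).sum with h0 | h0
    · exfalso
      have h1 : (p - 1) * padicValNat p j.factorial = j := by rw [h, h0]; simp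
      have h3 : ∀ x ∈ Nat.digits p j, x = 0 := by
        intro x hx
        have := List.single_le_sum (fun _ _ => Nat.zero_le _) x hx
        omega
      have h4 : Nat.ofDigits p (Nat.digits p j) = j := Nat.ofDigits_digits p j
      have h5 : ∀ L : List ℕ, (∀ x ∈ L, x = 0) → Nat.ofDigits p L = 0 := by
        intro L hL
        induction L with
        | nil => simp
        | cons a L ih =>
          rw [Nat.ofDigits_cons, hL a (by simp), ih (fun x hx => hL x (by simp [hx]))]
          simp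
      rw [h5 _ h3] at h4
      omega
    · exact h0
  have h7 : 2 * padicValNat p j.factorial ≤ (p - 1) * padicValNat p j.factorial :=
    Nat.mul_le_mul_right _ (by omega)
  omega

theorem zero_bound {g : ℤ[X]} {v : ℕ → ℤ} (hv : Ann g v) {p T : ℕ} (hp : p.Prime) (hp3 : 3 ≤ p)
    {q w : ℤ[X]} (hT : X ^ T - 1 = g * q + C (p : ℤ) * w) (r : ℕ) (Z : Finset ℕ)
    (hZ : ∀ l ∈ Z, v (r + T * l) = 0) (l : ℕ) :
    (p : ℤ) ^ ((Z.card + 1) / 2) ∣ v (r + T * l) := by
  have := Fact.mk hp
  obtain ⟨b, hb⟩ := mahler hv hT r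
  set N : ℕ := l + ∑ z ∈ Z, z with hN
  have hlN : l ≤ N := Nat.le_add_right _ _
  have hzN : ∀ z ∈ Z, z ≤ N := fun z hz =>
    (Finset.single_le_sum (f := fun z => z) (fun _ _ => Nat.zero_le _) hz).trans
      (Nat.le_add_left _ _)
  -- `N! = p ^ a * m`
  obtain ⟨a, m, hm, ham⟩ := Nat.exists_eq_pow_mul_and_not_dvd N.factorial_ne_zero p hp.ne_one
  -- the key divisibility
  have hkey : ∀ j ≤ N, ∃ c : ℤ, (m : ℤ) * (p : ℤ) ^ j = c * (p : ℤ) ^ ((j + 1) / 2) * j.factorial := by
    intro j hj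
    obtain ⟨a', m', hm', ham'⟩ := Nat.exists_eq_pow_mul_and_not_dvd j.factorial_ne_zero p hp.ne_one
    have hv1 : padicValNat p j.factorial = a' := by
      rw [ham', padicValNat.mul (pow_ne_zero _ hp.ne_zero) (by rintro rfl; simp at hm'),
        padicValNat.prime_pow, padicValNat.eq_zero_of_not_dvd hm', add_zero]
    have hl := legendre hp hp3 j
    rw [hv1] at hl
    have hdv : m' ∣ m := by
      have h1 : j.factorial ∣ N.factorial := Nat.factorial_dvd_factorial hj
      have h2 : m' ∣ p ^ a * m := by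
        rw [← ham]
        exact (Dvd.intro_left _ ham'.symm).trans h1
      exact (Nat.Coprime.dvd_of_dvd_mul_left
        (((Nat.Prime.coprime_iff_not_dvd hp).2 hm').symm.pow_right a) h2)
    obtain ⟨d, hd⟩ := hdv
    refine ⟨(d : ℤ) * (p : ℤ) ^ (j - a' - (j + 1) / 2), ?_⟩
    rw [ham', hd]
    push_cast
    have h3 : (p : ℤ) ^ j = (p : ℤ) ^ (j - a' - (j + 1) / 2) * (p : ℤ) ^ ((j + 1) / 2) *
        (p : ℤ) ^ a' := by
      rw [← pow_add, ← pow_add]
      congr 1
      omega
    rw [h3]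
    ring
  choose! c hc using hkey
  -- the integer polynomial
  set H : ℤ[X] := ∑ j ∈ Finset.range (N + 1),
    C (c j * (p : ℤ) ^ ((j + 1) / 2) * b j) * descPochhammer ℤ j with hH
  have hHe : ∀ n ≤ N, H.eval (n : ℤ) = m * v (r + T * n) := by
    intro n hn
    rw [hb n, hH, Polynomial.eval_finsetSum, Finset.mul_sum]
    have h1 : ∑ j ∈ Finset.range (n + 1), (m : ℤ) * ((n.choose j : ℤ) * (p : ℤ) ^ j * b j) =
        ∑ j ∈ Finset.range (N + 1), (m : ℤ) * ((n.choose j : ℤ) * (p : ℤ) ^ j * b j) := by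
      apply Finset.sum_subset
      · intro x hx
        simp only [Finset.mem_range] at hx ⊢
        omega
      · intro x _ hx
        simp only [Finset.mem_range, not_lt] at hx
        rw [Nat.choose_eq_zero_of_lt (by omega)]
        simp
    rw [h1]
    refine Finset.sum_congr rfl fun j hj => ?_
    have hjN : j ≤ N := by simpa [Nat.lt_succ_iff] using hj
    rw [Polynomial.eval_mul, Polynomial.eval_C, descPochhammer_eval_eq_descFactorial,
      Nat.descFactorial_eq_factorial_mul_choose]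
    push_cast
    have := hc j hjN
    calc c j * (p : ℤ) ^ ((j + 1) / 2) * b j * (↑j.factorial * ↑(n.choose j))
        = (c j * (p : ℤ) ^ ((j + 1) / 2) * ↑j.factorial) * (↑(n.choose j) * b j) := by ring
      _ = _ := by rw [← this]; ring
  set K := Z.card with hK
  set Zi : Finset ℤ := Z.image (fun z : ℕ => (z : ℤ)) with hZi
  have hZic : Zi.card = K := Finset.card_image_of_injective _ Nat.cast_injective
  set P : ℤ[X] := ∏ z ∈ Zi, (X - C z) with hP
  have hPm : P.Monic := monic_prod_of_monic _ _ fun z _ => monic_X_sub_C z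
  have hPd : P.degree = K := by
    rw [hP, degree_prod, Finset.sum_congr rfl (fun z _ => degree_X_sub_C z), Finset.sum_const,
      hZic]
    simp
  have hCm : ∀ (a : ℤ) (f : ℤ[X]), (C a * f).degree ≤ f.degree := by
    intro a f
    rw [← smul_eq_C_mul]
    exact degree_smul_le a f
  have hdiv : ∃ Q R : ℤ[X], H = P * Q + R ∧ R.degree < K ∧
      C ((p : ℤ) ^ ((K + 1) / 2)) ∣ Q := by
    rw [hH]
    refine Finset.sum_induction _ (fun h => ∃ Q R : ℤ[X], h = P * Q + R ∧ R.degree < K ∧
      C ((p : ℤ) ^ ((K + 1) / 2)) ∣ Q) ?_ ?_ ?_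
    · rintro h1 h2 ⟨Q1, R1, e1, d1, f1⟩ ⟨Q2, R2, e2, d2, f2⟩
      exact ⟨Q1 + Q2, R1 + R2, by rw [e1, e2]; ring,
        (degree_add_le _ _).trans_lt (max_lt d1 d2), dvd_add f1 f2⟩
    · exact ⟨0, 0, by simp, by simpa using WithBot.bot_lt_coe K, dvd_zero _⟩
    · intro j _
      by_cases hjK : j < K
      · refine ⟨0, _, by rw [mul_zero, zero_add], ?_, dvd_zero _⟩
        refine (hCm _ _).trans_lt ?_
        refine (degree_le_natDegree).trans_lt ?_
        rw [descPochhammer_natDegree]
        exact_mod_cast hjK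
      · refine ⟨C (c j * (p : ℤ) ^ ((j + 1) / 2) * b j) * (descPochhammer ℤ j /ₘ P),
          C (c j * (p : ℤ) ^ ((j + 1) / 2) * b j) * (descPochhammer ℤ j %ₘ P), ?_, ?_, ?_⟩
        · conv_lhs => rw [← modByMonic_add_div (descPochhammer ℤ j) P]
          ring
        · refine (hCm _ _).trans_lt ?_
          rw [← hPd]
          exact degree_modByMonic_lt _ hPm
        · apply Dvd.dvd.mul_right
          rw [C_dvd_iff_dvd_coeff]
          intro i
          rw [coeff_C]
          split_ifs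
          · apply Dvd.dvd.mul_right
            apply Dvd.dvd.mul_left
            apply pow_dvd_pow
            omega
          · exact dvd_zero _
  obtain ⟨Q, R, hQR, hRd, hQd⟩ := hdiv
  have hR : R = 0 := by
    apply Polynomial.eq_zero_of_degree_lt_of_eval_finset_eq_zero Zi (by rw [hZic]; exact hRd)
    intro x hx
    have hx' := hx
    rw [hZi, Finset.mem_image] at hx'
    obtain ⟨z, hz, rfl⟩ := hx'
    have h1 := hHe z (hzN z hz)
    rw [hZ z hz, mul_zero, hQR, eval_add, eval_mul] at h1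
    have h2 : P.eval (z : ℤ) = 0 := by
      rw [hP, eval_prod]
      exact Finset.prod_eq_zero hx (by simp)
    rw [h2, zero_mul, zero_add] at h1
    exact h1
  have h3 := hHe l hlN
  rw [hQR, hR, add_zero, eval_mul] at h3
  obtain ⟨Q', hQ'⟩ := hQd
  rw [hQ', eval_mul, eval_C] at h3
  have h4 : (p : ℤ) ^ ((K + 1) / 2) ∣ (m : ℤ) * v (r + T * l) :=
    ⟨P.eval (l : ℤ) * Q'.eval (l : ℤ), by rw [← h3]; ring⟩
  have h5 : IsCoprime ((p : ℤ) ^ ((K + 1) / 2)) (m : ℤ) := by
    apply IsCoprime.pow_left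
    rw [Int.isCoprime_iff_gcd_eq_one, Int.gcd_natCast_natCast]
    exact (Nat.Prime.coprime_iff_not_dvd hp).2 hm
  exact h5.dvd_of_dvd_mul_left h4

end Pool.Agent.H692R2.USS
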