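import Pool.Agent.H692R2.USS.U2

set_option autoImplicit false

namespace Pool.Agent.H692R2.USS

open Polynomial Finset
open scoped Classical

theorem u3_E_pow_apply {R : Type*} [CommRing R] (u : ℕ → R) (k n : ℕ) :
    ((E R) ^ k) u n = u (n + k) := by
  induction k generalizing n with
  | zero => rfl
  | succ k ih =>
    rw [pow_succ', Module.End.mul_apply]
    change ((E R) ^ k) u (n + 1) = _
    rw [ih]
    congr 1
    ring

theorem period {g s t : ℤ[X]} {rr : ℤ} (hg : g.Monic) {p : ℕ} (hp : p.Prime)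
    (hs : (g.map (Int.castRingHom (ZMod p))).Splits)
    (hst : s * g + t * derivative g = C rr) (hrr : ¬ (p : ℤ) ∣ rr)
    (h0 : ¬ (p : ℤ) ∣ g.coeff 0) {v : ℕ → ℤ} (hv : Ann g v) {n b : ℕ}
    (h : b ≡ n [MOD p - 1]) : (p : ℤ) ∣ v n - v b := by
  have := Fact.mk hp
  set φ := Int.castRingHom (ZMod p) with hφ
  set gb : (ZMod p)[X] := g.map φ with hgb
  have hgm : gb.Monic := hg.map _
  have hc : gb.coeff 0 ≠ 0 := by
    rw [hgb, Polynomial.coeff_map, hφ, eq_intCast]
    intro h
    exact h0 ((ZMod.intCast_zmod_eq_zero_iff_dvd _ _).1 h)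
  have hr : (rr : ZMod p) ≠ 0 := by
    intro h
    exact hrr ((ZMod.intCast_zmod_eq_zero_iff_dvd _ _).1 h)
  have hsep : gb.Separable := by
    rw [Polynomial.separable_def']
    have h1 := congrArg (Polynomial.map φ) hst
    rw [Polynomial.map_add, Polynomial.map_mul, Polynomial.map_mul, Polynomial.map_C,
      ← Polynomial.derivative_map] at h1
    refine ⟨C ((rr : ZMod p)⁻¹) * s.map φ, C ((rr : ZMod p)⁻¹) * t.map φ, ?_⟩
    have h2 : C ((rr : ZMod p)⁻¹) * s.map φ * gb + C ((rr : ZMod p)⁻¹) * t.map φ * derivative gb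
      = C ((rr : ZMod p)⁻¹) * (s.map φ * g.map φ + t.map φ * derivative (g.map φ)) := by
      rw [hgb]; ring
    rw [h2, h1, ← C_mul]
    simp [hφ, inv_mul_cancel₀ hr]
  have hdvd : gb ∣ X ^ (p - 1) - 1 := by
    have hne : (X ^ (p - 1) - 1 : (ZMod p)[X]) ≠ 0 := by
      have hp1 : p - 1 ≠ 0 := by have := hp.two_le; omega
      exact (Polynomial.monic_X_pow_sub_C (1 : ZMod p) hp1).ne_zero
    rw [hs.eq_prod_roots_of_monic hgm]
    rw [Multiset.prod_X_sub_C_dvd_iff_le_roots hne]
    rw [Multiset.le_iff_subset (nodup_roots hsep)]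
    intro a ha
    rw [Polynomial.mem_roots hgm.ne_zero] at ha
    rw [Polynomial.mem_roots hne]
    have ha0 : a ≠ 0 := by
      rintro rfl
      apply hc
      rw [Polynomial.coeff_zero_eq_eval_zero]
      exact ha
    simp [Polynomial.IsRoot, ZMod.pow_card_sub_one_eq_one ha0]
  have hd : gb ∣ (X ^ (p - 1) - 1 : ℤ[X]).map (Int.castRingHom (ZMod p)) := by
    simpa using hdvd
  obtain ⟨q, w, hqw⟩ := lift_dvd hd
  have hstep : ∀ a : ℕ, (p : ℤ) ∣ v (a + (p - 1)) - v a := by
    intro a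
    have h1 := congrArg (fun f => (aeval (E ℤ) f) v a) hqw
    have h2 : (aeval (E ℤ) (X ^ (p - 1) - 1 : ℤ[X])) v a = v (a + (p - 1)) - v a := by
      rw [map_sub, map_pow, aeval_X, map_one, LinearMap.sub_apply, Pi.sub_apply, u3_E_pow_apply]
      rfl
    have h3 : (aeval (E ℤ) (g * q + C (p : ℤ) * w)) v a =
        (p : ℤ) * (aeval (E ℤ) w v a) := by
      rw [map_add, mul_comm g q, map_mul, map_mul, aeval_C, LinearMap.add_apply,
        Module.End.mul_apply, Module.End.mul_apply]
      have h4 : aeval (E ℤ) g v = 0 := hv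
      rw [h4, map_zero, zero_add]
      simp
    have h1' : (aeval (E ℤ) (X ^ (p - 1) - 1 : ℤ[X])) v a =
        (aeval (E ℤ) (g * q + C (p : ℤ) * w)) v a := h1
    rw [h2, h3] at h1'
    exact ⟨_, h1'⟩
  have hiter : ∀ m a : ℕ, (p : ℤ) ∣ v (a + (p - 1) * m) - v a := by
    intro m a
    induction m with
    | zero => simp
    | succ m ih =>
      have := hstep (a + (p - 1) * m)
      have h5 := dvd_add this ih
      have h6 : a + (p - 1) * m + (p - 1) = a + (p - 1) * (m + 1) := by ring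
      rw [h6] at h5
      simpa using h5
  rcases le_total b n with hbn | hbn
  · obtain ⟨m, hm⟩ := (Nat.modEq_iff_dvd' hbn).1 h
    have : n = b + (p - 1) * m := by omega
    rw [this]
    exact hiter m b
  · obtain ⟨m, hm⟩ := (Nat.modEq_iff_dvd' hbn).1 h.symm
    have : b = n + (p - 1) * m := by omega
    rw [this]
    rw [← dvd_neg, neg_sub]
    exact hiter m n

end Pool.Agent.H692R2.USS
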