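import Pool.Agent.H692R2.USS.Iface

set_option autoImplicit false

/-! U5: soundness of certificates. -/

namespace Pool.Agent.H692R2.USS

open Polynomial Finset
open scoped Classical

namespace U5

/-- the coefficients of the falling factorial polynomial. -/
theorem abs_coeff_descPochhammer_le (j i : ℕ) :
    |(descPochhammer ℤ j).coeff i| ≤ (j.factorial : ℤ) := by
  induction j generalizing i with
  | zero =>
    rw [descPochhammer_zero, coeff_one]
    split_ifs <;> simp
  | succ j ih =>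
    rw [descPochhammer_succ_right, mul_sub, coeff_sub]
    have h1 : |(descPochhammer ℤ j * X).coeff i| ≤ (j.factorial : ℤ) := by
      cases i with
      | zero => simp
      | succ i => rw [coeff_mul_X]; exact ih i
    have h2 : |(descPochhammer ℤ j * (j : ℤ[X])).coeff i| ≤ j * (j.factorial : ℤ) := by
      have : (j : ℤ[X]) = C (j : ℤ) := by simp
      rw [this, coeff_mul_C, abs_mul, mul_comm]
      have : |(j : ℤ)| = j := abs_of_nonneg (by positivity)
      rw [this]
      exact mul_le_mul_of_nonneg_left (ih i) (by positivity)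
    have h3 : ((j + 1).factorial : ℤ) = j.factorial + j * j.factorial := by
      rw [Nat.factorial_succ]; push_cast; ring
    rw [h3]
    exact (abs_sub _ _).trans (add_le_add h1 h2)

/-- a sum of binomial coefficients vanishing everywhere is trivial. -/
theorem choose_sum_zero {m : ℕ} {a : ℕ → ℤ}
    (h : ∀ x : ℕ, ∑ j ∈ range m, (x.choose j : ℤ) * a j = 0) : ∀ j < m, a j = 0 := by
  intro j
  induction j using Nat.strong_induction_on with
  | _ j ih =>
    intro hj
    have h1 := h j
    rw [Finset.sum_eq_single_of_mem j (mem_range.mpr hj)] at h1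
    · simpa using h1
    · intro b hb hbj
      rcases Nat.lt_or_ge b j with hlt | hge
      · rw [ih b hlt (mem_range.mp hb), mul_zero]
      · rw [Nat.choose_eq_zero_of_lt (by omega)]
        simp

/-- the polynomial `∑ (m!/j!) a_j (x)_j`. -/
noncomputable def W (m : ℕ) (a : ℕ → ℤ) : ℤ[X] :=
  ∑ j ∈ range m, C (((m.factorial / j.factorial : ℕ) : ℤ) * a j) * descPochhammer ℤ j

theorem W_eval (m : ℕ) (a : ℕ → ℤ) (x : ℕ) :
    (W m a).eval (x : ℤ) = m.factorial * ∑ j ∈ range m, (x.choose j : ℤ) * a j := by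
  unfold W
  rw [eval_finset_sum, Finset.mul_sum]
  refine Finset.sum_congr rfl fun j hj => ?_
  rw [eval_mul, eval_C, descPochhammer_eval_eq_descFactorial, Nat.descFactorial_eq_factorial_mul_choose]
  have h1 : (m.factorial / j.factorial) * j.factorial = m.factorial :=
    Nat.div_mul_cancel (Nat.factorial_dvd_factorial (mem_range.mp hj).le)
  have h2 : (((m.factorial / j.factorial : ℕ) : ℤ)) * (j.factorial : ℤ) = m.factorial := by
    exact_mod_cast h1
  rw [← h2, Nat.cast_mul]
  generalize ((m.factorial / j.factorial : ℕ) : ℤ) = c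
  ring

theorem W_natDegree_le {m k : ℕ} (hm : m ≤ k) (a : ℕ → ℤ) : (W m a).natDegree ≤ k := by
  unfold W
  refine natDegree_sum_le_of_forall_le _ _ fun j hj => ?_
  refine (natDegree_C_mul_le _ _).trans ?_
  rw [descPochhammer_natDegree]
  exact (mem_range.mp hj).le.trans hm

theorem W_coeff_lt {m : ℕ} (hm : 1 ≤ m) {a : ℕ → ℤ} {c : ℤ}
    (h : ∀ j < m, (m : ℤ) * m.factorial * |a j| < c) (i : ℕ) : |(W m a).coeff i| < c := by
  have h1 : |(W m a).coeff i| ≤ ∑ j ∈ range m, (m.factorial : ℤ) * |a j| := by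
    unfold W
    rw [finset_sum_coeff]
    refine (Finset.abs_sum_le_sum_abs _ _).trans (Finset.sum_le_sum fun j hj => ?_)
    rw [coeff_C_mul, abs_mul, abs_mul]
    have h2 : (((m.factorial / j.factorial : ℕ) : ℤ)) * (j.factorial : ℤ) = m.factorial := by
      exact_mod_cast Nat.div_mul_cancel (Nat.factorial_dvd_factorial (mem_range.mp hj).le)
    have h3 : |((m.factorial / j.factorial : ℕ) : ℤ)| = ((m.factorial / j.factorial : ℕ) : ℤ) :=
      abs_of_nonneg (Int.natCast_nonneg _)
    rw [h3]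
    calc ((m.factorial / j.factorial : ℕ) : ℤ) * |a j| * |(descPochhammer ℤ j).coeff i|
        ≤ ((m.factorial / j.factorial : ℕ) : ℤ) * |a j| * (j.factorial : ℤ) :=
          mul_le_mul_of_nonneg_left (abs_coeff_descPochhammer_le j i) (by positivity)
      _ = (m.factorial : ℤ) * |a j| := by rw [← h2]; ring
  have h4 : (m : ℤ) * ∑ j ∈ range m, (m.factorial : ℤ) * |a j| < m * c := by
    rw [Finset.mul_sum]
    have h5 : ∑ j ∈ range m, (m : ℤ) * ((m.factorial : ℤ) * |a j|) < ∑ _j ∈ range m, c := by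
      refine Finset.sum_lt_sum_of_nonempty ⟨0, mem_range.mpr (by omega)⟩ fun j hj => ?_
      rw [← mul_assoc]
      exact h j (mem_range.mp hj)
    simpa using h5
  have h6 : ∑ j ∈ range m, (m.factorial : ℤ) * |a j| < c :=
    lt_of_mul_lt_mul_left h4 (by positivity)
  exact h1.trans_lt h6

/-- if `X ^ T - 1` splits over `F_p` and `p ∤ T` then `T ∣ p - 1`. -/
theorem dvd_pred {p T : ℕ} (hp : p.Prime) (hT : 1 ≤ T) (hpT : ¬ p ∣ T)
    (hs : ((X ^ T - 1 : ℤ[X]).map (Int.castRingHom (ZMod p))).Splits) : T ∣ p - 1 := by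
  have : Fact p.Prime := ⟨hp⟩
  have : NeZero T := ⟨by omega⟩
  have hmap : (X ^ T - 1 : ℤ[X]).map (Int.castRingHom (ZMod p)) = X ^ T - 1 := by simp
  rw [hmap] at hs
  have hne : ((T : ℕ) : ZMod p) ≠ 0 := by
    rw [Ne, ZMod.natCast_eq_zero_iff]
    exact hpT
  have hsep : (X ^ T - 1 : (ZMod p)[X]).Separable := X_pow_sub_one_separable_iff.mpr hne
  have hcard : Nat.card (rootsOfUnity T (ZMod p)) = T := by
    rw [Nat.card_congr (rootsOfUnityEquivNthRoots (ZMod p) T)]
    have hroots : nthRoots T (1 : ZMod p) = (X ^ T - 1 : (ZMod p)[X]).roots := by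
      rw [nthRoots, C_1]
    have hnd : (nthRoots T (1 : ZMod p)).Nodup := by
      rw [hroots]; exact nodup_roots hsep
    have hc : Multiset.card (nthRoots T (1 : ZMod p)) = T := by
      rw [hroots, ← hs.natDegree_eq_card_roots, ← C_1, natDegree_X_pow_sub_C]
    have : Nat.card {x // x ∈ nthRoots T (1 : ZMod p)} = (nthRoots T (1 : ZMod p)).toFinset.card := by
      rw [← Nat.card_eq_finsetCard]
      refine Nat.card_congr (Equiv.subtypeEquivRight fun x => ?_)
      rw [Multiset.mem_toFinset]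
    rw [this, Multiset.toFinset_card_of_nodup hnd, hc]
  have h1 : Nat.card (rootsOfUnity T (ZMod p)) ∣ Nat.card (ZMod p)ˣ :=
    Subgroup.card_subgroup_dvd_card _
  rw [hcard, Nat.card_eq_fintype_card, ZMod.card_units_eq_totient, Nat.totient_prime hp] at h1
  exact h1

theorem not_dvd_of_abs_le {p k : ℕ} (hkp : k < p) {z : ℤ} (hz : z ≠ 0) (hzk : |z| ≤ k) :
    ¬ (p : ℤ) ∣ z := by
  intro h
  have h1 : (p : ℤ) ≤ |z| := by
    have := Int.le_of_dvd (abs_pos.mpr hz) ((dvd_abs _ _).mpr h)
    exact this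
  have : (p : ℤ) ≤ k := h1.trans hzk
  omega

end U5

open U5 in
/-- `cert_sound` with the statements of `zero_bound` (U1) and `period` (U3) as hypotheses:
`theorem cert_sound := cert_sound_of @zero_bound @period`. -/
theorem cert_sound_of
    (zero_bound : ∀ {g : ℤ[X]} {v : ℕ → ℤ} (_ : Ann g v) {p T : ℕ} (_ : p.Prime) (_ : 3 ≤ p)
      {q w : ℤ[X]} (_ : X ^ T - 1 = g * q + C (p : ℤ) * w) (r : ℕ) (Z : Finset ℕ)
      (_ : ∀ l ∈ Z, v (r + T * l) = 0) (l : ℕ), (p : ℤ) ^ ((Z.card + 1) / 2) ∣ v (r + T * l))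
    (period : ∀ {g s t : ℤ[X]} {rr : ℤ} (_ : g.Monic) {p : ℕ} (_ : p.Prime)
      (_ : (g.map (Int.castRingHom (ZMod p))).Splits) (_ : s * g + t * derivative g = C rr)
      (_ : ¬ (p : ℤ) ∣ rr) (_ : ¬ (p : ℤ) ∣ g.coeff 0) {v : ℕ → ℤ} (_ : Ann g v) {n b : ℕ}
      (_ : b ≡ n [MOD p - 1]), (p : ℤ) ∣ v n - v b)
    {u : ℕ → ℤ} {k : ℕ} (hc : Cert u k) {k' : ℕ} (hk : k ≤ k') {i n : ℕ}
    (hg : Good i k' n) (hu : u n = 0) :
    ∃ T, 1 ≤ T ∧ T ≤ k ∧ ∀ n', n' ≡ n [MOD T] → u n' = 0 := by
  obtain ⟨g, s, t, q, w, rr, m, D, p0, T, v, hgm, hgd, hgc, hg0, hst, hrr, hrrk, hm1, hmk, hD,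
    hAnn, hdec, hgrow, hp0, hp03, hT1, hTk, hTeq, hres⟩ := hc
  obtain ⟨B, hB, hgood⟩ := hg
  refine ⟨T, hT1, hTk, ?_⟩
  have hk1 : 1 ≤ k := hm1.trans hmk
  have hk'1 : 1 ≤ k' := hk1.trans hk
  -- Step A
  have hA : ∀ b ∈ B, (∀ j < m, v j b = 0) ∧ b ≡ n [MOD T] := by
    intro b hb
    obtain ⟨p, _, hp, hsplit, hlog, hmod, hgen⟩ := hgood b hb
    have hlog1 : k' ≤ Nat.log 2 p := by
      refine le_trans ?_ hlog
      have : 1 ≤ 4 * (k' + 1) * (b + 1) := by nlinarith
      calc k' = k' * 1 := (mul_one _).symm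
        _ ≤ k' * (4 * (k' + 1) * (b + 1)) := Nat.mul_le_mul_left _ this
        _ = 4 * k' * (k' + 1) * (b + 1) := by ring
    have hpk : k' < p := by
      calc k' < 2 ^ k' := Nat.lt_two_pow_self
        _ ≤ 2 ^ Nat.log 2 p := Nat.pow_le_pow_right (by norm_num) hlog1
        _ ≤ p := Nat.pow_log_le_self 2 hp.pos.ne'
    have hrrp : ¬ (p : ℤ) ∣ rr := not_dvd_of_abs_le (lt_of_le_of_lt hk hpk) hrr hrrk
    have hg0p : ¬ (p : ℤ) ∣ g.coeff 0 :=
      not_dvd_of_abs_le (lt_of_le_of_lt hk hpk) hg0 (hgc 0)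
    have hgs : (g.map (Int.castRingHom (ZMod p))).Splits :=
      hsplit g hgm (hgd.trans hk) fun i => (hgc i).trans (by exact_mod_cast hk)
    have hper : ∀ j < m, (p : ℤ) ∣ v j n - v j b := fun j hj =>
      period hgm hp hgs hst hrrp hg0p (hAnn j hj) hmod
    constructor
    · -- the polynomial `W`
      have hWn : (p : ℤ) ∣ (W m (fun j => v j b)).eval (n : ℤ) := by
        rw [W_eval]
        have h0 : ∑ j ∈ range m, (n.choose j : ℤ) * v j n = 0 := by
          rw [← hdec n, hu, mul_zero]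
        have h1 : ∑ j ∈ range m, (n.choose j : ℤ) * v j b =
            - ∑ j ∈ range m, (n.choose j : ℤ) * (v j n - v j b) := by
          have : ∑ j ∈ range m, (n.choose j : ℤ) * (v j n - v j b) =
              ∑ j ∈ range m, (n.choose j : ℤ) * v j n -
                ∑ j ∈ range m, (n.choose j : ℤ) * v j b := by
            rw [← Finset.sum_sub_distrib]
            refine Finset.sum_congr rfl fun j _ => ?_
            ring
          rw [this, h0]; ring
        rw [h1]
        refine Dvd.dvd.mul_left ((dvd_neg).mpr (Finset.dvd_sum fun j hj => ?_)) _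
        exact Dvd.dvd.mul_left (hper j (mem_range.mp hj)) _
      have hW0 : W m (fun j => v j b) = 0 := by
        by_contra hne
        refine hgen _ hne (W_natDegree_le (hmk.trans hk) _) (fun i => ?_) hWn
        have h1 := W_coeff_lt hm1 (a := fun j => v j b) (c := 2 ^ (k * (b + 1)))
          (fun j hj => hgrow j hj b) i
        refine h1.trans_le ?_
        have h2 : k * (b + 1) ≤ Nat.log 2 p / (4 * (k' + 1)) := by
          rw [Nat.le_div_iff_mul_le (by omega)]
          calc k * (b + 1) * (4 * (k' + 1)) ≤ k' * (b + 1) * (4 * (k' + 1)) :=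
                Nat.mul_le_mul_right _ (Nat.mul_le_mul_right _ hk)
            _ = 4 * k' * (k' + 1) * (b + 1) := by ring
            _ ≤ _ := hlog
        exact pow_le_pow_right₀ (by norm_num) h2
      refine choose_sum_zero fun x => ?_
      have h1 := W_eval m (fun j => v j b) x
      rw [hW0, eval_zero] at h1
      have h2 : (m.factorial : ℤ) ≠ 0 := by exact_mod_cast m.factorial_ne_zero
      exact (mul_eq_zero.mp h1.symm).resolve_left h2
    · -- `b ≡ n [MOD T]`
      have hTs : ((X ^ T - 1 : ℤ[X]).map (Int.castRingHom (ZMod p))).Splits := by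
        refine hsplit _ ?_ ?_ fun i => ?_
        · rw [← C_1]; exact monic_X_pow_sub_C _ (by omega)
        · rw [← C_1, natDegree_X_pow_sub_C]; exact hTk.trans hk
        · have hk'Z : (1 : ℤ) ≤ k' := by exact_mod_cast hk'1
          rw [coeff_sub, coeff_X_pow, coeff_one]
          split_ifs with h1 h2 h2
          · omega
          · simpa using hk'Z
          · simpa using hk'Z
          · simp
      have hpT : ¬ p ∣ T := fun h => by
        have := Nat.le_of_dvd (by omega) h
        omega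
      exact hmod.of_dvd (dvd_pred hp hT1 hpT hTs)
  -- Step B
  intro n' hn'
  set r := n % T with hr
  have hrT : r < T := Nat.mod_lt _ (by omega)
  have hform : ∀ x, x ≡ n [MOD T] → x = r + T * (x / T) := by
    intro x hx
    have h1 : x % T = r := hx
    have h2 := Nat.mod_add_div x T
    omega
  have hDu : ∀ x, (∀ j < m, v j x = 0) → u x = 0 := by
    intro x hx
    have h1 := hdec x
    rw [Finset.sum_eq_zero (fun j hj => by rw [hx j (mem_range.mp hj), mul_zero])] at h1
    have h2 : (D : ℤ) ≠ 0 := by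
      have : D ≠ 0 := by omega
      exact_mod_cast this
    exact (mul_eq_zero.mp h1).resolve_left h2
  rcases hres r hrT with hall | ⟨j, hj, l, hne, hlt⟩
  · refine hDu n' fun j hj => ?_
    rw [hform n' hn']
    exact hall j hj _
  · exfalso
    set Z := B.image (fun b => b / T) with hZ
    have hZcard : Z.card = B.card := by
      refine Finset.card_image_of_injOn fun b hb b' hb' h => ?_
      have h1 := hform b (hA b hb).2
      have h2 := hform b' (hA b' hb').2
      have h3 : b / T = b' / T := h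
      rw [h1, h2, h3]
    have hzero : ∀ l ∈ Z, v j (r + T * l) = 0 := by
      intro l hl
      obtain ⟨b, hb, rfl⟩ := Finset.mem_image.mp hl
      rw [← hform b (hA b hb).2]
      exact (hA b hb).1 j hj
    have hdvd := zero_bound (hAnn j hj) hp0 hp03 hTeq r Z hzero l
    have h1 : (p0 : ℤ) ^ ((Z.card + 1) / 2) ≤ |v j (r + T * l)| :=
      Int.le_of_dvd (abs_pos.mpr hne) ((dvd_abs _ _).mpr hdvd)
    have h2 : (3 : ℤ) ^ (k / 2) ≤ (p0 : ℤ) ^ ((Z.card + 1) / 2) := by
      have h3 : (3 : ℤ) ≤ p0 := by exact_mod_cast hp03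
      calc (3 : ℤ) ^ (k / 2) ≤ 3 ^ ((Z.card + 1) / 2) :=
            pow_le_pow_right₀ (by norm_num) (Nat.div_le_div_right (by omega))
        _ ≤ (p0 : ℤ) ^ ((Z.card + 1) / 2) := pow_le_pow_left₀ (by norm_num) h3 _
    omega

end Pool.Agent.H692R2.USS
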