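import Pool.Agent.H692R2.USS.Iface
import Pool.Agent.Helper446.Comp

set_option autoImplicit false

/-!
# Universal Skolem sets of density one: the predicate `Good` is decidable
-/

namespace Pool.Agent.H692R2.USS

open Polynomial Finset
open Pool.Agent.Helper446.RE (allB allB_iff computable_allB exB exB_iff computable_exB cp_eq cp_le
  cp_lt cp_comp cp_of_re computable_of_graph)

/-! ## Closure properties of computable functions and predicates -/

section comput

variable {α : Type} [Primcodable α]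

@[fun_prop] theorem cdiv {f g : α → ℕ} (hf : Computable f) (hg : Computable g) :
    Computable (fun x => f x / g x) := Primrec.nat_div.to_comp.comp hf hg

@[fun_prop] theorem cmod {f g : α → ℕ} (hf : Computable f) (hg : Computable g) :
    Computable (fun x => f x % g x) := Primrec.nat_mod.to_comp.comp hf hg

theorem cp_and {p q : α → Prop} (hp : ComputablePred p) (hq : ComputablePred q) :
    ComputablePred (fun a => p a ∧ q a) := by
  obtain ⟨f, hf, rfl⟩ := ComputablePred.computable_iff.1 hp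
  obtain ⟨g, hg, rfl⟩ := ComputablePred.computable_iff.1 hq
  refine ComputablePred.computable_iff.2 ⟨fun a => f a && g a, by fun_prop, ?_⟩
  funext a
  simp

theorem cp_or {p q : α → Prop} (hp : ComputablePred p) (hq : ComputablePred q) :
    ComputablePred (fun a => p a ∨ q a) := by
  obtain ⟨f, hf, rfl⟩ := ComputablePred.computable_iff.1 hp
  obtain ⟨g, hg, rfl⟩ := ComputablePred.computable_iff.1 hq
  refine ComputablePred.computable_iff.2 ⟨fun a => f a || g a, by fun_prop, ?_⟩
  funext a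
  simp

theorem cp_all {p : α → ℕ → Prop} (hp : ComputablePred (fun x : α × ℕ => p x.1 x.2)) {f : α → ℕ}
    (hf : Computable f) : ComputablePred (fun a => ∀ i < f a, p a i) := by
  obtain ⟨q, hq, h⟩ := ComputablePred.computable_iff.1 hp
  have hq' : Computable₂ (fun (a : α) (i : ℕ) => q (a, i)) := hq
  refine ComputablePred.computable_iff.2 ⟨_, computable_allB hq' hf, ?_⟩
  funext a
  rw [allB_iff, eq_iff_iff]
  have h1 : ∀ i, p a i ↔ q (a, i) = true := fun i => by
    have := congrFun h (a, i)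
    simp only at this
    rw [this]
  simp only [h1]

theorem cp_ex {p : α → ℕ → Prop} (hp : ComputablePred (fun x : α × ℕ => p x.1 x.2)) {f : α → ℕ}
    (hf : Computable f) : ComputablePred (fun a => ∃ i < f a, p a i) := by
  obtain ⟨q, hq, h⟩ := ComputablePred.computable_iff.1 hp
  have hq' : Computable₂ (fun (a : α) (i : ℕ) => q (a, i)) := hq
  refine ComputablePred.computable_iff.2 ⟨_, computable_exB hq' hf, ?_⟩
  funext a
  rw [exB_iff, eq_iff_iff]
  have h1 : ∀ i, p a i ↔ q (a, i) = true := fun i => by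
    have := congrFun h (a, i)
    simp only at this
    rw [this]
  simp only [h1]

theorem csum {g : α → ℕ → ℕ} (hg : Computable (fun x : α × ℕ => g x.1 x.2)) {f : α → ℕ}
    (hf : Computable f) : Computable (fun a => ∑ i ∈ range (f a), g a i) := by
  have h := Computable.nat_rec (f := f) (g := fun _ : α => (0 : ℕ))
    (h := fun (a : α) (y : ℕ × ℕ) => y.2 + g a y.1) hf (Computable.const 0)
    (Primrec.nat_add.to_comp.comp (Computable.snd.comp Computable.snd)
      (hg.comp (Computable.fst.pair (Computable.fst.comp Computable.snd))))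
  refine h.of_eq fun a => ?_
  generalize f a = n
  induction n with
  | zero => rfl
  | succ n ih => rw [Finset.sum_range_succ, ← ih]

theorem cprod {g : α → ℕ → ℕ} (hg : Computable (fun x : α × ℕ => g x.1 x.2)) {f : α → ℕ}
    (hf : Computable f) : Computable (fun a => ∏ i ∈ range (f a), g a i) := by
  have h := Computable.nat_rec (f := f) (g := fun _ : α => (1 : ℕ))
    (h := fun (a : α) (y : ℕ × ℕ) => y.2 * g a y.1) hf (Computable.const 1)
    (Primrec.nat_mul.to_comp.comp (Computable.snd.comp Computable.snd)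
      (hg.comp (Computable.fst.pair (Computable.fst.comp Computable.snd))))
  refine h.of_eq fun a => ?_
  generalize f a = n
  induction n with
  | zero => rfl
  | succ n ih => rw [Finset.prod_range_succ, ← ih]

@[fun_prop] theorem cpow {f g : α → ℕ} (hf : Computable f) (hg : Computable g) :
    Computable (fun x => f x ^ g x) := by
  have h := cprod (g := fun a _ => f a) (f := g) (by fun_prop) hg
  exact h.of_eq fun a => by simp

theorem ccount {p : α → ℕ → Prop} (hp : ComputablePred (fun x : α × ℕ => p x.1 x.2)) {f : α → ℕ}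
    (hf : Computable f) [∀ a, DecidablePred (p a)] :
    Computable (fun a => ((range (f a)).filter (p a)).card) := by
  have h := csum (g := fun a i => if p a i then 1 else 0) (f := f)
    (Pool.Agent.Helper446.RE.cite (p := fun x : α × ℕ => p x.1 x.2) hp (by fun_prop)
      (by fun_prop)) hf
  exact h.of_eq fun a => (Finset.card_filter _ _).symm

theorem clog0 : Computable (Nat.log 2) := by
  refine computable_of_graph ?_
  refine ComputablePred.to_re ?_
  refine ComputablePred.of_eq (p := fun x : ℕ × ℕ => (x.1 = 0 ∧ x.2 = 0) ∨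
    (1 ≤ x.1 ∧ 2 ^ x.2 ≤ x.1 ∧ x.1 < 2 ^ (x.2 + 1))) ?_ ?_
  · refine cp_or (cp_and (cp_eq ?_ ?_) (cp_eq ?_ ?_)) (cp_and (cp_le ?_ ?_)
      (cp_and (cp_le ?_ ?_) (cp_lt ?_ ?_))) <;> fun_prop
  · rintro ⟨a, b⟩
    simp only
    rcases Nat.eq_zero_or_pos a with rfl | ha
    · simp [eq_comm]
    · have h1 : Nat.log 2 a = b ↔ 2 ^ b ≤ a ∧ a < 2 ^ (b + 1) :=
        Nat.log_eq_iff (Or.inr ⟨by norm_num, by omega⟩)
      rw [h1]
      constructor
      · rintro (⟨h, _⟩ | ⟨_, h⟩)
        · omega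
        · exact h
      · intro h
        exact Or.inr ⟨ha, h⟩

@[fun_prop] theorem clog {f : α → ℕ} (hf : Computable f) :
    Computable (fun x => Nat.log 2 (f x)) := clog0.comp hf

theorem cp_prime {f : α → ℕ} (hf : Computable f) : ComputablePred (fun a => (f a).Prime) := by
  refine ComputablePred.of_eq (p := fun a => 2 ≤ f a ∧ ∀ m < f a, m = 1 ∨ ¬ (f a % m = 0)) ?_ ?_
  · refine cp_and (cp_le (by fun_prop) hf) ?_
    refine cp_all (p := fun a m => m = 1 ∨ ¬ (f a % m = 0)) ?_ hf
    refine cp_or (cp_eq (by fun_prop) (by fun_prop)) ?_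
    exact ComputablePred.not (cp_eq (by fun_prop) (by fun_prop))
  · intro a
    rw [Nat.prime_def_lt]
    refine and_congr_right fun _ => forall_congr' fun m => forall_congr' fun hm => ?_
    rw [← Nat.dvd_iff_mod_eq_zero]
    tauto

end comput

/-! ## Coding of finite sequences by natural numbers -/

/-- digits -/
def dg (B c j : ℕ) : ℕ := c / B ^ j % B

theorem exists_code (B : ℕ) : ∀ (m : ℕ) (a : ℕ → ℕ), (∀ j < m, a j < B) →
    ∃ c < B ^ m, ∀ j < m, dg B c j = a j := by
  intro m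
  induction m with
  | zero => intro a _; exact ⟨0, by simp, by simp⟩
  | succ m ih =>
    intro a ha
    obtain ⟨c, hc, hc'⟩ := ih (fun j => a (j + 1)) (fun j hj => ha (j + 1) (by omega))
    have hB : a 0 < B := ha 0 (by omega)
    refine ⟨a 0 + B * c, ?_, ?_⟩
    · have h1 : B * (c + 1) ≤ B * B ^ m := Nat.mul_le_mul_left B hc
      rw [pow_succ]
      nlinarith
    · intro j hj
      rcases j with _ | j
      · simp only [dg, pow_zero, Nat.div_one, Nat.add_mul_mod_self_left]
        exact Nat.mod_eq_of_lt hB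
      · have h2 := hc' j (by omega)
        simp only [dg] at h2 ⊢
        rw [← h2, pow_succ', ← Nat.div_div_eq_div_mul, Nat.add_mul_div_left _ _ (by omega),
          Nat.div_eq_of_lt hB, zero_add]

/-- the polynomial with the code `c` -/
noncomputable def pl (t d c : ℕ) : ℤ[X] :=
  ∑ j ∈ range d, C ((dg (2 * t + 1) c j : ℤ) - t) * X ^ j

/-- its value modulo `p` -/
def evp (t p d c x : ℕ) : ℕ := ∑ j ∈ range d, (dg (2 * t + 1) c j + (p - 1) * t) * x ^ j

theorem coeff_pl (t d c i : ℕ) :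
    (pl t d c).coeff i = if i < d then (dg (2 * t + 1) c i : ℤ) - t else 0 := by
  unfold pl
  rw [finsetSum_coeff]
  simp only [coeff_C_mul, coeff_X_pow]
  simp [Finset.sum_ite_eq]

theorem abs_coeff_pl (t d c i : ℕ) : |(pl t d c).coeff i| ≤ t := by
  rw [coeff_pl]
  split_ifs
  · have : dg (2 * t + 1) c i < 2 * t + 1 := Nat.mod_lt _ (by omega)
    rw [abs_le]
    constructor <;> omega
  · simp

theorem degree_pl_lt (t d c : ℕ) : (pl t d c).degree < d := by
  rw [degree_lt_iff_coeff_zero]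
  intro m hm
  rw [coeff_pl, if_neg (by omega)]

theorem natDegree_X_pow_add_pl (t d c : ℕ) : (X ^ d + pl t d c : ℤ[X]).natDegree = d := by
  rw [natDegree_add_eq_left_of_degree_lt, natDegree_X_pow]
  rw [degree_X_pow]
  exact degree_pl_lt t d c

theorem eval_pl (t d c x p : ℕ) (hp : 1 ≤ p) :
    (((pl t d c).eval (x : ℤ) : ℤ) : ZMod p) = ((evp t p d c x : ℕ) : ZMod p) := by
  unfold pl evp
  rw [eval_finsetSum]
  push_cast
  refine Finset.sum_congr rfl fun j _ => ?_
  simp only [eval_mul, eval_C, eval_pow, eval_X]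
  push_cast [Nat.cast_sub hp]
  simp
  ring

theorem exists_pl (t d : ℕ) (f : ℤ[X]) (hf : ∀ i < d, |f.coeff i| ≤ t) :
    ∃ c < (2 * t + 1) ^ d, ∀ i < d, (dg (2 * t + 1) c i : ℤ) - t = f.coeff i := by
  obtain ⟨c, hc, hc'⟩ := exists_code (2 * t + 1) d (fun i => (f.coeff i + t).toNat) (by
    intro j hj
    have := abs_le.1 (hf j hj)
    omega)
  refine ⟨c, hc, fun i hi => ?_⟩
  rw [hc' i hi]
  have := abs_le.1 (hf i hi)
  omega

/-! ## The property `Generic` -/

theorem generic_iff {k p n : ℕ} (hp : 1 ≤ p) :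
    Generic k p n ↔ ∀ c < (2 * (2 ^ (Nat.log 2 p / (4 * (k + 1))) - 1) + 1) ^ (k + 1),
      (∀ j < k + 1, dg (2 * (2 ^ (Nat.log 2 p / (4 * (k + 1))) - 1) + 1) c j =
        2 ^ (Nat.log 2 p / (4 * (k + 1))) - 1) ∨
      ¬ (evp (2 ^ (Nat.log 2 p / (4 * (k + 1))) - 1) p (k + 1) c n % p = 0) := by
  have hpos : 1 ≤ 2 ^ (Nat.log 2 p / (4 * (k + 1))) := Nat.one_le_two_pow
  have hdv : ∀ c, (p : ℤ) ∣ (pl (2 ^ (Nat.log 2 p / (4 * (k + 1))) - 1) (k + 1) c).eval (n : ℤ) ↔
      evp (2 ^ (Nat.log 2 p / (4 * (k + 1))) - 1) p (k + 1) c n % p = 0 := by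
    intro c
    rw [← ZMod.intCast_zmod_eq_zero_iff_dvd, eval_pl _ _ _ _ _ hp, ZMod.natCast_eq_zero_iff,
      Nat.dvd_iff_mod_eq_zero]
  constructor
  · intro h c hc
    by_cases h0 : ∀ j < k + 1, dg (2 * (2 ^ (Nat.log 2 p / (4 * (k + 1))) - 1) + 1) c j =
        2 ^ (Nat.log 2 p / (4 * (k + 1))) - 1
    · exact Or.inl h0
    · refine Or.inr ?_
      rw [← hdv c]
      refine h _ ?_ ?_ ?_
      · intro hz
        apply h0
        intro j hj
        have h1 := coeff_pl (2 ^ (Nat.log 2 p / (4 * (k + 1))) - 1) (k + 1) c j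
        rw [hz, if_pos hj, coeff_zero] at h1
        omega
      · have h1 := degree_pl_lt (2 ^ (Nat.log 2 p / (4 * (k + 1))) - 1) (k + 1) c
        exact natDegree_le_of_degree_le (by
          have h2 := degree_lt_iff_coeff_zero _ _ |>.1 h1
          rw [degree_le_iff_coeff_zero]
          intro m hm
          exact h2 m (by exact_mod_cast hm))
      · intro i
        have h1 := abs_coeff_pl (2 ^ (Nat.log 2 p / (4 * (k + 1))) - 1) (k + 1) c i
        refine lt_of_le_of_lt h1 ?_
        push_cast [Nat.cast_sub hpos]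
        linarith
  · intro h f hf hd hc hdvd
    obtain ⟨c, hc1, hc2⟩ := exists_pl (2 ^ (Nat.log 2 p / (4 * (k + 1))) - 1) (k + 1) f (by
      intro i _
      have := hc i
      push_cast [Nat.cast_sub hpos]
      have h2 : (|f.coeff i| : ℤ) < 2 ^ (Nat.log 2 p / (4 * (k + 1))) := by exact_mod_cast this
      linarith)
    have hfe : f = pl (2 ^ (Nat.log 2 p / (4 * (k + 1))) - 1) (k + 1) c := by
      ext i
      rw [coeff_pl]
      split_ifs with hi
      · rw [hc2 i hi]
      · exact coeff_eq_zero_of_natDegree_lt (by omega)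
    rcases h c hc1 with h1 | h1
    · apply hf
      ext i
      rw [hfe, coeff_pl, coeff_zero]
      split_ifs with hi
      · rw [h1 i hi]
        ring
      · rfl
    · apply h1
      rw [← hdv c, ← hfe]
      exact hdvd

/-! ## The property `SplitAll` -/

theorem natCast_sub_root (p r : ℕ) (x : ℕ) (hr : r < p) :
    ((x + (p - r) : ℕ) : ZMod p) = (x : ZMod p) - (r : ZMod p) := by
  push_cast [Nat.cast_sub hr.le]
  simp
  ring

theorem splitAll_iff {k p : ℕ} (hk : 1 ≤ k) (hp : p.Prime) (hkp : k < p) :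
    SplitAll k p ↔ ∀ d < k + 1, ∀ c < (2 * k + 1) ^ d, ∃ e < p ^ d, ∀ x < p,
      (x ^ d + evp k p d c x) % p = (∏ j ∈ range d, (x + (p - dg p e j))) % p := by
  have : Fact p.Prime := ⟨hp⟩
  have hdgp : ∀ e j, dg p e j < p := fun e j => Nat.mod_lt _ hp.pos
  -- the two monic polynomials
  have key : ∀ (d c e : ℕ), d < p →
      ((∀ x < p, (x ^ d + evp k p d c x) % p = (∏ j ∈ range d, (x + (p - dg p e j))) % p) ↔
      (X ^ d + pl k d c).map (Int.castRingHom (ZMod p)) =
        ∏ j ∈ range d, (X - C ((dg p e j : ℕ) : ZMod p))) := by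
    intro d c e hd
    have hev1 : ∀ x : ℕ, ((X ^ d + pl k d c).map (Int.castRingHom (ZMod p))).eval (x : ZMod p) =
        ((x ^ d + evp k p d c x : ℕ) : ZMod p) := by
      intro x
      have h1 : ((X ^ d + pl k d c).map (Int.castRingHom (ZMod p))).eval (x : ZMod p) =
          (((X ^ d + pl k d c).eval (x : ℤ) : ℤ) : ZMod p) := by
        have := eval_intCast_map (Int.castRingHom (ZMod p)) (X ^ d + pl k d c) (x : ℤ)
        simpa using this
      rw [h1, eval_add, Int.cast_add, eval_pl _ _ _ _ _ hp.one_lt.le]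
      simp
    have hev2 : ∀ x : ℕ, (∏ j ∈ range d, (X - C ((dg p e j : ℕ) : ZMod p))).eval (x : ZMod p) =
        ((∏ j ∈ range d, (x + (p - dg p e j)) : ℕ) : ZMod p) := by
      intro x
      rw [eval_prod, Nat.cast_prod]
      refine Finset.prod_congr rfl fun j _ => ?_
      rw [natCast_sub_root p _ x (hdgp e j)]
      simp
    constructor
    · intro h
      by_contra hne
      have hsub : (X ^ d + pl k d c).map (Int.castRingHom (ZMod p)) -
        ∏ j ∈ range d, (X - C ((dg p e j : ℕ) : ZMod p)) ≠ 0 := sub_ne_zero.2 hne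
      have hm1 : ((X ^ d + pl k d c).map (Int.castRingHom (ZMod p))).Monic :=
        (monic_X_pow_add (degree_pl_lt k d c)).map _
      have hm2 : (∏ j ∈ range d, (X - C ((dg p e j : ℕ) : ZMod p))).Monic :=
        monic_prod_of_monic _ _ fun j _ => monic_X_sub_C _
      have hn1 : ((X ^ d + pl k d c).map (Int.castRingHom (ZMod p))).natDegree = d := by
        rw [(monic_X_pow_add (degree_pl_lt k d c)).natDegree_map,
          natDegree_X_pow_add_pl k d c]
      have hn2 : (∏ j ∈ range d, (X - C ((dg p e j : ℕ) : ZMod p))).natDegree = d := by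
        rw [natDegree_prod_of_monic _ _ fun j _ => monic_X_sub_C _]
        simp only [natDegree_X_sub_C]
        simp
      have hdeg : ((X ^ d + pl k d c).map (Int.castRingHom (ZMod p)) -
        ∏ j ∈ range d, (X - C ((dg p e j : ℕ) : ZMod p))).natDegree ≤ d := by
        refine (natDegree_sub_le _ _).trans ?_
        rw [hn1, hn2, max_self]
      refine hsub (eq_zero_of_natDegree_lt_card_of_eval_eq_zero _
        (f := fun x : ZMod p => x) Function.injective_id ?_ ?_)
      · intro x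
        have hx : x = ((x.val : ℕ) : ZMod p) := (ZMod.natCast_zmod_val x).symm
        rw [hx, eval_sub, hev1, hev2, sub_eq_zero, ZMod.natCast_eq_natCast_iff]
        exact h _ (ZMod.val_lt x)
      · rw [ZMod.card]
        omega
    · intro h x hx
      have h1 := hev1 x
      rw [h, hev2] at h1
      exact ((ZMod.natCast_eq_natCast_iff _ _ _).1 h1).symm
  constructor
  · intro h d hd c hc
    have hmon : (X ^ d + pl k d c : ℤ[X]).Monic := monic_X_pow_add (degree_pl_lt k d c)
    have hnd : (X ^ d + pl k d c : ℤ[X]).natDegree = d := natDegree_X_pow_add_pl k d c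
    have hs := h (X ^ d + pl k d c) hmon (by omega) (by
      intro i
      rw [coeff_add, coeff_X_pow, coeff_pl]
      by_cases hi : i < d
      · rw [if_neg (by omega), if_pos hi, zero_add]
        have := abs_coeff_pl k d c i
        rw [coeff_pl, if_pos hi] at this
        exact this
      · rw [if_neg hi, add_zero]
        split_ifs
        · simpa using hk
        · simp)
    obtain ⟨m, hm⟩ := splits_iff_exists_multiset.1 hs
    rw [(hmon.map _).leadingCoeff, C_1, one_mul] at hm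
    have hcard : m.card = d := by
      have h1 := congrArg natDegree hm
      rw [hmon.natDegree_map, hnd, natDegree_multiset_prod_X_sub_C_eq_card] at h1
      exact h1.symm
    obtain ⟨l, rfl⟩ : ∃ l : List (ZMod p), m = (l : Multiset (ZMod p)) := ⟨m.toList, by simp⟩
    rw [Multiset.coe_card] at hcard
    obtain ⟨e, he, he'⟩ := exists_code p d (fun j => (l.getD j 0).val) (fun j _ => ZMod.val_lt _)
    refine ⟨e, he, (key d c e (by omega)).2 ?_⟩
    rw [hm, Multiset.map_coe, Multiset.prod_coe]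
    have h2 : ∏ j ∈ range d, (X - C ((dg p e j : ℕ) : ZMod p)) =
        ∏ j ∈ range d, (X - C (l.getD j 0)) := by
      refine Finset.prod_congr rfl fun j hj => ?_
      rw [he' j (Finset.mem_range.1 hj), ZMod.natCast_zmod_val]
    rw [h2, ← hcard]
    clear h2 he' he hm hs hcard
    induction l with
    | nil => simp
    | cons a l ih =>
      rw [List.map_cons, List.prod_cons, List.length_cons, Finset.prod_range_succ', ih]
      simp [mul_comm]
  · intro h f hf hfd hfc
    obtain ⟨c, hc1, hc2⟩ := exists_pl k f.natDegree f (fun i _ => by exact_mod_cast hfc i)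
    have hfe : f = X ^ f.natDegree + pl k f.natDegree c := by
      ext i
      rw [coeff_add, coeff_X_pow, coeff_pl]
      split_ifs with h1 h2 h2
      · omega
      · rw [h1, add_zero]
        exact hf
      · rw [hc2 i h2, zero_add]
      · rw [add_zero]
        exact coeff_eq_zero_of_natDegree_lt (by omega)
    obtain ⟨e, _, he⟩ := h f.natDegree (by omega) c hc1
    have h3 := (key f.natDegree c e (by omega)).1 he
    rw [hfe, h3]
    exact Splits.prod fun j _ => Splits.X_sub_C _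

/-! ## The predicate `Good` -/

/-- the decidable form of `GoodPair` -/
def GP (k p n b : ℕ) : Prop :=
  (p.Prime ∧ k < p) ∧
  (∀ d < k + 1, ∀ c < (2 * k + 1) ^ d, ∃ e < p ^ d, ∀ x < p,
      (x ^ d + evp k p d c x) % p = (∏ j ∈ range d, (x + (p - dg p e j))) % p) ∧
  4 * k * (k + 1) * (b + 1) ≤ Nat.log 2 p ∧ b % (p - 1) = n % (p - 1) ∧
  (∀ c < (2 * (2 ^ (Nat.log 2 p / (4 * (k + 1))) - 1) + 1) ^ (k + 1),
      (∀ j < k + 1, dg (2 * (2 ^ (Nat.log 2 p / (4 * (k + 1))) - 1) + 1) c j =
        2 ^ (Nat.log 2 p / (4 * (k + 1))) - 1) ∨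
      ¬ (evp (2 ^ (Nat.log 2 p / (4 * (k + 1))) - 1) p (k + 1) c n % p = 0))

theorem gp_iff {k p n b : ℕ} (hk : 1 ≤ k) : GoodPair k p n b ↔ GP k p n b := by
  unfold GoodPair GP
  constructor
  · rintro ⟨h1, h2, h3, h4, h5⟩
    have hlt : Nat.log 2 p < p := Nat.log_lt_self 2 h1.ne_zero
    have hkp : k < p := by
      have h6 : k ≤ 4 * k * (k + 1) * (b + 1) := by
        have h7 : k * 1 ≤ k * (4 * (k + 1) * (b + 1)) := Nat.mul_le_mul_left k (by nlinarith)
        calc k = k * 1 := (mul_one k).symm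
          _ ≤ _ := h7
          _ = _ := by ring
      omega
    exact ⟨⟨h1, hkp⟩, (splitAll_iff hk h1 hkp).1 h2, h3, h4, (generic_iff h1.one_lt.le).1 h5⟩
  · rintro ⟨⟨h1, hkp⟩, h2, h3, h4, h5⟩
    exact ⟨h1, (splitAll_iff hk h1 hkp).2 h2, h3, h4, (generic_iff h1.one_lt.le).2 h5⟩

open scoped Classical in
theorem good_iff (i k n : ℕ) : Good i k n ↔
    k = 0 ∨ k ≤ ((range (i + 1)).filter (fun b => ∃ p < i + 1, GP k p n b)).card := by
  constructor
  · rintro ⟨B, hB, h⟩
    rcases Nat.eq_zero_or_pos k with hk | hk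
    · exact Or.inl hk
    · refine Or.inr (hB.trans (Finset.card_le_card fun b hb => ?_))
      obtain ⟨p, hp, hg⟩ := h b hb
      rw [Finset.mem_filter, Finset.mem_range]
      refine ⟨?_, p, by omega, (gp_iff hk).1 hg⟩
      obtain ⟨h1, h2, h3, h4, h5⟩ := hg
      have hlt : Nat.log 2 p < p := Nat.log_lt_self 2 h1.ne_zero
      have h6 : 1 * (b + 1) ≤ 4 * k * (k + 1) * (b + 1) :=
        Nat.mul_le_mul_right _ (by nlinarith)
      omega
  · rintro (rfl | h)
    · exact ⟨∅, by simp, by simp⟩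
    · rcases Nat.eq_zero_or_pos k with rfl | hk
      · exact ⟨∅, by simp, by simp⟩
      · refine ⟨_, h, fun b hb => ?_⟩
        obtain ⟨_, p, hp, hg⟩ := Finset.mem_filter.1 hb
        exact ⟨p, by omega, (gp_iff hk).2 hg⟩

theorem dg_comp {α : Type} [Primcodable α] {B c j : α → ℕ} (h1 : Computable B)
    (h2 : Computable c) (h3 : Computable j) : Computable (fun x => dg (B x) (c x) (j x)) := by
  unfold dg
  fun_prop

attribute [fun_prop] dg_comp
attribute [local irreducible] dg

theorem evp_comp {α : Type} [Primcodable α] {t p d c y : α → ℕ} (h1 : Computable t)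
    (h2 : Computable p) (h3 : Computable d) (h4 : Computable c) (h5 : Computable y) :
    Computable (fun x => evp (t x) (p x) (d x) (c x) (y x)) := by
  unfold evp
  refine csum (g := fun x j => (dg (2 * t x + 1) (c x) j + (p x - 1) * t x) * y x ^ j) ?_ h3
  fun_prop

attribute [fun_prop] evp_comp
attribute [local irreducible] evp

theorem gp_computable : ComputablePred (fun x : (ℕ × ℕ) × (ℕ × ℕ) => GP x.1.1 x.1.2 x.2.1 x.2.2) := by
  unfold GP
  refine cp_and (cp_and (cp_prime (by fun_prop)) (cp_lt (by fun_prop) (by fun_prop)))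
    (cp_and ?_ (cp_and (cp_le (by fun_prop) (by fun_prop))
      (cp_and (cp_eq (by fun_prop) (by fun_prop)) ?_)))
  · refine cp_all (p := fun (x : (ℕ × ℕ) × (ℕ × ℕ)) d => ∀ c < (2 * x.1.1 + 1) ^ d,
      ∃ e < x.1.2 ^ d, ∀ y < x.1.2, (y ^ d + evp x.1.1 x.1.2 d c y) % x.1.2 =
        (∏ j ∈ range d, (y + (x.1.2 - dg x.1.2 e j))) % x.1.2) ?_ (by fun_prop)
    refine cp_all (p := fun (x : ((ℕ × ℕ) × (ℕ × ℕ)) × ℕ) c =>
      ∃ e < x.1.1.2 ^ x.2, ∀ y < x.1.1.2, (y ^ x.2 + evp x.1.1.1 x.1.1.2 x.2 c y) % x.1.1.2 =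
        (∏ j ∈ range x.2, (y + (x.1.1.2 - dg x.1.1.2 e j))) % x.1.1.2) ?_ (by fun_prop)
    refine cp_ex (p := fun (x : (((ℕ × ℕ) × (ℕ × ℕ)) × ℕ) × ℕ) e =>
      ∀ y < x.1.1.1.2, (y ^ x.1.2 + evp x.1.1.1.1 x.1.1.1.2 x.1.2 x.2 y) % x.1.1.1.2 =
        (∏ j ∈ range x.1.2, (y + (x.1.1.1.2 - dg x.1.1.1.2 e j))) % x.1.1.1.2) ?_ (by fun_prop)
    refine cp_all (p := fun (x : ((((ℕ × ℕ) × (ℕ × ℕ)) × ℕ) × ℕ) × ℕ) y =>
      (y ^ x.1.1.2 + evp x.1.1.1.1.1 x.1.1.1.1.2 x.1.1.2 x.1.2 y) % x.1.1.1.1.2 =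
        (∏ j ∈ range x.1.1.2, (y + (x.1.1.1.1.2 - dg x.1.1.1.1.2 x.2 j))) % x.1.1.1.1.2) ?_
      (by fun_prop)
    refine cp_eq (by fun_prop) ?_
    refine cmod ?_ (by fun_prop)
    refine cprod (g := fun (x : (((((ℕ × ℕ) × (ℕ × ℕ)) × ℕ) × ℕ) × ℕ) × ℕ) j =>
      (x.2 + (x.1.1.1.1.1.2 - dg x.1.1.1.1.1.2 x.1.2 j))) ?_ (by fun_prop)
    fun_prop
  · refine cp_all (p := fun (x : (ℕ × ℕ) × (ℕ × ℕ)) c =>
      (∀ j < x.1.1 + 1, dg (2 * (2 ^ (Nat.log 2 x.1.2 / (4 * (x.1.1 + 1))) - 1) + 1) c j =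
        2 ^ (Nat.log 2 x.1.2 / (4 * (x.1.1 + 1))) - 1) ∨
      ¬ (evp (2 ^ (Nat.log 2 x.1.2 / (4 * (x.1.1 + 1))) - 1) x.1.2 (x.1.1 + 1) c x.2.1 % x.1.2
        = 0)) ?_ (by fun_prop)
    refine cp_or ?_ (ComputablePred.not (cp_eq (by fun_prop) (by fun_prop)))
    refine cp_all (p := fun (x : ((ℕ × ℕ) × (ℕ × ℕ)) × ℕ) j =>
      dg (2 * (2 ^ (Nat.log 2 x.1.1.2 / (4 * (x.1.1.1 + 1))) - 1) + 1) x.2 j =
        2 ^ (Nat.log 2 x.1.1.2 / (4 * (x.1.1.1 + 1))) - 1) ?_ (by fun_prop)
    exact cp_eq (by fun_prop) (by fun_prop)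

/-- The predicate `Good` is decidable. -/
theorem good_computable : ComputablePred (fun x : ℕ × ℕ × ℕ => Good x.1 x.2.1 x.2.2) := by
  classical
  have h : ComputablePred (fun x : ℕ × ℕ × ℕ => x.2.1 = 0 ∨ x.2.1 ≤
      ((range (x.1 + 1)).filter (fun b => ∃ p < x.1 + 1, GP x.2.1 p x.2.2 b)).card) := by
    refine cp_or (cp_eq (by fun_prop) (by fun_prop)) (cp_le (by fun_prop) ?_)
    refine ccount (p := fun (x : ℕ × ℕ × ℕ) b => ∃ p < x.1 + 1, GP x.2.1 p x.2.2 b) ?_
      (by fun_prop)
    refine cp_ex (p := fun (x : (ℕ × ℕ × ℕ) × ℕ) p => GP x.1.2.1 p x.1.2.2 x.2) ?_ (by fun_prop)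
    exact cp_comp gp_computable (f := fun x : ((ℕ × ℕ × ℕ) × ℕ) × ℕ =>
      ((x.1.1.2.1, x.2), (x.1.1.2.2, x.1.2))) (by fun_prop)
  exact h.of_eq fun x => (good_iff _ _ _).symm

end Pool.Agent.H692R2.USS
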