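import Pool.Agent.H692R2.USS.Iface

set_option autoImplicit false

/-! # Universal Skolem sets of density one: density and computability of `S`  (task W3) -/

namespace Pool.Agent.H692R2.USS

open Polynomial Finset
open scoped Classical

/-! ## Periodicity -/

theorem generic_of_modEq {k p n n' : ℕ} (h : n ≡ n' [MOD p]) (hg : Generic k p n) :
    Generic k p n' := by
  intro f hf hd hc hdvd
  refine hg f hf hd hc ?_
  have h1 : (p : ℤ) ∣ (n' : ℤ) - n := (Nat.modEq_iff_dvd).1 h
  have h2 : ((n' : ℤ) - n) ∣ f.eval (n' : ℤ) - f.eval (n : ℤ) := sub_dvd_eval_sub _ _ _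
  have h3 := h1.trans h2
  exact (dvd_iff_dvd_of_dvd_sub h3).1 hdvd

theorem goodPair_of_modEq {i k p n n' b : ℕ} (hp : p ≤ i) (h : n ≡ n' [MOD i.factorial])
    (hg : GoodPair k p n b) : GoodPair k p n' b := by
  obtain ⟨h1, h2, h3, h4, h5⟩ := hg
  refine ⟨h1, h2, h3, h4.trans ?_, ?_⟩
  · exact h.of_dvd (Nat.dvd_factorial (Nat.sub_pos_of_lt h1.one_lt) ((Nat.sub_le _ _).trans hp))
  · exact generic_of_modEq (h.of_dvd (Nat.dvd_factorial h1.pos hp)) h5

theorem good_of_modEq {i k n n' : ℕ} (h : n ≡ n' [MOD i.factorial]) (hg : Good i k n) :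
    Good i k n' := by
  obtain ⟨B, hB, hB2⟩ := hg
  refine ⟨B, hB, fun b hb => ?_⟩
  obtain ⟨p, hp, hp2⟩ := hB2 b hb
  exact ⟨p, hp, goodPair_of_modEq hp h hp2⟩

theorem good_congr {i k n n' : ℕ} (h : n ≡ n' [MOD i.factorial]) : Good i k n ↔ Good i k n' :=
  ⟨good_of_modEq h, good_of_modEq h.symm⟩

/-- number of `n < N` which are not good -/
noncomputable def cnt (i k N : ℕ) : ℕ := ((Finset.range N).filter (fun n => ¬ Good i k n)).card

theorem cnt_zero (i k : ℕ) : cnt i k 0 = 0 := by simp [cnt]

theorem cnt_succ (i k N : ℕ) : cnt i k (N + 1) = cnt i k N + if Good i k N then 0 else 1 := by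
  unfold cnt
  rw [Finset.range_add_one, Finset.filter_insert]
  by_cases h1 : Good i k N
  · rw [if_neg (not_not.2 h1), if_pos h1, add_zero]
  · rw [if_pos h1, if_neg h1, Finset.card_insert_of_notMem (by simp)]

theorem periodic_bad (i k : ℕ) : Function.Periodic (fun n => ¬ Good i k n) i.factorial := by
  intro n
  apply propext
  exact not_congr (good_congr (by simp [Nat.ModEq]))

/-- count in an interval -/
theorem cnt_Ico_le (i k a len : ℕ) :
    ((Finset.Ico a (a + len)).filter (fun n => ¬ Good i k n)).card ≤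
      (len / i.factorial + 1) * cnt i k i.factorial := by
  set P := i.factorial with hP
  have hPpos : 0 < P := Nat.factorial_pos _
  have h1 : ∀ t a, ((Finset.Ico a (a + t * P)).filter (fun n => ¬ Good i k n)).card =
      t * cnt i k P := by
    intro t
    induction t with
    | zero => intro a; simp
    | succ t ih =>
      intro a
      have hu : Finset.Ico a (a + (t + 1) * P) =
          Finset.Ico a (a + t * P) ∪ Finset.Ico (a + t * P) ((a + t * P) + P) := by
        rw [Finset.Ico_union_Ico_eq_Ico (by omega) (by omega)]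
        congr 1
        ring
      rw [hu, Finset.filter_union, Finset.card_union_of_disjoint, ih]
      · have := Nat.filter_Ico_card_eq_of_periodic (a + t * P) P (fun n => ¬ Good i k n)
          (periodic_bad i k)
        have h2 : Nat.count (fun n => ¬ Good i k n) P = cnt i k P := by
          rw [Nat.count_eq_card_filter_range, cnt]
        rw [h2] at this
        rw [this]
        ring
      · rw [Finset.disjoint_left]
        intro x hx hx2
        have e1 := (Finset.mem_Ico.1 (Finset.mem_filter.1 hx).1).2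
        have e2 := (Finset.mem_Ico.1 (Finset.mem_filter.1 hx2).1).1
        omega
  rw [← h1 (len / P + 1) a]
  apply Finset.card_le_card
  apply Finset.filter_subset_filter
  apply Finset.Ico_subset_Ico le_rfl
  have := Nat.lt_div_mul_add hPpos (a := len)
  have e : (len / P + 1) * P = len / P * P + P := by ring
  omega

theorem iSeq_spec (h : GoodDensity) (k : ℕ) :
    (k + 1) * cnt (iSeq k) k (iSeq k).factorial ≤ (iSeq k).factorial := by
  have hne : {i | (k + 1) * ((Finset.range i.factorial).filter (fun n => ¬ Good i k n)).card ≤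
      i.factorial}.Nonempty := by
    obtain ⟨i0, hi0⟩ := h k (1 / (k + 1)) (by positivity)
    refine ⟨i0, ?_⟩
    have h1 := hi0 i0 le_rfl
    have h2 : ((k : ℝ) + 1) * (((Finset.range i0.factorial).filter
        (fun n => ¬ Good i0 k n)).card : ℝ) ≤ i0.factorial := by
      have hk : (0 : ℝ) < k + 1 := by positivity
      calc ((k : ℝ) + 1) * (((Finset.range i0.factorial).filter
        (fun n => ¬ Good i0 k n)).card : ℝ) ≤ (k + 1) * (1 / (k + 1) * i0.factorial) :=
            mul_le_mul_of_nonneg_left h1 hk.le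
        _ = i0.factorial := by field_simp
    show (k + 1) * _ ≤ _
    exact_mod_cast h2
  exact Nat.sInf_mem hne

/-! ## The sequence `NSeq` and the level -/

theorem NSeq_succ (k : ℕ) : NSeq (k + 1) =
    (k + 1) * (NSeq k + (iSeq k).factorial + (iSeq (k + 1)).factorial + 1) := rfl

theorem NSeq_lt_succ (k : ℕ) : NSeq k < NSeq (k + 1) := by
  rw [NSeq_succ]
  have := Nat.le_mul_of_pos_left (NSeq k + (iSeq k).factorial + (iSeq (k + 1)).factorial + 1)
    (Nat.succ_pos k)
  simp only [Nat.succ_eq_add_one] at this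
  omega

theorem NSeq_strictMono : StrictMono NSeq := strictMono_nat_of_lt_succ NSeq_lt_succ

theorem le_NSeq (k : ℕ) : k ≤ NSeq k := NSeq_strictMono.le_apply

theorem NSeq_lev_le (n : ℕ) : NSeq (lev n) ≤ n :=
  Nat.findGreatest_spec (P := fun k => NSeq k ≤ n) (m := 0) (Nat.zero_le _) (Nat.zero_le _)

theorem le_lev {k n : ℕ} (h : NSeq k ≤ n) : k ≤ lev n :=
  Nat.le_findGreatest ((le_NSeq k).trans h) h

theorem lt_NSeq_lev (n : ℕ) : n < NSeq (lev n + 1) := by
  by_contra hcon
  have := le_lev (not_lt.1 hcon)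
  omega

theorem lev_eq {k n : ℕ} (h1 : NSeq k ≤ n) (h2 : n < NSeq (k + 1)) : lev n = k := by
  apply le_antisymm _ (le_lev h1)
  by_contra hcon
  have h3 : k + 1 ≤ lev n := by omega
  have := NSeq_strictMono.monotone h3
  have := NSeq_lev_le n
  omega

/-! ## Density -/

theorem bad_Ico (h : GoodDensity) (k a b : ℕ) (ha : NSeq k ≤ a) (hab : a ≤ b)
    (hb : b ≤ NSeq (k + 1)) :
    (k + 1) * ((Finset.Ico a b).filter (fun n => n ∉ S)).card ≤ (b - a) + (iSeq k).factorial := by
  have hPpos : 0 < (iSeq k).factorial := Nat.factorial_pos _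
  have h1 : (Finset.Ico a b).filter (fun n => n ∉ S) =
      (Finset.Ico a (a + (b - a))).filter (fun n => ¬ Good (iSeq k) k n) := by
    rw [Nat.add_sub_cancel' hab]
    apply Finset.filter_congr
    intro n hn
    obtain ⟨h1, h2⟩ := Finset.mem_Ico.1 hn
    have : lev n = k := lev_eq (ha.trans h1) (h2.trans_le hb)
    show ¬ (Good (iSeq (lev n)) (lev n) n) ↔ _
    rw [this]
  rw [h1]
  have h2 := cnt_Ico_le (iSeq k) k a (b - a)
  have h3 := iSeq_spec h k
  calc (k + 1) * _ ≤ (k + 1) * (((b - a) / (iSeq k).factorial + 1) *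
        cnt (iSeq k) k (iSeq k).factorial) := Nat.mul_le_mul_left _ h2
    _ = ((b - a) / (iSeq k).factorial + 1) * ((k + 1) * cnt (iSeq k) k (iSeq k).factorial) := by
        ring
    _ ≤ ((b - a) / (iSeq k).factorial + 1) * (iSeq k).factorial := Nat.mul_le_mul_left _ h3
    _ = (b - a) / (iSeq k).factorial * (iSeq k).factorial + (iSeq k).factorial := by ring
    _ ≤ (b - a) + (iSeq k).factorial := by
        have := Nat.div_mul_le_self (b - a) (iSeq k).factorial
        omega

theorem bad_le (h : GoodDensity) (N k : ℕ) (hk : lev N = k + 1) :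
    (k + 1) * ((Finset.range N).filter (fun n => n ∉ S)).card ≤ 3 * N := by
  have hN1 : NSeq (k + 1) ≤ N := hk ▸ NSeq_lev_le N
  have hN2 : N < NSeq (k + 1 + 1) := hk ▸ lt_NSeq_lev N
  have h0 : NSeq k ≤ NSeq (k + 1) := (NSeq_lt_succ k).le
  have hsub : (Finset.range N).filter (fun n => n ∉ S) ⊆
      Finset.range (NSeq k) ∪ ((Finset.Ico (NSeq k) (NSeq (k + 1))).filter (fun n => n ∉ S) ∪
        (Finset.Ico (NSeq (k + 1)) N).filter (fun n => n ∉ S)) := by
    intro n hn
    obtain ⟨h1, h2⟩ := Finset.mem_filter.1 hn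
    have h1' := Finset.mem_range.1 h1
    simp only [Finset.mem_union, Finset.mem_range, Finset.mem_filter, Finset.mem_Ico]
    by_cases e1 : n < NSeq k
    · exact Or.inl e1
    · by_cases e2 : n < NSeq (k + 1)
      · exact Or.inr (Or.inl ⟨⟨by omega, e2⟩, h2⟩)
      · exact Or.inr (Or.inr ⟨⟨by omega, h1'⟩, h2⟩)
  have hc := (Finset.card_le_card hsub).trans ((Finset.card_union_le _ _).trans
    (Nat.add_le_add_left (Finset.card_union_le _ _) _))
  rw [Finset.card_range] at hc
  have hA := bad_Ico h k (NSeq k) (NSeq (k + 1)) le_rfl h0 le_rfl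
  have hB := bad_Ico h (k + 1) (NSeq (k + 1)) N le_rfl hN1 hN2.le
  set A := ((Finset.Ico (NSeq k) (NSeq (k + 1))).filter (fun n => n ∉ S)).card
  set B := ((Finset.Ico (NSeq (k + 1)) N).filter (fun n => n ∉ S)).card
  have hS := NSeq_succ k
  have hP : (iSeq k).factorial ≤ (k + 1) * (iSeq k).factorial :=
    Nat.le_mul_of_pos_left _ (Nat.succ_pos k)
  have hP2 : (iSeq (k + 1)).factorial ≤ (k + 1) * (iSeq (k + 1)).factorial :=
    Nat.le_mul_of_pos_left _ (Nat.succ_pos k)
  have e1 : (k + 1) * (NSeq k + (iSeq k).factorial + (iSeq (k + 1)).factorial + 1) =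
    (k + 1) * NSeq k + (k + 1) * (iSeq k).factorial + (k + 1) * (iSeq (k + 1)).factorial +
      (k + 1) := by ring
  have hB' : (k + 1) * B ≤ (k + 1 + 1) * B := Nat.mul_le_mul_right _ (by omega)
  calc (k + 1) * ((Finset.range N).filter (fun n => n ∉ S)).card
      ≤ (k + 1) * (NSeq k + (A + B)) := Nat.mul_le_mul_left _ hc
    _ = (k + 1) * NSeq k + (k + 1) * A + (k + 1) * B := by ring
    _ ≤ 3 * N := by omega

theorem lev_tendsto : Filter.Tendsto (fun N : ℕ => lev N) Filter.atTop Filter.atTop := by
  rw [Filter.tendsto_atTop]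
  intro k
  filter_upwards [Filter.eventually_ge_atTop (NSeq k)] with N hN
  exact le_lev hN

-- W3
theorem S_density (h : GoodDensity) :
    Filter.Tendsto (fun N : ℕ => (((Finset.range N).filter (fun n => n ∈ S)).card : ℝ) / N)
      Filter.atTop (nhds 1) := by
  have hlow : Filter.Tendsto (fun N : ℕ => 1 - 3 / ((lev N : ℕ) : ℝ)) Filter.atTop
      (nhds (1 - 0)) := by
    apply Filter.Tendsto.sub tendsto_const_nhds
    apply Filter.Tendsto.div_atTop tendsto_const_nhds
    exact tendsto_natCast_atTop_atTop.comp lev_tendsto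
  rw [sub_zero] at hlow
  refine tendsto_of_tendsto_of_tendsto_of_le_of_le' hlow tendsto_const_nhds ?_ ?_
  · filter_upwards [Filter.eventually_ge_atTop (NSeq 1), Filter.eventually_ge_atTop 1]
      with N hN hN1
    have hl : 1 ≤ lev N := le_lev hN
    obtain ⟨k, hk⟩ := Nat.exists_eq_add_of_le' hl
    have hb := bad_le h N k hk
    have hsum : ((Finset.range N).filter (fun n => n ∈ S)).card +
        ((Finset.range N).filter (fun n => n ∉ S)).card = N := by
      rw [Finset.card_filter_add_card_filter_not, Finset.card_range]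
    have hNpos : (0 : ℝ) < N := by exact_mod_cast hN1
    have hsum' : (((Finset.range N).filter (fun n => n ∈ S)).card : ℝ) +
        (((Finset.range N).filter (fun n => n ∉ S)).card : ℝ) = N := by exact_mod_cast hsum
    have hb' : ((k : ℝ) + 1) * (((Finset.range N).filter (fun n => n ∉ S)).card : ℝ) ≤ 3 * N := by
      exact_mod_cast hb
    rw [hk]
    push_cast
    rw [le_div_iff₀ hNpos]
    have hkpos : (0 : ℝ) < k + 1 := by positivity
    have h3 : (((Finset.range N).filter (fun n => n ∉ S)).card : ℝ) ≤ 3 / (k + 1) * N := by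
      rw [div_mul_eq_mul_div, le_div_iff₀ hkpos]
      linarith
    linarith
  · filter_upwards [Filter.eventually_ge_atTop 1] with N hN1
    have hNpos : (0 : ℝ) < N := by exact_mod_cast hN1
    rw [div_le_one hNpos]
    have := Finset.card_filter_le (Finset.range N) (fun n => n ∈ S)
    rw [Finset.card_range] at this
    exact_mod_cast this

/-! ## Computability -/

theorem factorial_computable : Computable Nat.factorial := by
  have h1 : Computable fun n : ℕ => (Nat.rec 1 (fun y IH => (y + 1) * IH) n : ℕ) :=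
    Computable.nat_rec (f := fun n : ℕ => n) (g := fun _ => 1)
      (h := fun _ x => (x.1 + 1) * x.2) Computable.id (Computable.const 1)
      ((Primrec.nat_mul.comp (Primrec.succ.comp (Primrec.fst.comp Primrec.snd))
        (Primrec.snd.comp Primrec.snd)).to_comp)
  refine h1.of_eq fun n => ?_
  induction n with
  | zero => rfl
  | succ n ih => rw [Nat.factorial_succ, ← ih]

theorem le_computable {α : Type*} [Primcodable α] {f g : α → ℕ} (hf : Computable f)
    (hg : Computable g) : Computable fun a => decide (f a ≤ g a) := by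
  have h1 : Computable₂ (fun a b : ℕ => decide (a ≤ b)) := Primrec.nat_le.decide.to_comp
  exact Computable₂.comp (f := fun a b : ℕ => decide (a ≤ b)) h1 hf hg

theorem add_computable {α : Type*} [Primcodable α] {f g : α → ℕ} (hf : Computable f)
    (hg : Computable g) : Computable fun a => f a + g a := by
  have h1 : Computable₂ (fun a b : ℕ => a + b) := Primrec.nat_add.to_comp
  exact Computable₂.comp (f := fun a b : ℕ => a + b) h1 hf hg

theorem mul_computable {α : Type*} [Primcodable α] {f g : α → ℕ} (hf : Computable f)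
    (hg : Computable g) : Computable fun a => f a * g a := by
  have h1 : Computable₂ (fun a b : ℕ => a * b) := Primrec.nat_mul.to_comp
  exact Computable₂.comp (f := fun a b : ℕ => a * b) h1 hf hg

theorem cnt_computable
    (hg : ComputablePred (fun x : ℕ × ℕ × ℕ => Good x.1 x.2.1 x.2.2)) :
    Computable fun x : ℕ × ℕ × ℕ => cnt x.1 x.2.1 x.2.2 := by
  obtain ⟨gd, hgd, hgd2⟩ := ComputablePred.computable_iff.1 hg
  have hgd3 : ∀ i k n, Good i k n ↔ gd (i, k, n) = true := fun i k n => by
    have := congrFun hgd2 (i, k, n)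
    exact iff_of_eq this
  have h1 : Computable fun x : ℕ × ℕ × ℕ => (Nat.rec 0 (fun y IH =>
      IH + cond (gd (x.1, x.2.1, y)) 0 1) x.2.2 : ℕ) := by
    refine Computable.nat_rec (f := fun x : ℕ × ℕ × ℕ => x.2.2) (g := fun _ => 0)
      (h := fun x z => z.2 + cond (gd (x.1, x.2.1, z.1)) 0 1)
      (Computable.snd.comp Computable.snd) (Computable.const 0) ?_
    have e1 : Computable fun z : (ℕ × ℕ × ℕ) × ℕ × ℕ => z.2.2 :=
      Computable.snd.comp Computable.snd
    have e2 : Computable fun z : (ℕ × ℕ × ℕ) × ℕ × ℕ => (z.1.1, z.1.2.1, z.2.1) :=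
      (Computable.fst.comp Computable.fst).pair
        ((Computable.fst.comp (Computable.snd.comp Computable.fst)).pair
          (Computable.fst.comp Computable.snd))
    have e3 : Computable fun z : (ℕ × ℕ × ℕ) × ℕ × ℕ => cond (gd (z.1.1, z.1.2.1, z.2.1)) 0 1 :=
      Computable.cond (hgd.comp e2) (Computable.const 0) (Computable.const 1)
    exact add_computable e1 e3
  refine h1.of_eq fun x => ?_
  obtain ⟨i, k, N⟩ := x
  show (Nat.rec 0 (fun y IH => IH + cond (gd (i, k, y)) 0 1) N : ℕ) = cnt i k N
  induction N with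
  | zero => rw [cnt_zero]; rfl
  | succ n ih =>
    rw [cnt_succ, ← ih]
    show _ + cond (gd (i, k, n)) 0 1 = _ + _
    congr 1
    by_cases hG : Good i k n
    · rw [if_pos hG, (hgd3 i k n).1 hG]; rfl
    · rw [if_neg hG, Bool.eq_false_of_not_eq_true (fun h => hG ((hgd3 i k n).2 h))]; rfl

/-- the test defining `iSeq` -/
noncomputable def tst (z : ℕ × ℕ) : Bool :=
  decide ((z.1 + 1) * cnt z.2 z.1 z.2.factorial ≤ z.2.factorial)

theorem tst_aux {f : ℕ × ℕ → ℕ} {F : ℕ → ℕ} (hf : Computable f) (hF : Computable F) :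
    Computable fun z : ℕ × ℕ => decide ((z.1 + 1) * f z ≤ F z.2) :=
  le_computable (mul_computable (Computable.succ.comp Computable.fst) hf)
    (hF.comp Computable.snd)

theorem tst_computable
    (hg : ComputablePred (fun x : ℕ × ℕ × ℕ => Good x.1 x.2.1 x.2.2)) : Computable tst := by
  have e0 : Computable fun z : ℕ × ℕ => (z.2, z.1, z.2.factorial) :=
    Computable.snd.pair (Computable.fst.pair (factorial_computable.comp Computable.snd))
  have e1 := (cnt_computable hg).comp e0
  exact tst_aux e1 factorial_computable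

theorem rfind_partrec {f : ℕ × ℕ → Bool} (hf : Computable f) :
    Partrec fun k : ℕ => Nat.rfind ((fun i : ℕ => f (k, i) : ℕ → Bool) : ℕ →. Bool) := by
  have : Computable₂ fun (k i : ℕ) => f (k, i) := hf
  exact Partrec.rfind this.partrec₂

theorem iSeq_computable
    (hg : ComputablePred (fun x : ℕ × ℕ × ℕ => Good x.1 x.2.1 x.2.2)) (h : GoodDensity) :
    Computable iSeq := by
  refine Partrec.of_eq (rfind_partrec (tst_computable hg)) fun k => ?_
  rw [PFun.coe_val, Part.eq_some_iff, Nat.mem_rfind]
  constructor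
  · rw [PFun.coe_val, Part.mem_some_iff]
    symm
    unfold tst
    rw [decide_eq_true_iff]
    exact iSeq_spec h k
  · intro m hm
    rw [PFun.coe_val, Part.mem_some_iff]
    symm
    unfold tst
    rw [decide_eq_false_iff_not]
    intro hcon
    exact Nat.notMem_of_lt_sInf hm hcon

theorem NSeq_computable'
    (hg : ComputablePred (fun x : ℕ × ℕ × ℕ => Good x.1 x.2.1 x.2.2)) (h : GoodDensity) :
    Computable NSeq := by
  have hi := iSeq_computable hg h
  have h1 : Computable fun n : ℕ => (Nat.rec 0 (fun y IH => (y + 1) *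
      (IH + (iSeq y).factorial + (iSeq (y + 1)).factorial + 1)) n : ℕ) := by
    refine Computable.nat_rec (f := fun n : ℕ => n) (g := fun _ => 0)
      (h := fun _ x => (x.1 + 1) *
        (x.2 + (iSeq x.1).factorial + (iSeq (x.1 + 1)).factorial + 1))
      Computable.id (Computable.const 0) ?_
    have a1 : Computable fun z : ℕ × ℕ × ℕ => z.2.1 := Computable.fst.comp Computable.snd
    have a2 : Computable fun z : ℕ × ℕ × ℕ => z.2.2 := Computable.snd.comp Computable.snd
    have a3 : Computable fun z : ℕ × ℕ × ℕ => z.2.1 + 1 := Computable.succ.comp a1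
    have a4 : Computable fun z : ℕ × ℕ × ℕ => (iSeq z.2.1).factorial :=
      factorial_computable.comp (hi.comp a1)
    have a5 : Computable fun z : ℕ × ℕ × ℕ => (iSeq (z.2.1 + 1)).factorial :=
      factorial_computable.comp (hi.comp a3)
    have a6 := add_computable (add_computable a2 a4) a5
    exact mul_computable a3 (Computable.succ.comp a6)
  refine h1.of_eq fun n => ?_
  induction n with
  | zero => rfl
  | succ n ih => rw [NSeq_succ, ← ih]

theorem lev_computable (hN : Computable NSeq) : Computable lev := by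
  have h1 : Computable fun x : ℕ => (Nat.rec 0 (fun y IH =>
      cond (decide (NSeq (y + 1) ≤ x)) (y + 1) IH) x : ℕ) := by
    refine Computable.nat_rec (f := fun x : ℕ => x) (g := fun _ => 0)
      (h := fun x z => cond (decide (NSeq (z.1 + 1) ≤ x)) (z.1 + 1) z.2)
      Computable.id (Computable.const 0) ?_
    have a1 : Computable fun z : ℕ × ℕ × ℕ => z.2.1 + 1 :=
      Computable.succ.comp (Computable.fst.comp Computable.snd)
    have a2 : Computable fun z : ℕ × ℕ × ℕ => z.2.2 := Computable.snd.comp Computable.snd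
    have a3 : Computable fun z : ℕ × ℕ × ℕ => decide (NSeq (z.2.1 + 1) ≤ z.1) :=
      le_computable (hN.comp a1) Computable.fst
    exact Computable.cond a3 a1 a2
  refine h1.of_eq fun n => ?_
  have key : ∀ m, (Nat.rec 0 (fun y IH =>
      cond (decide (NSeq (y + 1) ≤ n)) (y + 1) IH) m : ℕ) =
      Nat.findGreatest (fun k => NSeq k ≤ n) m := by
    intro m
    induction m with
    | zero => rfl
    | succ m ih =>
      rw [Nat.findGreatest_succ, ← ih]
      show cond (decide (NSeq (m + 1) ≤ n)) (m + 1) _ = _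
      by_cases hm : NSeq (m + 1) ≤ n
      · simp [hm]
      · simp [hm]
  exact key n

theorem S_computable'
    (hg : ComputablePred (fun x : ℕ × ℕ × ℕ => Good x.1 x.2.1 x.2.2)) (h : GoodDensity) :
    ComputablePred (fun n => n ∈ S) := by
  have hi := iSeq_computable hg h
  have hl := lev_computable (NSeq_computable' hg h)
  obtain ⟨gd, hgd, hgd2⟩ := ComputablePred.computable_iff.1 hg
  have h1 : Computable fun n : ℕ => (iSeq (lev n), lev n, n) :=
    (hi.comp hl).pair (hl.pair Computable.id)
  refine ComputablePred.computable_iff.2 ⟨_, hgd.comp h1, ?_⟩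
  funext n
  exact congrFun hgd2 (iSeq (lev n), lev n, n)

end Pool.Agent.H692R2.USS
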