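import Pool.Agent.H692R2.USS.CCexists
import Pool.Agent.H692R2.USS.LRS
import Pool.Agent.H692R2.USS.T1
import Pool.Agent.H692R2.USS.T2
import Pool.Agent.H692R2.USS.T3
import Pool.Agent.H692R2.USS.T5
import Pool.Agent.H692R2.USS.T7
import Pool.Agent.H692R2.USS.T8
import Pool.Agent.H692R2.USS.T9
import Pool.Agent.H692R2.USS.U1
import Pool.Agent.H692R2.USS.U3
import Pool.Agent.H692R2.USS.U5
import Pool.Agent.H692R2.USS.W1
import Pool.Agent.H692R2.USS.W3
import Pool.Agent.H692R2.USS.SplitField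

set_option autoImplicit false

namespace Pool.Agent.H692R2.USS

open Polynomial Finset
open Pool.Agent.Helper446
open scoped Classical

theorem goodDensity_holds : GoodDensity := by
  have hBT := bt
  have hG := gcdSum hBT invTot
  refine goodDensity (fun k hk => block hG k hk ?_) nonGen
  obtain ⟨K, hF, hN, hK⟩ := splitField k
  obtain ⟨c, C, hc, h⟩ := @massK hBT K hF hN
  refine ⟨c, C, hc, fun L hL => (h L hL).trans ?_⟩
  refine Finset.sum_le_sum_of_subset_of_nonneg ?_ (fun _ _ _ => by positivity)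
  intro p hp
  rw [Finset.mem_filter] at hp ⊢
  exact ⟨hp.1, hp.2.1, hK p hp.2.1 hp.2.2⟩

theorem cert_sound {u : ℕ → ℤ} {k : ℕ} (hc : Cert u k) {k' : ℕ} (hk : k ≤ k') {i n : ℕ}
    (hg : Good i k' n) (hu : u n = 0) :
    ∃ T, 1 ≤ T ∧ T ≤ k ∧ ∀ n', n' ≡ n [MOD T] → u n' = 0 :=
  cert_sound_of @zero_bound @period hc hk hg hu

/-- the coefficient list used by `run` -/
def Fp (c : List (ℕ × ℕ)) : List (ℕ × ℕ) :=
  (List.range c.length).map (fun i => zn (at0 c (c.length - 1 - i)))

theorem Fp_length (c : List (ℕ × ℕ)) : (Fp c).length = c.length := by simp [Fp]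

theorem Fp_at0 {c : List (ℕ × ℕ)} {i : ℕ} (h : i < c.length) :
    at0 (Fp c) i = zn (at0 c (c.length - 1 - i)) := by
  unfold Fp
  unfold at0
  rw [List.getD_eq_getElem?_getD, List.getElem?_map, List.getElem?_range h]
  rfl

/-- validity of the data -/
def Valid (p : List (ℕ × ℕ) × List (ℕ × ℕ)) : Prop :=
  p.1.length = p.2.length ∧ 1 ≤ p.1.length ∧ iv (at0 p.1 (p.1.length - 1)) ≠ 0

theorem getLast_iff (c : List (ℕ × ℕ)) :
    (∃ q ∈ c.getLast?, (q.1 : ℤ) ≠ (q.2 : ℤ)) ↔
      1 ≤ c.length ∧ iv (at0 c (c.length - 1)) ≠ 0 := by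
  rcases c.eq_nil_or_concat with rfl | ⟨l, x, rfl⟩
  · simp
  · rw [List.concat_eq_append]
    simp [iv, sub_eq_zero]

theorem isLRS_run {p : List (ℕ × ℕ) × List (ℕ × ℕ)} {u : ℕ → ℤ} (h : IsLRS p u) (n : ℕ) :
    iv (run (Fp p.1) p.2 n) = u n := by
  obtain ⟨h1, h2, h3, h4⟩ := h
  obtain ⟨h5, h6⟩ := (getLast_iff p.1).1 h2
  refine run_eq (by omega) (by rw [Fp_length, h1]) ?_ h3 n
  rw [ann_PG]
  intro n
  rw [Fp_length, h4 n, ← Finset.sum_neg_distrib, ← Finset.sum_range_reflect]
  refine Finset.sum_congr rfl fun i hi => ?_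
  rw [Finset.mem_range] at hi
  have e : (Fp p.1).getD i (0, 0) = zn (at0 p.1 (p.1.length - 1 - i)) := Fp_at0 hi
  rw [e, iv_zn]
  rw [show n + p.1.length - 1 - (p.1.length - 1 - i) = n + i by omega]
  simp only [iv, at0]
  ring

theorem valid_iff (p : List (ℕ × ℕ) × List (ℕ × ℕ)) : Valid p ↔ ∃ u, IsLRS p u := by
  constructor
  · rintro ⟨h1, h2, h3⟩
    refine ⟨fun n => iv (run (Fp p.1) p.2 n), h1, (getLast_iff _).2 ⟨h2, h3⟩, ?_, ?_⟩
    · intro i hi
      show iv (run (Fp p.1) p.2 i) = _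
      rw [run_init hi]
      rfl
    · intro n
      have h4 := run_ann (G := Fp p.1) (a := p.2) (by omega) (by rw [Fp_length, h1])
      rw [ann_PG] at h4
      have h5 := h4 n
      rw [Fp_length] at h5
      beta_reduce
      rw [h5, ← Finset.sum_neg_distrib, ← Finset.sum_range_reflect]
      refine Finset.sum_congr rfl fun i hi => ?_
      rw [Finset.mem_range] at hi
      have e : (Fp p.1).getD (p.1.length - 1 - i) (0, 0) = zn (at0 p.1 i) := by
        have := Fp_at0 (c := p.1) (i := p.1.length - 1 - i) (by omega)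
        rw [show p.1.length - 1 - (p.1.length - 1 - i) = i by omega] at this
        exact this
      rw [e, iv_zn]
      rw [show n + (p.1.length - 1 - i) = n + p.1.length - 1 - i by omega]
      simp only [iv, at0]
      ring
  · rintro ⟨u, h1, h2, -, -⟩
    obtain ⟨h3, h4⟩ := (getLast_iff _).1 h2
    exact ⟨h1, h3, h4⟩

theorem CC_exists' {p : List (ℕ × ℕ) × List (ℕ × ℕ)} (h : Valid p) :
    ∃ k c, CC (Fp p.1) p.2 k c := by
  obtain ⟨h1, h2, h3⟩ := h
  refine CC_exists _ _ (by omega) (by rw [Fp_length, h1]) ?_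
  rw [Fp_at0 (by omega), iv_zn, show p.1.length - 1 - 0 = p.1.length - 1 by omega]
  simpa using h3

@[fun_prop] theorem cFp {α : Type*} [Primcodable α] {c : α → List (ℕ × ℕ)} (hc : Computable c) :
    Computable fun x => Fp (c x) := by
  have h : Computable fun x => (List.range (c x).length).foldl
      (fun (s : List (ℕ × ℕ)) i => s ++ [zn (at0 (c x) ((c x).length - 1 - i))]) [] := by
    have hr : Computable fun x => List.range (c x).length :=
      Primrec.list_range.to_comp.comp (by fun_prop)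
    refine RE.list_foldl (h := fun x (y : List (ℕ × ℕ) × ℕ) =>
      y.1 ++ [zn (at0 (c x) ((c x).length - 1 - y.2))]) hr (Computable.const []) ?_
    show Computable fun z : α × (List (ℕ × ℕ) × ℕ) =>
      z.2.1 ++ [zn (at0 (c z.1) ((c z.1).length - 1 - z.2.2))]
    unfold at0
    fun_prop
  refine h.of_eq fun x => ?_
  unfold Fp
  have key : ∀ (f : ℕ → ℕ × ℕ) (l : List ℕ) (s : List (ℕ × ℕ)),
      l.foldl (fun s i => s ++ [f i]) s = s ++ l.map f := by
    intro f l
    induction l with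
    | nil => intro s; simp
    | cons a l ih => intro s; rw [List.foldl_cons, ih, List.map_cons, List.append_assoc]; rfl
  exact (key (fun i => zn (at0 (c x) ((c x).length - 1 - i))) _ []).trans (List.nil_append _)

section valid
variable {α : Type*} [Primcodable α]

theorem re_valid {p : α → List (ℕ × ℕ) × List (ℕ × ℕ)} (hp : Computable p) :
    REPred fun x => Valid (p x) := by
  have h : REPred fun x => (p x).1.length = (p x).2.length ∧ 1 ≤ (p x).1.length ∧
      ¬ zeq (at0 (p x).1 ((p x).1.length - 1)) (0, 0) :=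
    RE.and (RE.eq (by fun_prop) (by fun_prop)) (RE.and (RE.le (by fun_prop) (by fun_prop))
      (re_not_zeq (by unfold at0; fun_prop) (by fun_prop)))
  refine h.of_eq fun x => ?_
  unfold Valid
  rw [zeq_iff, iv_zero]

theorem re_not_valid {p : α → List (ℕ × ℕ) × List (ℕ × ℕ)} (hp : Computable p) :
    REPred fun x => ¬ Valid (p x) := by
  have h : REPred fun x => (p x).1.length ≠ (p x).2.length ∨ ((p x).1.length < 1 ∨
      zeq (at0 (p x).1 ((p x).1.length - 1)) (0, 0)) :=
    RE.or (RE.ne (by fun_prop) (by fun_prop)) (RE.or (RE.lt (by fun_prop) (by fun_prop))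
      (re_zeq (by unfold at0; fun_prop) (by fun_prop)))
  refine h.of_eq fun x => ?_
  unfold Valid
  rw [zeq_iff, iv_zero]
  have : (p x).1.length < 1 ↔ ¬ 1 ≤ (p x).1.length := by omega
  rw [this]
  tauto

end valid

/-- a computable level -/
theorem exists_level : ∃ κ : List (ℕ × ℕ) × List (ℕ × ℕ) → ℕ, Computable κ ∧
    ∀ p, Valid p → ∃ c, CC (Fp p.1) p.2 (κ p) c := by
  have hr : REPred fun x : (List (ℕ × ℕ) × List (ℕ × ℕ)) × ℕ =>
      ¬ Valid x.1 ∨ ∃ c, CC (Fp x.1.1) x.1.2 x.2 c := by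
    refine RE.or (re_not_valid (by fun_prop)) ?_
    refine RE.ex (p := fun (x : (List (ℕ × ℕ) × List (ℕ × ℕ)) × ℕ) c =>
      CC (Fp x.1.1) x.1.2 x.2 c) ?_
    exact re_CC (by fun_prop) (by fun_prop) (by fun_prop) (by fun_prop)
  obtain ⟨f, hf, hd, hs⟩ := RE.uniformize (r := fun (p : List (ℕ × ℕ) × List (ℕ × ℕ)) (k : ℕ) =>
    ¬ Valid p ∨ ∃ c, CC (Fp p.1) p.2 k c) hr
  have htot : ∀ p, (f p).Dom := by
    intro p
    rw [hd]
    by_cases hv : Valid p
    · obtain ⟨k, c, hc⟩ := CC_exists' hv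
      exact ⟨k, Or.inr ⟨c, hc⟩⟩
    · exact ⟨0, Or.inl hv⟩
  refine ⟨fun p => (f p).get (htot p), hf.of_eq_tot fun p => Part.get_mem _, fun p hv => ?_⟩
  rcases hs p _ (Part.get_mem (htot p)) with h | h
  · exact absurd hv h
  · exact h

/-- the good sets have density one -/
theorem good_density (k : ℕ) :
    Filter.Tendsto (fun N : ℕ => (((Finset.range N).filter (fun n => ∃ i, Good i k n)).card : ℝ) / N)
      Filter.atTop (nhds 1) := by
  rw [Metric.tendsto_atTop]
  intro ε hε
  obtain ⟨i, hi⟩ := goodDensity_holds k (ε / 4) (by positivity)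
  have hP : 0 < i.factorial := Nat.factorial_pos i
  have hPr : (0 : ℝ) < i.factorial := by exact_mod_cast hP
  have h1 : ((cnt i k i.factorial : ℕ) : ℝ) ≤ ε / 4 * i.factorial := hi i le_rfl
  refine ⟨i.factorial, fun N hN => ?_⟩
  have hNpos : (0 : ℝ) < N := by exact_mod_cast hP.trans_le hN
  have hb := cnt_Ico_le i k 0 N
  rw [zero_add, ← Finset.range_eq_Ico] at hb
  have hsum : ((Finset.range N).filter (fun n => ∃ i, Good i k n)).card +
      ((Finset.range N).filter (fun n => ¬ ∃ i, Good i k n)).card = N := by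
    rw [Finset.card_filter_add_card_filter_not, Finset.card_range]
  have hle : ((Finset.range N).filter (fun n => ¬ ∃ i, Good i k n)).card ≤
      ((Finset.range N).filter (fun n => ¬ Good i k n)).card := by
    refine Finset.card_le_card ?_
    intro n hn
    rw [Finset.mem_filter] at hn ⊢
    exact ⟨hn.1, fun h => hn.2 ⟨i, h⟩⟩
  have hb2 : (((Finset.range N).filter (fun n => ¬ ∃ i, Good i k n)).card : ℝ) ≤ ε / 2 * N := by
    have h2 : ((((Finset.range N).filter (fun n => ¬ ∃ i, Good i k n)).card : ℕ) : ℝ) ≤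
        (((N / i.factorial + 1) * cnt i k i.factorial : ℕ) : ℝ) := by exact_mod_cast hle.trans hb
    refine h2.trans ?_
    push_cast
    have h3 : ((N / i.factorial : ℕ) : ℝ) ≤ N / i.factorial := Nat.cast_div_le
    have h4 : (1 : ℝ) ≤ N / i.factorial := by
      rw [le_div_iff₀ hPr, one_mul]; exact_mod_cast hN
    calc (((N / i.factorial : ℕ) : ℝ) + 1) * (cnt i k i.factorial : ℝ)
        ≤ (2 * (N / i.factorial)) * (ε / 4 * i.factorial) := by
          gcongr
          linarith
      _ = ε / 2 * N := by field_simp; ring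
  rw [Real.dist_eq]
  have h5 : (((Finset.range N).filter (fun n => ∃ i, Good i k n)).card : ℝ) / N - 1 =
      - ((((Finset.range N).filter (fun n => ¬ ∃ i, Good i k n)).card : ℝ) / N) := by
    have h6 : (((Finset.range N).filter (fun n => ∃ i, Good i k n)).card : ℝ) +
        (((Finset.range N).filter (fun n => ¬ ∃ i, Good i k n)).card : ℝ) = N := by
      exact_mod_cast hsum
    field_simp
    linarith
  rw [h5, abs_neg, abs_of_nonneg (by positivity), div_lt_iff₀ hNpos]
  refine hb2.trans_lt ?_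
  nlinarith

/-- `S` meets every residue class -/
theorem S_meets (r T : ℕ) (hT : 1 ≤ T) : ∃ n ∈ S, n ≡ r [MOD T] := by
  by_contra hcon
  push Not at hcon
  have hd := S_density goodDensity_holds
  rw [Metric.tendsto_atTop] at hd
  obtain ⟨N0, hN0⟩ := hd (1 / (2 * T)) (by positivity)
  set M : ℕ := N0 + 1 with hM
  have h1 := hN0 (T * M) (by nlinarith)
  have hTr : (0 : ℝ) < T := by exact_mod_cast hT
  have hMr : (0 : ℝ) < M := by positivity
  have hcard : ((Finset.range (T * M)).filter (fun n => n ∈ S)).card + M ≤ T * M := by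
    have hinj : ((Finset.range M).image (fun l => r % T + T * l)).card = M := by
      rw [Finset.card_image_of_injective, Finset.card_range]
      intro a b hab
      simp only at hab
      have : T * a = T * b := by omega
      exact Nat.eq_of_mul_eq_mul_left hT this
    have hdisj : Disjoint ((Finset.range (T * M)).filter (fun n => n ∈ S))
        ((Finset.range M).image (fun l => r % T + T * l)) := by
      rw [Finset.disjoint_left]
      intro n hn hn2
      rw [Finset.mem_filter] at hn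
      rw [Finset.mem_image] at hn2
      obtain ⟨l, -, rfl⟩ := hn2
      refine hcon _ hn.2 ?_
      simp [Nat.ModEq]
    have hsub : ((Finset.range (T * M)).filter (fun n => n ∈ S)) ∪
        ((Finset.range M).image (fun l => r % T + T * l)) ⊆ Finset.range (T * M) := by
      refine Finset.union_subset (Finset.filter_subset _ _) ?_
      intro n hn
      rw [Finset.mem_image] at hn
      obtain ⟨l, hl, rfl⟩ := hn
      rw [Finset.mem_range] at hl ⊢
      have := Nat.mod_lt r hT
      have h2 : T * (l + 1) ≤ T * M := Nat.mul_le_mul_left _ hl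
      rw [Nat.mul_add] at h2
      omega
    have := Finset.card_le_card hsub
    rw [Finset.card_union_of_disjoint hdisj, hinj, Finset.card_range] at this
    exact this
  rw [Real.dist_eq] at h1
  have h2 : ((((Finset.range (T * M)).filter (fun n => n ∈ S)).card : ℕ) : ℝ) + M ≤ T * M := by
    exact_mod_cast hcard
  have h3 : (((Finset.range (T * M)).filter (fun n => n ∈ S)).card : ℝ) / ((T * M : ℕ) : ℝ) ≤
      1 - 1 / T := by
    push_cast
    rw [div_le_iff₀ (by positivity)]
    have : (1 - 1 / (T : ℝ)) * (T * M) = T * M - M := by field_simp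
    rw [this]; linarith
  have h4 := (abs_lt.1 h1).1
  have h5 : 1 / (2 * (T : ℝ)) < 1 / T := by
    apply one_div_lt_one_div_of_lt hTr; linarith
  linarith

/-- **Main theorem.** -/
theorem main :
    (∀ k : ℕ, Filter.Tendsto (fun N : ℕ =>
        (((Finset.range N).filter (fun n => ∃ i, Good i k n)).card : ℝ) / N)
      Filter.atTop (nhds 1)) ∧
    Filter.Tendsto (fun N : ℕ => (((Finset.range N).filter (fun n => n ∈ S)).card : ℝ) / N)
      Filter.atTop (nhds 1) ∧
    ComputablePred (fun n : ℕ => n ∈ S) ∧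
    (∃ κ : List (ℕ × ℕ) × List (ℕ × ℕ) → ℕ, Computable κ ∧
      ∀ p u, IsLRS p u → ∀ k, κ p ≤ k → ∀ i n, Good i k n → u n = 0 →
        ∃ T, 1 ≤ T ∧ T ≤ κ p ∧ ∀ n', n' ≡ n [MOD T] → u n' = 0) ∧
    (∃ β : List (ℕ × ℕ) × List (ℕ × ℕ) → ℕ, Computable β ∧
      ∀ p u, IsLRS p u → ∀ n ∈ S, β p ≤ n → u n = 0 →
        ∃ T, 1 ≤ T ∧ T ≤ β p ∧ ∀ n', n' ≡ n [MOD T] → u n' = 0) ∧
    ComputablePred (fun p : List (ℕ × ℕ) × List (ℕ × ℕ) => ∃ u, IsLRS p u ∧ ∃ n ∈ S, u n = 0) := by
  have hS : ComputablePred (fun n : ℕ => n ∈ S) := S_computable' good_computable goodDensity_holds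
  have hNc : Computable NSeq := NSeq_computable' good_computable goodDensity_holds
  obtain ⟨κ, hκ, hκ2⟩ := exists_level
  have hmain : ∀ p u, IsLRS p u → ∀ k, κ p ≤ k → ∀ i n, Good i k n → u n = 0 →
      ∃ T, 1 ≤ T ∧ T ≤ κ p ∧ ∀ n', n' ≡ n [MOD T] → u n' = 0 := by
    intro p u hu k hk i n hg h0
    have hv : Valid p := (valid_iff p).2 ⟨u, hu⟩
    obtain ⟨c, hc⟩ := hκ2 p hv
    have hcert : Cert (fun n => iv (run (Fp p.1) p.2 n)) (κ p) :=
      cert_of_CC (by rw [← hv.1]; exact hv.2.1) (by rw [Fp_length, hv.1]) hc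
    have he : (fun n => iv (run (Fp p.1) p.2 n)) = u := funext fun n => isLRS_run hu n
    rw [he] at hcert
    exact cert_sound hcert hk hg h0
  have hmainS : ∀ p u, IsLRS p u → ∀ n ∈ S, NSeq (κ p) ≤ n → u n = 0 →
      ∃ T, 1 ≤ T ∧ T ≤ κ p ∧ ∀ n', n' ≡ n [MOD T] → u n' = 0 := by
    intro p u hu n hn hle h0
    exact hmain p u hu (lev n) (le_lev hle) _ n hn h0
  refine ⟨good_density, S_density goodDensity_holds, hS, ⟨κ, hκ, hmain⟩,
    ⟨fun p => NSeq (κ p), hNc.comp hκ, fun p u hu n hn hle h0 => ?_⟩, ?_⟩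
  · obtain ⟨T, h1, h2, h3⟩ := hmainS p u hu n hn hle h0
    exact ⟨T, h1, h2.trans (le_NSeq _), h3⟩
  · have hSre : REPred fun n : ℕ => n ∈ S := hS.to_re
    have hSnre : REPred fun n : ℕ => n ∉ S := hS.not.to_re
    refine RE.cp_of_re ?_ ?_
    · have h : REPred fun p : List (ℕ × ℕ) × List (ℕ × ℕ) =>
          Valid p ∧ ∃ n, n ∈ S ∧ zeq (run (Fp p.1) p.2 n) (0, 0) := by
        refine RE.and (re_valid (by fun_prop)) ?_
        refine RE.exN (p := fun (p : List (ℕ × ℕ) × List (ℕ × ℕ)) n =>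
          n ∈ S ∧ zeq (run (Fp p.1) p.2 n) (0, 0)) ?_
        exact RE.and (RE.comp hSre (by fun_prop)) (re_zeq (by fun_prop) (by fun_prop))
      refine h.of_eq fun p => ?_
      constructor
      · rintro ⟨hv, n, hn, hz⟩
        obtain ⟨u, hu⟩ := (valid_iff p).1 hv
        refine ⟨u, hu, n, hn, ?_⟩
        rw [← isLRS_run hu n, zeq_iff.1 hz]; rfl
      · rintro ⟨u, hu, n, hn, hz⟩
        refine ⟨(valid_iff p).2 ⟨u, hu⟩, n, hn, ?_⟩
        rw [zeq_iff, isLRS_run hu n, hz]; rfl
    · have h : REPred fun p : List (ℕ × ℕ) × List (ℕ × ℕ) =>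
          ¬ Valid p ∨ ((∀ n < NSeq (κ p), n ∉ S ∨ ¬ zeq (run (Fp p.1) p.2 n) (0, 0)) ∧
            ∀ T < κ p, ∀ r < T + 1, ∃ l, ¬ zeq (run (Fp p.1) p.2 (r + (T + 1) * l)) (0, 0)) := by
        refine RE.or (re_not_valid (by fun_prop)) (RE.and ?_ ?_)
        · refine RE.all_lt (p := fun (p : List (ℕ × ℕ) × List (ℕ × ℕ)) n =>
            n ∉ S ∨ ¬ zeq (run (Fp p.1) p.2 n) (0, 0)) ?_ (hNc.comp hκ)
          exact RE.or (RE.comp hSnre (by fun_prop)) (re_not_zeq (by fun_prop) (by fun_prop))
        · refine RE.all_lt (p := fun (p : List (ℕ × ℕ) × List (ℕ × ℕ)) T =>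
            ∀ r < T + 1, ∃ l, ¬ zeq (run (Fp p.1) p.2 (r + (T + 1) * l)) (0, 0)) ?_ hκ
          refine RE.all_lt (p := fun (x : (List (ℕ × ℕ) × List (ℕ × ℕ)) × ℕ) r =>
            ∃ l, ¬ zeq (run (Fp x.1.1) x.1.2 (r + (x.2 + 1) * l)) (0, 0)) ?_ (by fun_prop)
          refine RE.exN (p := fun (x : ((List (ℕ × ℕ) × List (ℕ × ℕ)) × ℕ) × ℕ) l =>
            ¬ zeq (run (Fp x.1.1.1) x.1.1.2 (x.2 + (x.1.2 + 1) * l)) (0, 0)) ?_
          exact re_not_zeq (by fun_prop) (by fun_prop)
      refine h.of_eq fun p => ?_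
      constructor
      · rintro (hnv | ⟨ha, hb⟩) ⟨u, hu, n, hn, hz⟩
        · exact hnv ((valid_iff p).2 ⟨u, hu⟩)
        · by_cases hle : NSeq (κ p) ≤ n
          · obtain ⟨T, h1, h2, h3⟩ := hmainS p u hu n hn hle hz
            obtain ⟨l, hl⟩ := hb (T - 1) (by omega) (n % T) (by
              have := Nat.mod_lt n h1; omega)
            rw [Nat.sub_add_cancel h1] at hl
            refine hl ?_
            rw [zeq_iff, isLRS_run hu, h3 _ (by simp [Nat.ModEq])]
            rfl
          · rcases ha n (by omega) with h1 | h1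
            · exact h1 hn
            · exact h1 (by rw [zeq_iff, isLRS_run hu n, hz]; rfl)
      · intro hcon
        by_cases hv : Valid p
        · right
          obtain ⟨u, hu⟩ := (valid_iff p).1 hv
          refine ⟨fun n _ => ?_, fun T _ r hr => ?_⟩
          · by_cases hn : n ∈ S
            · right
              intro hz
              refine hcon ⟨u, hu, n, hn, ?_⟩
              rw [← isLRS_run hu n, zeq_iff.1 hz]; rfl
            · exact Or.inl hn
          · by_contra hall
            push Not at hall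
            obtain ⟨n, hn, hmod⟩ := S_meets r (T + 1) (by omega)
            refine hcon ⟨u, hu, n, hn, ?_⟩
            have hnr : n % (T + 1) = r := by
              have : n % (T + 1) = r % (T + 1) := hmod
              rw [this, Nat.mod_eq_of_lt hr]
            have h1 := hall (n / (T + 1))
            have h2 : r + (T + 1) * (n / (T + 1)) = n := by
              rw [← hnr]; exact Nat.mod_add_div n (T + 1)
            rw [h2] at h1
            rw [← isLRS_run hu n, zeq_iff.1 h1]; rfl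
        · exact Or.inl hv

end Pool.Agent.H692R2.USS
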