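import Pool.Agent.H692R2.USS.Iface

set_option autoImplicit false

/-!
# T6: a number field splitting all small polynomials
-/

namespace Pool.Agent.H692R2.USS

open Polynomial

namespace SplitFieldAux

lemma finite_small (k : ℕ) :
    {f : ℤ[X] | f.Monic ∧ f.natDegree ≤ k ∧ ∀ i, |f.coeff i| ≤ k}.Finite := by
  have h1 : (Set.pi Set.univ (fun _ : Fin (k + 1) => Set.Icc (-(k : ℤ)) k)).Finite :=
    Set.Finite.pi fun _ => Set.finite_Icc _ _
  refine (h1.image (fun c : Fin (k + 1) → ℤ => ∑ i : Fin (k + 1), C (c i) * X ^ (i : ℕ))).subset ?_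
  rintro f ⟨_, hd, hc⟩
  refine ⟨fun i => f.coeff i, ?_, ?_⟩
  · intro i _
    exact abs_le.1 (hc i)
  · have h2 := f.as_sum_range_C_mul_X_pow' (n := k + 1) (by omega)
    simp only
    rw [Fin.sum_univ_eq_sum_range (fun i => C (f.coeff i) * X ^ i) (k + 1)]
    exact h2.symm

/-- the product of all small monic polynomials -/
noncomputable def prodAll (k : ℕ) : ℤ[X] := ∏ f ∈ (finite_small k).toFinset, f

lemma prodAll_ne_zero (k : ℕ) : prodAll k ≠ 0 := by
  unfold prodAll
  rw [Finset.prod_ne_zero_iff]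
  intro f hf
  rw [Set.Finite.mem_toFinset] at hf
  exact hf.1.ne_zero

/-- the field -/
abbrev KK (k : ℕ) : Type := ((prodAll k).map (algebraMap ℤ ℚ)).SplittingField

instance (k : ℕ) : NumberField (KK k) where
  to_charZero := inferInstance
  to_finiteDimensional := inferInstance

lemma splits_KK (k : ℕ) (f : ℤ[X]) (hf : f.Monic) (hd : f.natDegree ≤ k)
    (hc : ∀ i, |f.coeff i| ≤ k) : (f.map (algebraMap ℤ (KK k))).Splits := by
  have h1 : ((prodAll k).map (algebraMap ℤ ℚ)).map (algebraMap ℚ (KK k)) =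
      (prodAll k).map (algebraMap ℤ (KK k)) := by
    rw [Polynomial.map_map]
    congr 1
  have h2 : (((prodAll k).map (algebraMap ℤ ℚ)).map (algebraMap ℚ (KK k))).Splits :=
    Polynomial.SplittingField.splits ((prodAll k).map (algebraMap ℤ ℚ))
  rw [h1] at h2
  have hinj : Function.Injective (algebraMap ℤ (KK k)) := by
    have : (algebraMap ℤ (KK k)) = Int.castRingHom _ := RingHom.ext_int _ _
    rw [this]
    exact Int.cast_injective
  refine h2.of_dvd ?_ ?_
  · rw [Polynomial.map_ne_zero_iff hinj]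
    exact prodAll_ne_zero k
  · apply Polynomial.map_dvd
    unfold prodAll
    apply Finset.dvd_prod_of_mem
    rw [Set.Finite.mem_toFinset]
    exact ⟨hf, hd, hc⟩

lemma splits_OK (K : Type) [Field K] [NumberField K] (f : ℤ[X]) (hf : f.Monic)
    (h : (f.map (algebraMap ℤ K)).Splits) :
    (f.map (algebraMap ℤ (NumberField.RingOfIntegers K))).Splits := by
  have hmap : (f.map (algebraMap ℤ (NumberField.RingOfIntegers K))).map
      (algebraMap (NumberField.RingOfIntegers K) K) = f.map (algebraMap ℤ K) := by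
    rw [Polynomial.map_map]
    congr 1
  refine Polynomial.Splits.of_splits_map_of_injective
    (i := algebraMap (NumberField.RingOfIntegers K) K)
    (NumberField.RingOfIntegers.coe_injective) ?_ ?_
  · rw [hmap]; exact h
  · intro a ha
    rw [hmap] at ha
    have hint : IsIntegral ℤ a := by
      refine ⟨f, hf, ?_⟩
      have := Polynomial.isRoot_of_mem_roots ha
      rwa [Polynomial.IsRoot, Polynomial.eval_map] at this
    exact ⟨⟨a, hint⟩, rfl⟩

end SplitFieldAux

open SplitFieldAux

theorem splitField (k : ℕ) : ∃ (K : Type) (_ : Field K) (_ : NumberField K),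
    ∀ p : ℕ, p.Prime → HasDegOne K p → SplitAll k p := by
  refine ⟨KK k, inferInstance, inferInstance, ?_⟩
  rintro p hp ⟨v, hv⟩ f hf hd hc
  have h1 := splits_OK (KK k) f hf (splits_KK k f hf hd hc)
  have hcard : Nat.card (NumberField.RingOfIntegers (KK k) ⧸ v.asIdeal) = p := by
    rw [← hv, Ideal.absNorm_apply]
    rfl
  have hfin : Finite (NumberField.RingOfIntegers (KK k) ⧸ v.asIdeal) :=
    Nat.finite_of_card_ne_zero (by rw [hcard]; exact hp.ne_zero)
  have := Fintype.ofFinite (NumberField.RingOfIntegers (KK k) ⧸ v.asIdeal)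
  have hcard' : Fintype.card (NumberField.RingOfIntegers (KK k) ⧸ v.asIdeal) = p := by
    rw [← Nat.card_eq_fintype_card]; exact hcard
  let e := ZMod.ringEquivOfPrime (NumberField.RingOfIntegers (KK k) ⧸ v.asIdeal) hp hcard'
  let φ : NumberField.RingOfIntegers (KK k) →+* ZMod p :=
    (e.symm : _ →+* ZMod p).comp (Ideal.Quotient.mk v.asIdeal)
  have h2 := h1.map φ
  rw [Polynomial.map_map] at h2
  have h3 : φ.comp (algebraMap ℤ (NumberField.RingOfIntegers (KK k))) = Int.castRingHom (ZMod p) :=
    RingHom.ext_int _ _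
  rwa [h3] at h2

end Pool.Agent.H692R2.USS
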