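import Pool.Agent.H692R2.USS.Iface

set_option autoImplicit false

/-!
# Universal Skolem sets of density one: the second moment (task T4)
-/

namespace Pool.Agent.H692R2.USS

open Finset
open scoped Classical

namespace T4

theorem sum_mod {m M : ℕ} (h : m ∣ M) (F : ℕ → ℝ) (hF : ∀ n, F (n % m) = F n) :
    (m : ℝ) * ∑ n ∈ range M, F n = M * ∑ n ∈ range m, F n := by
  obtain ⟨k, rfl⟩ := h
  induction k with
  | zero => simp
  | succ k ih =>
    have h1 : ∑ n ∈ range (m * (k + 1)), F n = ∑ n ∈ range (m * k), F n +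
        ∑ n ∈ range m, F n := by
      rw [Nat.mul_succ, Finset.sum_range_add]
      congr 1
      apply Finset.sum_congr rfl
      intro r _
      rw [← hF (m * k + r), Nat.mul_add_mod, hF]
    rw [h1, mul_add, ih]
    push_cast
    ring

/-- indicator of the residue interval -/
noncomputable def chi (lo len : ℕ → ℕ) (p n : ℕ) : ℝ :=
  if lo p ≤ n % (p - 1) ∧ n % (p - 1) < lo p + len p then 1 else 0

theorem chi_mod (lo len : ℕ → ℕ) (p n : ℕ) : chi lo len p (n % (p - 1)) = chi lo len p n := by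
  unfold chi
  rw [Nat.mod_mod]

theorem chi_mod' (lo len : ℕ → ℕ) (p n l : ℕ) (h : (p - 1) ∣ l) :
    chi lo len p (n % l) = chi lo len p n := by
  unfold chi
  rw [Nat.mod_mod_of_dvd n h]

theorem chi_nonneg (lo len : ℕ → ℕ) (p n : ℕ) : 0 ≤ chi lo len p n := by
  unfold chi
  split_ifs <;> norm_num

theorem sum_chi {lo len : ℕ → ℕ} {p M : ℕ} (hp : 2 ≤ p) (hlo : lo p + len p ≤ p - 1)
    (hM : (p - 1) ∣ M) :
    ∑ n ∈ range M, chi lo len p n = M * (len p / ((p : ℝ) - 1)) := by
  have h1 := sum_mod hM (chi lo len p) (chi_mod lo len p)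
  have h2 : ∑ n ∈ range (p - 1), chi lo len p n = len p := by
    have h3 : ∑ n ∈ range (p - 1), chi lo len p n =
        ∑ n ∈ range (p - 1), if n ∈ Finset.Ico (lo p) (lo p + len p) then (1 : ℝ) else 0 := by
      apply Finset.sum_congr rfl
      intro n hn
      rw [Finset.mem_range] at hn
      unfold chi
      rw [Nat.mod_eq_of_lt hn]
      simp only [Finset.mem_Ico]
    rw [h3, Finset.sum_ite_mem, Finset.inter_eq_right.2]
    · simp
    · intro n hn
      rw [Finset.mem_Ico] at hn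
      rw [Finset.mem_range]
      omega
  have h4 : (((p - 1 : ℕ)) : ℝ) = (p : ℝ) - 1 := by
    rw [Nat.cast_sub (by omega)]
    simp
  have h5 : (0 : ℝ) < (p : ℝ) - 1 := by
    have : (2 : ℝ) ≤ p := by exact_mod_cast hp
    linarith
  rw [h2, h4] at h1
  field_simp
  linarith

/-- the number of elements of an interval in a residue class -/
theorem card_Ico_modEq_le (a n g v : ℕ) (hg : 0 < g) :
    (((Finset.Ico a (a + n)).filter (fun x => x ≡ v [MOD g])).card : ℝ) ≤ n / g + 1 := by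
  have h1 := Nat.Ico_filter_modEq_card a (a + n) hg v
  have h2 : (((((Finset.Ico a (a + n)).filter (fun x => x ≡ v [MOD g])).card : ℤ)) : ℚ) ≤
      (n : ℚ) / g + 1 := by
    rw [h1]
    have hg' : (0 : ℚ) < g := by exact_mod_cast hg
    rw [Int.cast_max, max_le_iff]
    constructor
    · have e1 := Int.ceil_lt_add_one ((((a + n : ℕ) : ℚ) - v) / (g : ℚ))
      have e2 := Int.le_ceil (((a : ℚ) - v) / (g : ℚ))
      push_cast at e1 e2 ⊢
      have e3 : ((a : ℚ) + n - v) / g = ((a : ℚ) - v) / g + n / g := by ring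
      rw [e3] at e1
      rw [e3]
      linarith
    · simp only [Int.cast_zero]
      positivity
  have h3 : ((((Finset.Ico a (a + n)).filter (fun x => x ≡ v [MOD g])).card : ℚ)) ≤
      (n : ℚ) / g + 1 := by exact_mod_cast h2
  have h4 := (Rat.cast_le (K := ℝ)).2 h3
  push_cast at h4
  exact h4

theorem sum_chi_mul {lo len : ℕ → ℕ} {p p' M : ℕ} (hp : 2 ≤ p) (hp' : 2 ≤ p')
    (hM : (p - 1) ∣ M) (hM' : (p' - 1) ∣ M) :
    ∑ n ∈ range M, chi lo len p n * chi lo len p' n ≤
      M * ((len p / ((p : ℝ) - 1)) * (len p' / ((p' : ℝ) - 1)) +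
        len p * ((Nat.gcd (p - 1) (p' - 1) : ℕ) : ℝ) / (((p : ℝ) - 1) * ((p' : ℝ) - 1))) := by
  set m := p - 1 with hm
  set m' := p' - 1 with hm'
  set g := Nat.gcd m m' with hg
  set l := Nat.lcm m m' with hl
  have hm0 : 0 < m := by omega
  have hm0' : 0 < m' := by omega
  have hg0 : 0 < g := Nat.gcd_pos_of_pos_left _ hm0
  have hl0 : 0 < l := Nat.lcm_pos hm0 hm0'
  have hlM : l ∣ M := Nat.lcm_dvd hM hM'
  have h1 := sum_mod hlM (fun n => chi lo len p n * chi lo len p' n) (by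
    intro n
    rw [chi_mod' lo len p n l (Nat.dvd_lcm_left _ _), chi_mod' lo len p' n l (Nat.dvd_lcm_right _ _)])
  have h2 : ∑ n ∈ range l, chi lo len p n * chi lo len p' n ≤
      len p * ((len p' : ℝ) / g + 1) := by
    have h3 : ∑ n ∈ range l, chi lo len p n * chi lo len p' n =
        (((range l).filter (fun n => (lo p ≤ n % m ∧ n % m < lo p + len p) ∧
          (lo p' ≤ n % m' ∧ n % m' < lo p' + len p'))).card : ℝ) := by
      rw [Finset.card_filter]
      push_cast
      apply Finset.sum_congr rfl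
      intro n _
      unfold chi
      by_cases e1 : lo p ≤ n % (p - 1) ∧ n % (p - 1) < lo p + len p
      · by_cases e2 : lo p' ≤ n % (p' - 1) ∧ n % (p' - 1) < lo p' + len p'
        · rw [if_pos e1, if_pos e2, if_pos ⟨e1, e2⟩]
          norm_num
        · rw [if_neg e2, mul_zero, if_neg (fun H => e2 H.2)]
      · rw [if_neg e1, zero_mul, if_neg (fun H => e1 H.1)]
    rw [h3]
    set S := (range l).filter (fun n => (lo p ≤ n % m ∧ n % m < lo p + len p) ∧
          (lo p' ≤ n % m' ∧ n % m' < lo p' + len p')) with hS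
    have h4 : S.card = ∑ b ∈ Finset.Ico (lo p) (lo p + len p), (S.filter (fun n => n % m = b)).card := by
      apply Finset.card_eq_sum_card_fiberwise
      intro n hn
      rw [Finset.mem_coe, hS, Finset.mem_filter] at hn
      rw [Finset.mem_coe, Finset.mem_Ico]
      exact hn.2.1
    have h5 : ∀ b ∈ Finset.Ico (lo p) (lo p + len p),
        ((S.filter (fun n => n % m = b)).card : ℝ) ≤ (len p' : ℝ) / g + 1 := by
      intro b _
      refine le_trans ?_ (card_Ico_modEq_le (lo p') (len p') g b hg0)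
      norm_cast
      apply Finset.card_le_card_of_injOn (fun n => n % m')
      · intro n hn
        rw [Finset.mem_coe, Finset.mem_filter, hS, Finset.mem_filter] at hn
        rw [Finset.mem_coe, Finset.mem_filter, Finset.mem_Ico]
        refine ⟨hn.1.2.2, ?_⟩
        have e1 : n % m' ≡ n [MOD g] :=
          (Nat.mod_modEq n m').of_dvd (Nat.gcd_dvd_right _ _)
        have e2 : n % m ≡ n [MOD g] :=
          (Nat.mod_modEq n m).of_dvd (Nat.gcd_dvd_left _ _)
        rw [hn.2] at e2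
        exact e1.trans e2.symm
      · intro n hn n' hn' hnn
        simp only at hnn
        rw [Finset.mem_coe, Finset.mem_filter, hS, Finset.mem_filter, Finset.mem_range] at hn hn'
        have e1 : n ≡ n' [MOD m] := by
          change n % m = n' % m
          rw [hn.2, hn'.2]
        have e2 : n ≡ n' [MOD m'] := hnn
        have e3 : n ≡ n' [MOD l] := by
          rw [Nat.modEq_iff_dvd, Int.natCast_dvd] at e1 e2 ⊢
          exact Nat.lcm_dvd e1 e2
        have e4 : n % l = n' % l := e3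
        rwa [Nat.mod_eq_of_lt hn.1.1, Nat.mod_eq_of_lt hn'.1.1] at e4
    rw [h4]
    push_cast
    refine (Finset.sum_le_sum h5).trans ?_
    rw [Finset.sum_const, Nat.card_Ico, nsmul_eq_mul]
    simp
  have hlr : (l : ℝ) * g = m * m' := by
    have := Nat.gcd_mul_lcm m m'
    rw [← hg, ← hl] at this
    have e : ((g * l : ℕ) : ℝ) = ((m * m' : ℕ) : ℝ) := by rw [this]
    push_cast at e
    linarith
  have hlr0 : (0 : ℝ) < l := by exact_mod_cast hl0
  have hgr0 : (0 : ℝ) < g := by exact_mod_cast hg0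
  have hmr : (m : ℝ) = (p : ℝ) - 1 := by
    rw [hm, Nat.cast_sub (by omega)]
    simp
  have hmr' : (m' : ℝ) = (p' : ℝ) - 1 := by
    rw [hm', Nat.cast_sub (by omega)]
    simp
  have hmr0 : (0 : ℝ) < m := by exact_mod_cast hm0
  have hmr0' : (0 : ℝ) < m' := by exact_mod_cast hm0'
  rw [← hmr, ← hmr']
  have h6 : (l : ℝ) * ∑ n ∈ range M, chi lo len p n * chi lo len p' n ≤
      M * (len p * ((len p' : ℝ) / g + 1)) := by
    rw [h1]
    exact mul_le_mul_of_nonneg_left h2 (Nat.cast_nonneg _)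
  have h7 : M * ((len p / (m : ℝ)) * (len p' / (m' : ℝ)) + len p * (g : ℝ) / ((m : ℝ) * m')) =
      (M * (len p * ((len p' : ℝ) / g + 1))) / l := by
    have e : (m : ℝ) * m' = l * g := hlr.symm
    have e1 : (len p / (m : ℝ)) * (len p' / (m' : ℝ)) = len p * len p' / ((m : ℝ) * m') := by
      field_simp
    rw [e1, e]
    field_simp
  rw [h7, le_div_iff₀ hlr0]
  linarith

theorem sum_symm (Q : Finset ℕ) (c : ℕ → ℕ → ℝ) (hc : ∀ p p', c p p' = c p' p) :
    ∑ p' ∈ Q, ∑ p ∈ Q, c p p' = ∑ p ∈ Q, c p p +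
      2 * ∑ p' ∈ Q, ∑ p ∈ Q.filter (fun p => p < p'), c p p' := by
  have h1 : ∀ p' ∈ Q, ∑ p ∈ Q, c p p' = c p' p' + ∑ p ∈ Q, (if p < p' then c p p' else 0) +
      ∑ p ∈ Q, (if p' < p then c p p' else 0) := by
    intro p' hp'
    have h2 : c p' p' = ∑ p ∈ Q, (if p = p' then c p p' else 0) := by
      rw [Finset.sum_ite_eq' Q p' (fun p => c p p'), if_pos hp']
    rw [h2, ← Finset.sum_add_distrib, ← Finset.sum_add_distrib]
    apply Finset.sum_congr rfl
    intro p _
    rcases lt_trichotomy p p' with h | h | h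
    · rw [if_neg h.ne, if_pos h, if_neg (by omega)]
      ring
    · rw [if_pos h, if_neg (by omega), if_neg (by omega)]
      ring
    · rw [if_neg h.ne', if_neg (by omega), if_pos h]
      ring
  rw [Finset.sum_congr rfl h1, Finset.sum_add_distrib, Finset.sum_add_distrib]
  have h3 : ∑ p' ∈ Q, ∑ p ∈ Q, (if p' < p then c p p' else 0) =
      ∑ p' ∈ Q, ∑ p ∈ Q, (if p < p' then c p p' else 0) := by
    rw [Finset.sum_comm]
    apply Finset.sum_congr rfl
    intro p _
    apply Finset.sum_congr rfl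
    intro p' _
    rw [hc]
  rw [h3]
  simp only [Finset.sum_filter]
  ring

end T4

open T4 in
/-- The second moment bound: few `n` miss all the residue intervals. -/
theorem second_moment (Q : Finset ℕ) (lo len : ℕ → ℕ) (w : ℕ → ℝ) (M : ℕ) (_hM : 0 < M)
    (hQ : ∀ p ∈ Q, 2 ≤ p) (hlo : ∀ p ∈ Q, lo p + len p ≤ p - 1)
    (hMp : ∀ p ∈ Q, (p - 1) ∣ M) (hw : ∀ p ∈ Q, 0 ≤ w p) :
    (((Finset.range M).filter (fun n => ∀ p ∈ Q,
      ¬ (lo p ≤ n % (p - 1) ∧ n % (p - 1) < lo p + len p))).card : ℝ) *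
      (∑ p ∈ Q, w p * len p / ((p : ℝ) - 1)) ^ 2 ≤
    M * (∑ p ∈ Q, (w p) ^ 2 * len p / ((p : ℝ) - 1) +
      2 * ∑ p' ∈ Q, ∑ p ∈ Q.filter (fun p => p < p'), w p * w p' * len p *
        ((Nat.gcd (p - 1) (p' - 1) : ℕ) : ℝ) / (((p : ℝ) - 1) * ((p' : ℝ) - 1))) := by
  set μ : ℕ → ℝ := fun p => len p / ((p : ℝ) - 1) with hμ
  have hμ0 : ∀ p ∈ Q, 0 ≤ μ p := by
    intro p hp
    have : (2 : ℝ) ≤ p := by exact_mod_cast hQ p hp
    have h1 : (0 : ℝ) ≤ (p : ℝ) - 1 := by linarith
    exact div_nonneg (Nat.cast_nonneg _) h1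
  set E1 : ℝ := ∑ p ∈ Q, w p * len p / ((p : ℝ) - 1) with hE1
  have hE1' : E1 = ∑ p ∈ Q, w p * μ p := by
    rw [hE1]
    apply Finset.sum_congr rfl
    intro p _
    rw [hμ]
    ring
  set X : ℕ → ℝ := fun n => ∑ p ∈ Q, w p * chi lo len p n with hX
  -- first step: the exceptional `n`
  have h1 : (((Finset.range M).filter (fun n => ∀ p ∈ Q,
      ¬ (lo p ≤ n % (p - 1) ∧ n % (p - 1) < lo p + len p))).card : ℝ) * E1 ^ 2 ≤
      ∑ n ∈ range M, (X n - E1) ^ 2 := by
    rw [← nsmul_eq_mul, ← Finset.sum_const]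
    have h2 : ∑ n ∈ (Finset.range M).filter (fun n => ∀ p ∈ Q,
        ¬ (lo p ≤ n % (p - 1) ∧ n % (p - 1) < lo p + len p)), E1 ^ 2 =
        ∑ n ∈ (Finset.range M).filter (fun n => ∀ p ∈ Q,
        ¬ (lo p ≤ n % (p - 1) ∧ n % (p - 1) < lo p + len p)), (X n - E1) ^ 2 := by
      apply Finset.sum_congr rfl
      intro n hn
      rw [Finset.mem_filter] at hn
      have h3 : X n = 0 := by
        rw [hX]
        apply Finset.sum_eq_zero
        intro p hp
        unfold chi
        rw [if_neg (hn.2 p hp), mul_zero]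
      rw [h3, zero_sub, neg_sq]
    rw [h2]
    apply Finset.sum_le_sum_of_subset_of_nonneg (Finset.filter_subset _ _)
    intro n _ _
    exact sq_nonneg _
  refine h1.trans ?_
  -- expand the square
  have h2 : ∀ n, (X n - E1) ^ 2 = ∑ p' ∈ Q, ∑ p ∈ Q,
      (w p * (chi lo len p n - μ p)) * (w p' * (chi lo len p' n - μ p')) := by
    intro n
    have h3 : X n - E1 = ∑ p ∈ Q, w p * (chi lo len p n - μ p) := by
      rw [hE1', hX, ← Finset.sum_sub_distrib]
      apply Finset.sum_congr rfl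
      intro p _
      ring
    rw [h3, sq, Finset.sum_mul_sum, Finset.sum_comm]
  set c : ℕ → ℕ → ℝ := fun p p' => ∑ n ∈ range M,
    (w p * (chi lo len p n - μ p)) * (w p' * (chi lo len p' n - μ p')) with hc
  have h3 : ∑ n ∈ range M, (X n - E1) ^ 2 = ∑ p' ∈ Q, ∑ p ∈ Q, c p p' := by
    rw [Finset.sum_congr rfl (fun n _ => h2 n), Finset.sum_comm]
    apply Finset.sum_congr rfl
    intro p' _
    rw [Finset.sum_comm]
  have hcsymm : ∀ p p', c p p' = c p' p := by
    intro p p'
    rw [hc]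
    apply Finset.sum_congr rfl
    intro n _
    ring
  have hcval : ∀ p ∈ Q, ∀ p' ∈ Q, c p p' = w p * w p' *
      (∑ n ∈ range M, chi lo len p n * chi lo len p' n - M * (μ p * μ p')) := by
    intro p hp p' hp'
    have e1 := sum_chi (hQ p hp) (hlo p hp) (hMp p hp)
    have e2 := sum_chi (hQ p' hp') (hlo p' hp') (hMp p' hp')
    have e3 : ∀ n, (w p * (chi lo len p n - μ p)) * (w p' * (chi lo len p' n - μ p')) =
        w p * w p' * (chi lo len p n * chi lo len p' n) - w p * w p' * μ p' * chi lo len p n -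
          w p * w p' * μ p * chi lo len p' n + w p * w p' * (μ p * μ p') := by
      intro n
      ring
    rw [hc]
    simp only [e3]
    rw [Finset.sum_add_distrib, Finset.sum_sub_distrib, Finset.sum_sub_distrib,
      ← Finset.mul_sum, ← Finset.mul_sum, ← Finset.mul_sum, e1, e2, Finset.sum_const,
      Finset.card_range, nsmul_eq_mul]
    simp only [hμ]
    ring
  rw [h3, sum_symm Q c hcsymm]
  have hdiag : ∑ p ∈ Q, c p p ≤ M * ∑ p ∈ Q, (w p) ^ 2 * len p / ((p : ℝ) - 1) := by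
    rw [Finset.mul_sum]
    apply Finset.sum_le_sum
    intro p hp
    rw [hcval p hp p hp]
    have e1 := sum_chi (hQ p hp) (hlo p hp) (hMp p hp)
    have e2 : ∑ n ∈ range M, chi lo len p n * chi lo len p n = M * μ p := by
      rw [← e1]
      apply Finset.sum_congr rfl
      intro n _
      unfold chi
      split_ifs <;> norm_num
    rw [e2]
    have e3 : 0 ≤ w p * w p * (M * (μ p * μ p)) := by
      have : (0 : ℝ) ≤ M := Nat.cast_nonneg _
      have h4 := mul_self_nonneg (w p)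
      have h5 := mul_self_nonneg (μ p)
      positivity
    have e4 : (M : ℝ) * ((w p) ^ 2 * len p / ((p : ℝ) - 1)) = w p * w p * (M * μ p) := by
      simp only [hμ]
      ring
    rw [e4]
    nlinarith
  have hoff : ∑ p' ∈ Q, ∑ p ∈ Q.filter (fun p => p < p'), c p p' ≤
      M * ∑ p' ∈ Q, ∑ p ∈ Q.filter (fun p => p < p'), w p * w p' * len p *
        ((Nat.gcd (p - 1) (p' - 1) : ℕ) : ℝ) / (((p : ℝ) - 1) * ((p' : ℝ) - 1)) := by
    rw [Finset.mul_sum]
    apply Finset.sum_le_sum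
    intro p' hp'
    rw [Finset.mul_sum]
    apply Finset.sum_le_sum
    intro p hp
    have hpQ : p ∈ Q := (Finset.mem_filter.1 hp).1
    rw [hcval p hpQ p' hp']
    have e1 := sum_chi_mul (lo := lo) (len := len) (hQ p hpQ) (hQ p' hp') (hMp p hpQ) (hMp p' hp')
    have e2 : 0 ≤ w p * w p' := mul_nonneg (hw p hpQ) (hw p' hp')
    have e3 : ∑ n ∈ range M, chi lo len p n * chi lo len p' n - M * (μ p * μ p') ≤
        M * (len p * ((Nat.gcd (p - 1) (p' - 1) : ℕ) : ℝ) / (((p : ℝ) - 1) * ((p' : ℝ) - 1))) := by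
      simp only [hμ]
      linarith
    refine (mul_le_mul_of_nonneg_left e3 e2).trans (le_of_eq ?_)
    ring
  have e5 : (M : ℝ) * (∑ p ∈ Q, (w p) ^ 2 * len p / ((p : ℝ) - 1) +
      2 * ∑ p' ∈ Q, ∑ p ∈ Q.filter (fun p => p < p'), w p * w p' * len p *
        ((Nat.gcd (p - 1) (p' - 1) : ℕ) : ℝ) / (((p : ℝ) - 1) * ((p' : ℝ) - 1))) =
      M * ∑ p ∈ Q, (w p) ^ 2 * len p / ((p : ℝ) - 1) +
      2 * (M * ∑ p' ∈ Q, ∑ p ∈ Q.filter (fun p => p < p'), w p * w p' * len p *
        ((Nat.gcd (p - 1) (p' - 1) : ℕ) : ℝ) / (((p : ℝ) - 1) * ((p' : ℝ) - 1))) := by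
    ring
  rw [e5]
  linarith

end Pool.Agent.H692R2.USS
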